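import Pool.Agent.H72.TR.Stm

/-!
# 3SUM in few rounds: the forms with three terms
-/

set_option autoImplicit false

namespace Pool.Agent.H72.TR

open Finset Pool.Agent.K4H88.Ter Pool.Agent.K4H88.Rounds

/-- the value of a form at an integral vector -/
noncomputable def F {n : ℕ} (L : Fin n → ℝ) (v : Fin n → ℤ) : ℝ := ∑ u, L u * (v u : ℝ)

theorem F_three {n : ℕ} {L : Fin n → ℝ} {s : Fin 3 → ℤ} {p : Fin 3 → Fin n}
    (h : ∀ u, L u = ∑ l, if p l = u then (s l : ℝ) else 0) (v : Fin n → ℤ) :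
    F L v = s 0 * v (p 0) + s 1 * v (p 1) + s 2 * v (p 2) := by
  have h1 : F L v = ∑ l : Fin 3, (s l : ℝ) * v (p l) := by
    unfold F
    simp only [h, Finset.sum_mul]
    rw [Finset.sum_comm]
    apply Finset.sum_congr rfl
    intro l _
    rw [Finset.sum_eq_single (p l)]
    · simp
    · intro u _ hu
      simp [Ne.symm hu]
    · simp
  rw [h1, Fin.sum_univ_three]

/-- the possible values of a form with at most three terms -/
inductive Kind {n : ℕ} (L : Fin n → ℝ) : Prop
  | zero (h : ∀ v : Fin n → ℤ, F L v = 0)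
  | pos (σ : ℤ) (hσ : σ = 1 ∨ σ = -1) (f : (Fin n → ℤ) → ℤ) (h : ∀ v : Fin n → ℤ, F L v = σ * f v)
      (hf : ∀ v, (∀ p, 0 < v p) → 0 < f v)
  | two (σ : ℤ) (hσ : σ = 1 ∨ σ = -1) (i j : Fin n) (hij : i ≠ j)
      (h : ∀ v : Fin n → ℤ, F L v = σ * ((v i - v j : ℤ) : ℝ))
  | three (σ : ℤ) (hσ : σ = 1 ∨ σ = -1) (i j k : Fin n) (hi : k ≠ i) (hj : k ≠ j)
      (h : ∀ v : Fin n → ℤ, F L v = σ * ((v i + v j - v k : ℤ) : ℝ))

theorem kind_two {n : ℕ} {L : Fin n → ℝ} (σ : ℤ) (hσ : σ = 1 ∨ σ = -1) (i j : Fin n)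
    (h : ∀ v : Fin n → ℤ, F L v = σ * ((v i - v j : ℤ) : ℝ)) : Kind L := by
  by_cases hij : i = j
  · subst hij
    exact Kind.zero fun v => by rw [h]; simp
  · exact Kind.two σ hσ i j hij h

theorem kind_three {n : ℕ} {L : Fin n → ℝ} (σ : ℤ) (hσ : σ = 1 ∨ σ = -1) (i j k : Fin n)
    (h : ∀ v : Fin n → ℤ, F L v = σ * ((v i + v j - v k : ℤ) : ℝ)) : Kind L := by
  by_cases hi : k = i
  · subst hi
    exact Kind.pos σ hσ (fun v => v j) (fun v => by rw [h]; push_cast; ring) fun v hv => hv j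
  by_cases hj : k = j
  · subst hj
    exact Kind.pos σ hσ (fun v => v i) (fun v => by rw [h]; push_cast; ring) fun v hv => hv i
  exact Kind.three σ hσ i j k hi hj h

theorem kind {n : ℕ} {L : Fin n → ℝ} (hL : ThreeTerms L) : Kind L := by
  obtain ⟨s, p, hs, h⟩ := hL
  have hF := F_three h
  rcases hs 0 with h0 | h0 | h0 <;> rcases hs 1 with h1 | h1 | h1 <;>
    rcases hs 2 with h2 | h2 | h2 <;> simp only [h0, h1, h2] at hF
  -- -1 -1 *
  · exact Kind.pos (-1) (Or.inr rfl) (fun v => v (p 0) + v (p 1) + v (p 2))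
      (fun v => by rw [hF]; push_cast; ring)
      fun v hv => by have a := hv (p 0); have b := hv (p 1); have c := hv (p 2); linarith
  · exact Kind.pos (-1) (Or.inr rfl) (fun v => v (p 0) + v (p 1))
      (fun v => by rw [hF]; push_cast; ring)
      fun v hv => by have a := hv (p 0); have b := hv (p 1); linarith
  · exact kind_three (-1) (Or.inr rfl) (p 0) (p 1) (p 2) fun v => by rw [hF]; push_cast; ring
  -- -1 0 *
  · exact Kind.pos (-1) (Or.inr rfl) (fun v => v (p 0) + v (p 2))
      (fun v => by rw [hF]; push_cast; ring)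
      fun v hv => by have a := hv (p 0); have b := hv (p 2); linarith
  · exact Kind.pos (-1) (Or.inr rfl) (fun v => v (p 0)) (fun v => by rw [hF]; push_cast; ring)
      fun v hv => hv (p 0)
  · exact kind_two (-1) (Or.inr rfl) (p 0) (p 2) fun v => by rw [hF]; push_cast; ring
  -- -1 1 *
  · exact kind_three (-1) (Or.inr rfl) (p 0) (p 2) (p 1) fun v => by rw [hF]; push_cast; ring
  · exact kind_two (-1) (Or.inr rfl) (p 0) (p 1) fun v => by rw [hF]; push_cast; ring
  · exact kind_three 1 (Or.inl rfl) (p 1) (p 2) (p 0) fun v => by rw [hF]; push_cast; ring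
  -- 0 -1 *
  · exact Kind.pos (-1) (Or.inr rfl) (fun v => v (p 1) + v (p 2))
      (fun v => by rw [hF]; push_cast; ring)
      fun v hv => by have a := hv (p 1); have b := hv (p 2); linarith
  · exact Kind.pos (-1) (Or.inr rfl) (fun v => v (p 1)) (fun v => by rw [hF]; push_cast; ring)
      fun v hv => hv (p 1)
  · exact kind_two (-1) (Or.inr rfl) (p 1) (p 2) fun v => by rw [hF]; push_cast; ring
  -- 0 0 *
  · exact Kind.pos (-1) (Or.inr rfl) (fun v => v (p 2)) (fun v => by rw [hF]; push_cast; ring)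
      fun v hv => hv (p 2)
  · exact Kind.zero fun v => by rw [hF]; simp
  · exact Kind.pos 1 (Or.inl rfl) (fun v => v (p 2)) (fun v => by rw [hF]; push_cast; ring)
      fun v hv => hv (p 2)
  -- 0 1 *
  · exact kind_two 1 (Or.inl rfl) (p 1) (p 2) fun v => by rw [hF]; push_cast; ring
  · exact Kind.pos 1 (Or.inl rfl) (fun v => v (p 1)) (fun v => by rw [hF]; push_cast; ring)
      fun v hv => hv (p 1)
  · exact Kind.pos 1 (Or.inl rfl) (fun v => v (p 1) + v (p 2))
      (fun v => by rw [hF]; push_cast; ring)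
      fun v hv => by have a := hv (p 1); have b := hv (p 2); linarith
  -- 1 -1 *
  · exact kind_three (-1) (Or.inr rfl) (p 1) (p 2) (p 0) fun v => by rw [hF]; push_cast; ring
  · exact kind_two 1 (Or.inl rfl) (p 0) (p 1) fun v => by rw [hF]; push_cast; ring
  · exact kind_three 1 (Or.inl rfl) (p 0) (p 2) (p 1) fun v => by rw [hF]; push_cast; ring
  -- 1 0 *
  · exact kind_two 1 (Or.inl rfl) (p 0) (p 2) fun v => by rw [hF]; push_cast; ring
  · exact Kind.pos 1 (Or.inl rfl) (fun v => v (p 0)) (fun v => by rw [hF]; push_cast; ring)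
      fun v hv => hv (p 0)
  · exact Kind.pos 1 (Or.inl rfl) (fun v => v (p 0) + v (p 2))
      (fun v => by rw [hF]; push_cast; ring)
      fun v hv => by have a := hv (p 0); have b := hv (p 2); linarith
  -- 1 1 *
  · exact kind_three 1 (Or.inl rfl) (p 0) (p 1) (p 2) fun v => by rw [hF]; push_cast; ring
  · exact Kind.pos 1 (Or.inl rfl) (fun v => v (p 0) + v (p 1))
      (fun v => by rw [hF]; push_cast; ring)
      fun v hv => by have a := hv (p 0); have b := hv (p 1); linarith
  · exact Kind.pos 1 (Or.inl rfl) (fun v => v (p 0) + v (p 1) + v (p 2))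
      (fun v => by rw [hF]; push_cast; ring)
      fun v hv => by have a := hv (p 0); have b := hv (p 1); have c := hv (p 2); linarith

/-- a form with the values of `x_i + x_j - x_k` -/
theorem isForm_of {n : ℕ} {L : Fin n → ℝ} (σ : ℤ) (hσ : σ = 1 ∨ σ = -1) (i j k : Fin n)
    (h : ∀ v : Fin n → ℤ, F L v = σ * ((v i + v j - v k : ℤ) : ℝ)) : IsForm L i j k := by
  have h1 : ∀ u, L u = σ * ((if i = u then 1 else 0) + (if j = u then 1 else 0)
      - (if k = u then 1 else 0)) := by
    intro u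
    have h2 := h (Pi.single u 1)
    have h3 : F L (Pi.single u 1) = L u := by
      unfold F
      rw [Finset.sum_eq_single u]
      · simp
      · intro v _ hv
        simp [Pi.single_apply, hv]
      · simp
    rw [h3] at h2
    rw [h2]
    simp only [Pi.single_apply]
    push_cast
    congr 1
  rcases hσ with rfl | rfl
  · left
    intro u
    rw [h1]
    push_cast
    ring
  · right
    intro u
    rw [h1]
    push_cast
    ring

theorem IsForm.symm {n : ℕ} {L : Fin n → ℝ} {i j k : Fin n} (h : IsForm L i j k) :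
    IsForm L j i k := by
  rcases h with h | h
  · left
    intro u
    rw [h u]
    ring
  · right
    intro u
    rw [h u]
    ring

theorem out_congr {n : ℕ} {L : Fin n → ℝ} {β : ℝ} {S : ℕ} (hβ : |β| < S) {v v' : Fin n → ℤ}
    {a a' : ℤ} (ha : F L v = a) (ha' : F L v' = a')
    (h : (0 < a ∧ 0 < a') ∨ (a < 0 ∧ a' < 0) ∨ (a = 0 ∧ a' = 0)) :
    out L β (fun p => S * v p) = out L β (fun p => S * v' p) := by
  have hS : (0 : ℝ) < S := lt_of_le_of_lt (abs_nonneg β) hβ
  have hb := abs_lt.1 hβ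
  have e : ∀ w : Fin n → ℤ, ∑ u, L u * (((S : ℤ) * w u : ℤ) : ℝ) = S * F L w := by
    intro w
    unfold F
    rw [Finset.mul_sum]
    apply Finset.sum_congr rfl
    intro u _
    push_cast
    ring
  unfold out
  rw [e, e, ha, ha']
  rcases h with ⟨h1, h2⟩ | ⟨h1, h2⟩ | ⟨h1, h2⟩
  · have h3 : (1 : ℝ) ≤ a := by exact_mod_cast h1
    have h4 : (1 : ℝ) ≤ a' := by exact_mod_cast h2
    rw [sign_pos (by nlinarith), sign_pos (by nlinarith)]
  · have h3 : (a : ℝ) ≤ -1 := by exact_mod_cast (by omega : a ≤ -1)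
    have h4 : (a' : ℝ) ≤ -1 := by exact_mod_cast (by omega : a' ≤ -1)
    rw [sign_neg (by nlinarith), sign_neg (by nlinarith)]
  · rw [h1, h2]

end Pool.Agent.H72.TR
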