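import Pool.Agent.H72.TR.Stm

/-!
# COUNT: few triples have a small set `G x t`
-/

set_option autoImplicit false

namespace Pool.Agent.H72.TR

open Finset

section count

variable {n : ℕ}

/-- the shifted triple -/
def okc (y : Fin n → ℤ) (t : Fin n × Fin n × Fin n) (d : ℕ) : Prop :=
  ∃ a b c : Fin n, a.1 = t.1.1 + d ∧ b.1 = t.2.1.1 + d ∧ c.1 + d = t.2.2.1 ∧ sm y (a, b, c) < 0

theorem okc_zero (y : Fin n → ℤ) (t : Fin n × Fin n × Fin n) (h : sm y t < 0) : okc y t 0 :=
  ⟨t.1, t.2.1, t.2.2, rfl, rfl, rfl, h⟩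

theorem okc_le (y : Fin n → ℤ) (t : Fin n × Fin n × Fin n) (d : ℕ) (h : okc y t d) : d < n := by
  obtain ⟨a, b, c, ha, _, _, _⟩ := h
  have := a.2
  omega

open Classical in
/-- the largest shift -/
noncomputable def Dc (y : Fin n → ℤ) (t : Fin n × Fin n × Fin n) : ℕ := Nat.findGreatest (okc y t) n

theorem Dc_spec (y : Fin n → ℤ) (t : Fin n × Fin n × Fin n) (h : sm y t < 0) :
    okc y t (Dc y t) := by
  classical
  unfold Dc
  exact Nat.findGreatest_spec (Nat.zero_le n) (okc_zero y t h)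

theorem le_Dc (y : Fin n → ℤ) (t : Fin n × Fin n × Fin n) (d : ℕ) (h : okc y t d) :
    d ≤ Dc y t := by
  classical
  unfold Dc
  exact Nat.le_findGreatest (okc_le y t d h).le h

theorem card_G_ge (y : Fin n → ℤ) (hy : StrictMono y) (t : Fin n × Fin n × Fin n)
    (h : sm y t < 0) : (Dc y t + 1) ^ 3 ≤ (G y t).card := by
  classical
  obtain ⟨a, b, c, ha, hb, hc, hs⟩ := Dc_spec y t h
  have h1 : (Icc t.1 a ×ˢ (Icc t.2.1 b ×ˢ Icc c t.2.2)).card = (Dc y t + 1) ^ 3 := by
    rw [card_product, card_product, Fin.card_Icc, Fin.card_Icc, Fin.card_Icc,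
      show (a : ℕ) + 1 - t.1 = Dc y t + 1 by omega, show (b : ℕ) + 1 - t.2.1 = Dc y t + 1 by omega,
      show (t.2.2 : ℕ) + 1 - c = Dc y t + 1 by omega]
    ring
  rw [← h1]
  apply card_le_card
  intro t' ht'
  rw [mem_product, mem_product, mem_Icc, mem_Icc, mem_Icc] at ht'
  obtain ⟨⟨h2, h3⟩, ⟨h4, h5⟩, h6, h7⟩ := ht'
  unfold G
  rw [mem_filter]
  refine ⟨mem_univ _, Or.inr (Or.inl ⟨hy.monotone h2, hy.monotone h4, hy.monotone h7, ?_⟩)⟩
  have h8 := hy.monotone h3
  have h9 := hy.monotone h5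
  have h10 := hy.monotone h6
  unfold sm at hs ⊢
  simp only at hs
  linarith

/-- the invariants of the line of a triple -/
def lin (t : Fin n × Fin n × Fin n) : ℕ × ℕ := (t.1.1 + n - t.2.1.1, t.1.1 + t.2.2.1)

theorem lin_inj (y : Fin n → ℤ) (t t' : Fin n × Fin n × Fin n) (h' : sm y t' < 0)
    (hl : lin t = lin t') (hD : Dc y t = Dc y t') (hle : t.1 ≤ t'.1) : t = t' := by
  obtain ⟨a, b, c, ha, hb, hc, hs⟩ := Dc_spec y t' h'
  have h1 : t.1.1 + n - t.2.1.1 = t'.1.1 + n - t'.2.1.1 := congrArg Prod.fst hl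
  have h2 : t.1.1 + t.2.2.1 = t'.1.1 + t'.2.2.1 := congrArg Prod.snd hl
  have h3 := t.2.1.2
  have h4 := t'.2.1.2
  have h5 : t.1.1 ≤ t'.1.1 := hle
  have h6 := le_Dc y t (t'.1.1 - t.1.1 + Dc y t') ⟨a, b, c, by omega, by omega, by omega, hs⟩
  have h7 : t.1.1 = t'.1.1 := by omega
  refine Prod.ext (Fin.ext h7) (Prod.ext (Fin.ext ?_) (Fin.ext ?_))
  · omega
  · omega

theorem fiber_card (y : Fin n → ℤ) (d : ℕ) :
    ((univ.filter fun t : Fin n × Fin n × Fin n => sm y t < 0).filter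
      (fun t => Dc y t = d)).card ≤ 4 * n ^ 2 := by
  classical
  have h1 : ((univ.filter fun t : Fin n × Fin n × Fin n => sm y t < 0).filter
      (fun t => Dc y t = d)).card ≤ (range (2 * n) ×ˢ range (2 * n)).card := by
    apply card_le_card_of_injOn lin
    · intro t _
      simp only [lin, coe_product, coe_range, Set.mem_prod, Set.mem_Iio]
      have h3 := t.1.2
      have h4 := t.2.1.2
      have h5 := t.2.2.2
      omega
    · intro t ht t' ht' hl
      rw [mem_coe, mem_filter, mem_filter] at ht ht'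
      rcases le_total t.1 t'.1 with h | h
      · exact lin_inj y t t' ht'.1.2 hl (by rw [ht.2, ht'.2]) h
      · exact (lin_inj y t' t ht.1.2 hl.symm (by rw [ht.2, ht'.2]) h).symm
  refine h1.trans (le_of_eq ?_)
  rw [card_product, card_range]
  ring

theorem half_sum (K m : ℕ) (hK : 1 ≤ K) : ∑ d ∈ range (K * m), (1 / 2 : ℝ) ^ (d / K) ≤ 2 * K := by
  have h : ∑ d ∈ range (K * m), (1 / 2 : ℝ) ^ (d / K) = K * ∑ q ∈ range m, (1 / 2 : ℝ) ^ q := by
    induction m with
    | zero => simp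
    | succ m ih =>
      rw [Nat.mul_succ, sum_range_add, ih, sum_range_succ, mul_add]
      congr 1
      have h2 : ∀ r ∈ range K, (1 / 2 : ℝ) ^ ((K * m + r) / K) = (1 / 2 : ℝ) ^ m := by
        intro r hr
        rw [mem_range] at hr
        rw [Nat.mul_add_div (by omega), Nat.div_eq_of_lt hr, add_zero]
      rw [sum_congr rfl h2, sum_const, card_range, nsmul_eq_mul]
  rw [h, mul_comm]
  exact mul_le_mul_of_nonneg_right (sum_geometric_two_le m) (by positivity)

theorem pow_sum (Q : ℝ) (K : ℕ) (hK : 1 ≤ K) (h0 : 0 ≤ Q) (h1 : Q ≤ 1) (hQ : Q ^ K ^ 3 ≤ 1 / 2) :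
    ∑ d ∈ range n, Q ^ d ^ 3 ≤ 2 * K := by
  calc ∑ d ∈ range n, Q ^ d ^ 3 ≤ ∑ d ∈ range n, (1 / 2 : ℝ) ^ (d / K) := by
        apply sum_le_sum
        intro d _
        have h2 : K ^ 3 * (d / K) ≤ d ^ 3 := by
          have h3 : K * (d / K) ≤ d := Nat.mul_div_le d K
          calc K ^ 3 * (d / K) ≤ K ^ 3 * (d / K) ^ 3 :=
                Nat.mul_le_mul_left _ (Nat.le_self_pow (by norm_num) _)
            _ = (K * (d / K)) ^ 3 := by rw [mul_pow]
            _ ≤ d ^ 3 := Nat.pow_le_pow_left h3 3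
        calc Q ^ d ^ 3 ≤ Q ^ (K ^ 3 * (d / K)) := pow_le_pow_of_le_one h0 h1 h2
          _ = (Q ^ K ^ 3) ^ (d / K) := by rw [pow_mul]
          _ ≤ (1 / 2 : ℝ) ^ (d / K) := pow_le_pow_left₀ (pow_nonneg h0 _) hQ _
    _ ≤ ∑ d ∈ range (K * n), (1 / 2 : ℝ) ^ (d / K) := by
        apply sum_le_sum_of_subset_of_nonneg
        · exact range_mono (Nat.le_mul_of_pos_left n hK)
        · intro _ _ _
          positivity
    _ ≤ 2 * K := half_sum K n hK

theorem neg_sum (y : Fin n → ℤ) (hy : StrictMono y) (Q : ℝ) (K : ℕ) (hK : 1 ≤ K) (h0 : 0 ≤ Q)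
    (h1 : Q ≤ 1) (hQ : Q ^ K ^ 3 ≤ 1 / 2) :
    ∑ t ∈ univ.filter (fun t : Fin n × Fin n × Fin n => sm y t < 0), Q ^ ((G y t).card - 1) ≤
      8 * n ^ 2 * K := by
  classical
  calc ∑ t ∈ univ.filter (fun t : Fin n × Fin n × Fin n => sm y t < 0), Q ^ ((G y t).card - 1)
      ≤ ∑ t ∈ univ.filter (fun t : Fin n × Fin n × Fin n => sm y t < 0), Q ^ (Dc y t) ^ 3 := by
        apply sum_le_sum
        intro t ht
        rw [mem_filter] at ht
        apply pow_le_pow_of_le_one h0 h1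
        have h2 := card_G_ge y hy t ht.2
        have h3 : (Dc y t) ^ 3 + 1 ≤ (Dc y t + 1) ^ 3 := by nlinarith [Nat.zero_le (Dc y t)]
        omega
    _ = ∑ d ∈ range n, ∑ t ∈ (univ.filter
          (fun t : Fin n × Fin n × Fin n => sm y t < 0)).filter (fun t => Dc y t = d),
          Q ^ (Dc y t) ^ 3 := by
        rw [sum_fiberwise_of_maps_to]
        intro t ht
        rw [mem_filter] at ht
        rw [mem_range]
        exact okc_le y t _ (Dc_spec y t ht.2)
    _ ≤ ∑ d ∈ range n, 4 * (n : ℝ) ^ 2 * Q ^ d ^ 3 := by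
        apply sum_le_sum
        intro d _
        have h2 : ∀ t ∈ (univ.filter
          (fun t : Fin n × Fin n × Fin n => sm y t < 0)).filter (fun t => Dc y t = d),
          Q ^ (Dc y t) ^ 3 = Q ^ d ^ 3 := by
          intro t ht
          rw [(mem_filter.1 ht).2]
        rw [sum_congr rfl h2, sum_const, nsmul_eq_mul]
        apply mul_le_mul_of_nonneg_right _ (pow_nonneg h0 _)
        exact_mod_cast fiber_card y d
    _ = 4 * (n : ℝ) ^ 2 * ∑ d ∈ range n, Q ^ d ^ 3 := by rw [mul_sum]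
    _ ≤ 4 * (n : ℝ) ^ 2 * (2 * K) :=
        mul_le_mul_of_nonneg_left (pow_sum Q K hK h0 h1 hQ) (by positivity)
    _ = 8 * n ^ 2 * K := by ring

/-- permutation of the places -/
def pe (σ : Equiv.Perm (Fin n)) : Fin n × Fin n × Fin n ≃ Fin n × Fin n × Fin n :=
  Equiv.prodCongr σ (Equiv.prodCongr σ σ)

theorem sm_pe (x : Fin n → ℤ) (σ : Equiv.Perm (Fin n)) (t : Fin n × Fin n × Fin n) :
    sm (x ∘ σ) t = sm x (pe σ t) := rfl

theorem card_G_pe (x : Fin n → ℤ) (σ : Equiv.Perm (Fin n)) (t : Fin n × Fin n × Fin n) :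
    (G (x ∘ σ) t).card = (G x (pe σ t)).card := by
  classical
  apply card_equiv (pe σ)
  intro t'
  unfold G
  rw [mem_filter, mem_filter, sm_pe, (pe σ).apply_eq_iff_eq]
  simp only [mem_univ, true_and]
  rfl

theorem neg_sum' (x : Fin n → ℤ) (hx : Function.Injective x) (Q : ℝ) (K : ℕ) (hK : 1 ≤ K)
    (h0 : 0 ≤ Q) (h1 : Q ≤ 1) (hQ : Q ^ K ^ 3 ≤ 1 / 2) :
    ∑ t ∈ univ.filter (fun t : Fin n × Fin n × Fin n => sm x t < 0), Q ^ ((G x t).card - 1) ≤
      8 * n ^ 2 * K := by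
  classical
  have hy : StrictMono (x ∘ Tuple.sort x) :=
    (Tuple.monotone_sort x).strictMono_of_injective (hx.comp (Tuple.sort x).injective)
  have h := neg_sum (x ∘ Tuple.sort x) hy Q K hK h0 h1 hQ
  refine le_trans (le_of_eq ?_) h
  symm
  apply sum_equiv (pe (Tuple.sort x))
  · intro t
    rw [mem_filter, mem_filter, sm_pe]
    simp only [mem_univ, true_and]
  · intro t _
    rw [card_G_pe]

theorem sm_neg (x : Fin n → ℤ) (t : Fin n × Fin n × Fin n) : sm (-x) t = -sm x t := by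
  unfold sm
  simp only [Pi.neg_apply]
  ring

theorem G_neg (x : Fin n → ℤ) (t : Fin n × Fin n × Fin n) : G (-x) t = G x t := by
  ext t'
  unfold G
  rw [mem_filter, mem_filter, sm_neg]
  simp only [mem_univ, true_and, Pi.neg_apply, neg_le_neg_iff, Left.neg_neg_iff, Left.neg_pos_iff]
  tauto

theorem zero_card (x : Fin n → ℤ) (hx : Function.Injective x) :
    (univ.filter (fun t : Fin n × Fin n × Fin n => sm x t = 0)).card ≤ n ^ 2 := by
  classical
  have h1 : (univ.filter (fun t : Fin n × Fin n × Fin n => sm x t = 0)).card ≤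
      (univ : Finset (Fin n × Fin n)).card := by
    apply card_le_card_of_injOn (fun t => (t.1, t.2.1))
    · intro t _
      exact mem_coe.2 (mem_univ _)
    · intro t ht t' ht' h
      rw [mem_coe, mem_filter] at ht ht'
      have h' : (t.1, t.2.1) = (t'.1, t'.2.1) := h
      have h2 : t.1 = t'.1 := (Prod.ext_iff.1 h').1
      have h3 : t.2.1 = t'.2.1 := (Prod.ext_iff.1 h').2
      have h4 := ht.2
      have h5 := ht'.2
      unfold sm at h4 h5
      have h6 : x t.2.2 = x t'.2.2 := by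
        rw [h2, h3] at h4
        linarith
      exact Prod.ext h2 (Prod.ext h3 (hx h6))
  refine h1.trans (le_of_eq ?_)
  rw [card_univ, Fintype.card_prod, Fintype.card_fin]
  ring

theorem count : COUNT := by
  classical
  intro n x hx P K hP hP1 hPK
  have hK : 1 ≤ K := by
    by_contra h
    have h2 : K = 0 := by omega
    rw [h2] at hPK
    norm_num at hPK
  have h0 : 0 ≤ 1 - P := by linarith
  have h1 : 1 - P ≤ 1 := by linarith
  have hQ : (1 - P) ^ K ^ 3 ≤ 1 / 2 := by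
    have h2 : 2 ≤ (1 + P) ^ K ^ 3 := by
      have h3 := one_add_mul_le_pow (a := P) (by linarith) (K ^ 3)
      push_cast at h3
      linarith
    have h3 : (1 - P) ^ K ^ 3 * (1 + P) ^ K ^ 3 ≤ 1 := by
      rw [← mul_pow]
      apply pow_le_one₀
      · nlinarith
      · nlinarith
    have h4 : 0 ≤ (1 - P) ^ K ^ 3 := pow_nonneg h0 _
    nlinarith
  have hneg := neg_sum' x hx (1 - P) K hK h0 h1 hQ
  have hpos := neg_sum' (-x) (fun a b hab => hx (neg_injective hab)) (1 - P) K hK h0 h1 hQ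
  have hpos' : ∑ t ∈ univ.filter (fun t : Fin n × Fin n × Fin n => 0 < sm x t),
      (1 - P) ^ ((G x t).card - 1) ≤ 8 * n ^ 2 * K := by
    refine le_trans (le_of_eq ?_) hpos
    apply sum_congr
    · ext t
      rw [mem_filter, mem_filter, sm_neg, Left.neg_neg_iff]
    · intro t _
      rw [G_neg]
  have hzero : ∑ t ∈ univ.filter (fun t : Fin n × Fin n × Fin n => sm x t = 0),
      (1 - P) ^ ((G x t).card - 1) ≤ n ^ 2 := by
    calc _ ≤ ∑ t ∈ univ.filter (fun t : Fin n × Fin n × Fin n => sm x t = 0), (1 : ℝ) :=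
          sum_le_sum fun t _ => pow_le_one₀ h0 h1
      _ = ((univ.filter (fun t : Fin n × Fin n × Fin n => sm x t = 0)).card : ℝ) := by
          rw [sum_const, nsmul_eq_mul, mul_one]
      _ ≤ n ^ 2 := by exact_mod_cast zero_card x hx
  have hsplit : ∑ t : Fin n × Fin n × Fin n, (1 - P) ^ ((G x t).card - 1) =
      ∑ t ∈ univ.filter (fun t : Fin n × Fin n × Fin n => sm x t < 0),
        (1 - P) ^ ((G x t).card - 1) +
      (∑ t ∈ univ.filter (fun t : Fin n × Fin n × Fin n => 0 < sm x t),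
        (1 - P) ^ ((G x t).card - 1) +
      ∑ t ∈ univ.filter (fun t : Fin n × Fin n × Fin n => sm x t = 0),
        (1 - P) ^ ((G x t).card - 1)) := by
    rw [sum_filter, sum_filter, sum_filter, ← sum_add_distrib, ← sum_add_distrib]
    apply sum_congr rfl
    intro t _
    rcases lt_trichotomy (sm x t) 0 with h | h | h
    · rw [if_pos h, if_neg (by omega), if_neg (by omega), add_zero, add_zero]
    · rw [if_neg (by omega), if_neg (by omega), if_pos h, zero_add, zero_add]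
    · rw [if_neg (by omega), if_pos h, if_neg (by omega), add_zero, zero_add]
  rw [hsplit]
  have hKr : (1 : ℝ) ≤ K := by exact_mod_cast hK
  have hn : (0 : ℝ) ≤ (n : ℝ) ^ 2 := by positivity
  nlinarith

end count

end Pool.Agent.H72.TR
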