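import Pool.Graph.R_pool_sql_team_seeded_c8625f6e.K4H88.Rounds.Defs

/-!
# 3SUM in few rounds: tests with at most three terms
-/

set_option autoImplicit false

namespace Pool.Agent.H72.TR

open Pool.Agent.K4H88.Ter Pool.Agent.K4H88.Rounds

/-- The form `c` has at most three terms with coefficients `1` or `-1`: its value is
`s 0 * x (p 0) + s 1 * x (p 1) + s 2 * x (p 2)` with all `s l` in `{-1, 0, 1}`
(the places `p l` may coincide). -/
def ThreeTerms {n : ℕ} (c : Fin n → ℝ) : Prop :=
  ∃ (s : Fin 3 → ℤ) (p : Fin 3 → Fin n), (∀ l, s l = -1 ∨ s l = 0 ∨ s l = 1) ∧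
    ∀ u, c u = ∑ l, if p l = u then (s l : ℝ) else 0

/-- The form `c` is `x_i + x_j - x_k` or `x_i - x_j` for some places `i`, `j`, `k`. -/
def SumTest {n : ℕ} (c : Fin n → ℝ) : Prop :=
  (∃ i j k : Fin n, ∀ u, c u = (if i = u then 1 else 0) + (if j = u then 1 else 0)
    - (if k = u then 1 else 0)) ∨
  ∃ i j : Fin n, ∀ u, c u = (if i = u then 1 else 0) - (if j = u then 1 else 0)

/-- All affine functions which are tested by the tree have a linear part with the property `P` and
a constant with the property `Q`. -/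
def Tests {n : ℕ} (P : (Fin n → ℝ) → Prop) (Q : ℝ → Prop) : {r : ℕ} → RTree n r → Prop
  | _, RTree.leaf _ => True
  | _, RTree.round _ L b child => (∀ j, P (L j) ∧ Q (b j)) ∧ ∀ σ, Tests P Q (child σ)

end Pool.Agent.H72.TR
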