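import Pool.Agent.H72.TR.Stm

/-!
# 3SUM in few rounds: assembly
-/

set_option autoImplicit false

namespace Pool.Agent.H72.TR

open Finset Pool.Agent.K4H88.Ter Pool.Agent.K4H88.Rounds

theorem SumTest.three {n : ℕ} {c : Fin n → ℝ} (h : SumTest c) : ThreeTerms c := by
  rcases h with ⟨i, j, k, h⟩ | ⟨i, j, h⟩
  · refine ⟨![1, 1, -1], ![i, j, k], ?_, ?_⟩
    · intro l; fin_cases l <;> simp
    · intro u
      rw [h u, Fin.sum_univ_three]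
      simp only [Matrix.cons_val_zero, Matrix.cons_val_one, Matrix.cons_val]
      split_ifs <;> simp
  · refine ⟨![1, -1, 0], ![i, j, i], ?_, ?_⟩
    · intro l; fin_cases l <;> simp
    · intro u
      rw [h u, Fin.sum_univ_three]
      simp only [Matrix.cons_val_zero, Matrix.cons_val_one, Matrix.cons_val]
      split_ifs <;> simp

theorem final (hU : UPPER) (hL : LOWER) (hN : NUM) :
    (∀ n r : ℕ, 1 ≤ n → 1 ≤ r →
      ∃ (Ω : Type) (_ : Fintype Ω) (μ : Ω → ℝ) (F : Ω → RTree n r),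
        (∀ ω, 0 ≤ μ ω) ∧ ∑ ω, μ ω = 1 ∧
        (∀ ω, Tests SumTest (fun b => b = 0) (F ω)) ∧
        (∀ ω, ∀ x : Fin n → ℤ, (F ω).eval x = true ↔ HasSum3 x) ∧
        ∀ x : Fin n → ℤ, Function.Injective x →
          ∑ ω, μ ω * (F ω).cost x ≤ 34 * r * (n : ℝ) ^ (2 + 2 / ((3 : ℝ) ^ r - 1))) ∧
    (∀ n : ℕ, 3 ≤ n → ∀ (Ω : Type) [Fintype Ω] (μ : Ω → ℝ), (∀ ω, 0 ≤ μ ω) → ∑ ω, μ ω = 1 →
      ∀ (F : Ω → RTree n 2) (T : ℝ), (∀ ω, Tests ThreeTerms (fun _ => True) (F ω)) →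
        (∀ ω, ∀ x : Fin n → ℤ, Function.Injective x → ((F ω).eval x = true ↔ HasSum3 x)) →
        (∀ x : Fin n → ℤ, Function.Injective x → ¬ HasSum3 x → ∑ ω, μ ω * (F ω).cost x ≤ T) →
          (n : ℝ) ^ (9 / 4 : ℝ) ≤ 100 * T) := by
  constructor
  · intro n r hn hr
    obtain ⟨s, rfl⟩ : ∃ s, r = s + 1 := ⟨r - 1, by omega⟩
    obtain ⟨Ω, hΩ, μ, F, h1, h2, h3, h4, h5⟩ := hU n s hn
    refine ⟨Ω, hΩ, μ, F, h1, h2, h3, h4, ?_⟩
    intro x hx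
    have := h5 x hx
    push_cast
    exact this
  · intro n hn Ω _ μ h1 h2 F T h3 h4 h5
    obtain ⟨w, m, hw, hwm, hwn, hnum⟩ := hN n hn
    have h6 := hL n w m hw hwm hwn Ω μ h1 h2 F T h3 h4 h5
    calc (n : ℝ) ^ (9 / 4 : ℝ) ≤ 100 * ((w : ℝ) ^ 3 * m ^ 2) := hnum
      _ ≤ 100 * T := by linarith

end Pool.Agent.H72.TR
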