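import Pool.Agent.H72.TR.Stm

/-!
# 3SUM in few rounds: the lower bound for two rounds
-/

set_option autoImplicit false

namespace Pool.Agent.H72.TR

open Finset Pool.Agent.K4H88.Ter Pool.Agent.K4H88.Rounds

/-- The constants of a finite tree are bounded. -/
theorem tests_bound {n r : ℕ} (F : RTree n r) (h : Tests ThreeTerms (fun _ => True) F) :
    ∃ S : ℕ, 1 ≤ S ∧ ∀ S' : ℕ, S ≤ S' → Tests ThreeTerms (fun b => |b| < (S' : ℝ)) F := by
  induction F with
  | leaf c => exact ⟨1, le_rfl, fun _ _ => trivial⟩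
  | round m L b child ih =>
    obtain ⟨h1, h2⟩ := h
    choose S hS1 hS2 using fun σ => ih σ (h2 σ)
    choose N hN using fun j => exists_nat_gt |b j|
    refine ⟨1 + ∑ σ, S σ + ∑ j, N j, by omega, fun S' hS' => ⟨fun j => ⟨(h1 j).1, ?_⟩, fun σ => ?_⟩⟩
    · have h3 : N j ≤ ∑ j, N j := single_le_sum (fun i _ => Nat.zero_le (N i)) (mem_univ j)
      have h4 : N j ≤ S' := by omega
      exact lt_of_lt_of_le (hN j) (by exact_mod_cast h4)
    · have h3 : S σ ≤ ∑ σ, S σ := single_le_sum (fun i _ => Nat.zero_le (S i)) (mem_univ σ)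
      exact hS2 σ S' (by omega)

theorem form_eps {n : ℕ} {c : Fin n → ℝ} {i j k : Fin n} (h : IsForm c i j k) :
    ∃ ε : ℝ, (∀ u, ε * c u = (if i = u then 1 else 0) + (if j = u then 1 else 0)
      - (if k = u then 1 else 0)) ∧ ε * ∑ u, c u = 1 := by
  have key : ∀ ε : ℝ, (∀ u, ε * c u = (if i = u then (1 : ℝ) else 0) + (if j = u then 1 else 0)
      - (if k = u then 1 else 0)) → ε * ∑ u, c u = 1 := by
    intro ε hε
    rw [mul_sum, sum_congr rfl fun u _ => hε u, sum_sub_distrib, sum_add_distrib,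
      sum_ite_eq, sum_ite_eq, sum_ite_eq]
    simp
  rcases h with h | h
  · refine ⟨1, fun u => by rw [one_mul, h u], key 1 fun u => by rw [one_mul, h u]⟩
  · refine ⟨-1, fun u => by rw [← h u]; ring, key (-1) fun u => by rw [← h u]; ring⟩

/-- The form determines the places. -/
theorem form_unique {n : ℕ} {c : Fin n → ℝ} {i j k i' j' k' : Fin n} (h : IsForm c i j k)
    (h' : IsForm c i' j' k') (h1 : i ≠ j) (h2 : i ≠ k) (h3 : j ≠ k) :
    ((i' = i ∧ j' = j) ∨ (i' = j ∧ j' = i)) ∧ k' = k := by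
  obtain ⟨ε, e1, e2⟩ := form_eps h
  obtain ⟨ε', e1', e2'⟩ := form_eps h'
  have hε : ε = ε' := by
    have h0 : ∑ u, c u ≠ 0 := by
      intro h0
      rw [h0, mul_zero] at e2
      exact zero_ne_one e2
    exact mul_right_cancel₀ h0 (e2.trans e2'.symm)
  have key : ∀ u, (if i = u then (1 : ℝ) else 0) + (if j = u then 1 else 0)
      - (if k = u then 1 else 0) = (if i' = u then 1 else 0) + (if j' = u then 1 else 0)
      - (if k' = u then 1 else 0) := by
    intro u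
    rw [← e1 u, ← e1' u, hε]
  have k1 := key i
  have k2 := key j
  have k3 := key k
  rw [if_pos rfl, if_neg h1.symm, if_neg h2.symm] at k1
  rw [if_pos rfl, if_neg h1, if_neg h3.symm] at k2
  rw [if_pos rfl, if_neg h2, if_neg h3] at k3
  have m1 : i' = i ∨ j' = i := by
    by_contra hcon
    push Not at hcon
    rw [if_neg hcon.1, if_neg hcon.2] at k1
    split_ifs at k1 <;> norm_num at k1
  have m2 : i' = j ∨ j' = j := by
    by_contra hcon
    push Not at hcon
    rw [if_neg hcon.1, if_neg hcon.2] at k2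
    split_ifs at k2 <;> norm_num at k2
  have m3 : k' = k := by
    by_contra hcon
    rw [if_neg hcon] at k3
    split_ifs at k3 <;> norm_num at k3
  refine ⟨?_, m3⟩
  rcases m1 with m1 | m1
  · rcases m2 with m2 | m2
    · exact absurd (m1.symm.trans m2) h1
    · exact Or.inl ⟨m1, m2⟩
  · rcases m2 with m2 | m2
    · exact Or.inr ⟨m2, m1⟩
    · exact absurd (m1.symm.trans m2) h1

/-- the test `c` hits the pair `q` -/
def Hl {n : ℕ} (w : ℕ) (c : Fin n → ℝ) (π : Equiv.Perm (Fin n)) (q : ℕ × ℕ) : Prop :=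
  ∃ i j k, IsForm c i j k ∧ In w q.1 q.2 (π i) (π j) (π k)

theorem hl_ne {n w m : ℕ} {π : Equiv.Perm (Fin n)} {q : ℕ × ℕ} (hq : q.1 < m ∧ m ≤ q.2)
    {i j k : Fin n} (h : In w q.1 q.2 (π i) (π j) (π k)) : i ≠ j ∧ i ≠ k ∧ j ≠ k := by
  obtain ⟨a1, a2, a3⟩ := h
  refine ⟨?_, ?_, ?_⟩ <;> rintro rfl <;> omega

open Classical in
theorem hl_one {n w m : ℕ} (c : Fin n → ℝ) (π : Equiv.Perm (Fin n)) :
    ((range m ×ˢ Ico m (2 * m)).filter fun q => Hl w c π q).card ≤ 1 := by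
  rw [card_le_one]
  intro q hq q' hq'
  rw [mem_filter, mem_product, mem_range, mem_Ico] at hq hq'
  obtain ⟨⟨a1, a2, -⟩, i, j, k, hf, hin⟩ := hq
  obtain ⟨⟨b1, b2, -⟩, i', j', k', hf', hin'⟩ := hq'
  obtain ⟨n1, n2, n3⟩ := hl_ne ⟨a1, a2⟩ hin
  obtain ⟨c1, c2, c3⟩ := hin
  obtain ⟨d1, d2, d3⟩ := hin'
  rcases (form_unique hf hf' n1 n2 n3).1 with ⟨e1, e2⟩ | ⟨e1, e2⟩
  · rw [e1] at d1
    rw [e2] at d2
    exact Prod.ext (c1.symm.trans d1) (c2.symm.trans d2)
  · rw [e1] at d1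
    rw [e2] at d2
    omega

open Classical in
theorem hl_count (hA : AVER) {n w m : ℕ} (hw : 1 ≤ w) (c : Fin n → ℝ) :
    (univ.filter fun π : Equiv.Perm (Fin n) =>
      ((range m ×ˢ Ico m (2 * m)).filter fun q => Hl w c π q).Nonempty).card * (n - 2) ≤
        n.factorial * w := by
  by_cases hex : ∃ (π : Equiv.Perm (Fin n)) (q : ℕ × ℕ), q.1 < m ∧ m ≤ q.2 ∧ Hl w c π q
  · obtain ⟨π₀, q₀, hq1, hq2, i, j, k, hf, hin⟩ := hex
    obtain ⟨n1, n2, n3⟩ := hl_ne ⟨hq1, hq2⟩ hin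
    refine le_trans (Nat.mul_le_mul_right _ (card_le_card ?_)) (hA n w hw i j k n1 n2 n3)
    intro π hπ
    rw [mem_filter] at hπ ⊢
    refine ⟨mem_univ _, ?_⟩
    obtain ⟨q, hq⟩ := hπ.2
    rw [mem_filter, mem_product, mem_range, mem_Ico] at hq
    obtain ⟨-, i', j', k', hf', d1, d2, d3⟩ := hq
    obtain ⟨e, e3⟩ := form_unique hf hf' n1 n2 n3
    rw [e3] at d3
    rcases e with ⟨e1, e2⟩ | ⟨e1, e2⟩
    · rw [e1] at d1
      rw [e2] at d2
      rw [d1, d2, d3]
    · rw [e1] at d1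
      rw [e2] at d2
      rw [d1, d2, d3]
      ring
  · push Not at hex
    have h0 : (univ.filter fun π : Equiv.Perm (Fin n) =>
      ((range m ×ˢ Ico m (2 * m)).filter fun q => Hl w c π q).Nonempty) = ∅ := by
      rw [filter_eq_empty_iff]
      rintro π - ⟨q, hq⟩
      rw [mem_filter, mem_product, mem_range, mem_Ico] at hq
      exact hex π q hq.1.1 hq.1.2.1 hq.2
    rw [h0, card_empty, zero_mul]
    exact Nat.zero_le _

open Classical in
theorem hit_sum (hA : AVER) {n w m mm : ℕ} (hw : 1 ≤ w) (hn : w ^ 4 + 2 ≤ n)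
    (L : Fin mm → Fin n → ℝ) :
    w ^ 3 * ∑ π : Equiv.Perm (Fin n),
      ((range m ×ˢ Ico m (2 * m)).filter fun q => Hit w L π q.1 q.2).card ≤ n.factorial * mm := by
  have h1 : ∀ π : Equiv.Perm (Fin n),
      ((range m ×ˢ Ico m (2 * m)).filter fun q => Hit w L π q.1 q.2).card ≤
        ∑ l : Fin mm, if ((range m ×ˢ Ico m (2 * m)).filter fun q => Hl w (L l) π q).Nonempty
          then 1 else 0 := by
    intro π
    have h2 : ((range m ×ˢ Ico m (2 * m)).filter fun q => Hit w L π q.1 q.2) ⊆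
        univ.biUnion fun l : Fin mm => ((range m ×ˢ Ico m (2 * m)).filter fun q => Hl w (L l) π q) := by
      intro q hq
      rw [mem_filter] at hq
      obtain ⟨hq1, l, i, j, k, hf, hin⟩ := hq
      rw [mem_biUnion]
      exact ⟨l, mem_univ _, mem_filter.2 ⟨hq1, i, j, k, hf, hin⟩⟩
    refine (card_le_card h2).trans (card_biUnion_le.trans (sum_le_sum fun l _ => ?_))
    split_ifs with h3
    · exact hl_one (L l) π
    · rw [not_nonempty_iff_eq_empty.1 h3, card_empty]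
  have h2 : (∑ π : Equiv.Perm (Fin n),
      ((range m ×ˢ Ico m (2 * m)).filter fun q => Hit w L π q.1 q.2).card) * (n - 2) ≤
        mm * (n.factorial * w) := by
    refine le_trans (Nat.mul_le_mul_right _ (sum_le_sum fun π _ => h1 π)) ?_
    rw [sum_comm, sum_mul]
    refine le_trans (sum_le_card_nsmul _ _ (n.factorial * w) fun l _ => ?_) (by
      rw [card_univ, Fintype.card_fin, smul_eq_mul])
    rw [← card_filter]
    exact hl_count hA hw (L l)
  have h3 : 0 < n - 2 := by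
    have : 0 < w ^ 4 := by positivity
    omega
  refine le_of_mul_le_mul_right (?_ : _ * (n - 2) ≤ _ * (n - 2)) h3
  calc w ^ 3 * (∑ π : Equiv.Perm (Fin n),
        ((range m ×ˢ Ico m (2 * m)).filter fun q => Hit w L π q.1 q.2).card) * (n - 2)
      = w ^ 3 * ((∑ π : Equiv.Perm (Fin n),
        ((range m ×ˢ Ico m (2 * m)).filter fun q => Hit w L π q.1 q.2).card) * (n - 2)) := by ring
    _ ≤ w ^ 3 * (mm * (n.factorial * w)) := Nat.mul_le_mul_left _ h2
    _ = n.factorial * mm * w ^ 4 := by ring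
    _ ≤ n.factorial * mm * (n - 2) := Nat.mul_le_mul_left _ (by omega)

open Classical in
theorem cost_sum (hA : AVER) {n w m mm : ℕ} (hw : 1 ≤ w) (hn : w ^ 4 + 2 ≤ n)
    (L : Fin mm → Fin n → ℝ) (f : Equiv.Perm (Fin n) → ℕ)
    (hf : ∀ π : Equiv.Perm (Fin n),
      mm + w ^ 3 * ((range m ×ˢ Ico m (2 * m)).filter fun q => ¬ Hit w L π q.1 q.2).card ≤ f π) :
    n.factorial * (w ^ 3 * m ^ 2) ≤ ∑ π, f π := by
  have h1 := hit_sum (m := m) hA hw hn L
  have h2 : ∑ π : Equiv.Perm (Fin n), (mm + w ^ 3 * m ^ 2) ≤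
      ∑ π : Equiv.Perm (Fin n), (f π +
        w ^ 3 * ((range m ×ˢ Ico m (2 * m)).filter fun q => Hit w L π q.1 q.2).card) := by
    refine sum_le_sum fun π _ => ?_
    have h3 := card_filter_add_card_filter_not (s := range m ×ˢ Ico m (2 * m))
      (fun q => Hit w L π q.1 q.2)
    rw [card_product, card_range, Nat.card_Ico, show 2 * m - m = m by omega] at h3
    have h4 := hf π
    have h5 : w ^ 3 * m ^ 2 =
        w ^ 3 * ((range m ×ˢ Ico m (2 * m)).filter fun q => Hit w L π q.1 q.2).card +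
        w ^ 3 * ((range m ×ˢ Ico m (2 * m)).filter fun q => ¬ Hit w L π q.1 q.2).card := by
      rw [← Nat.mul_add, h3, sq]
    omega
  have e1 : ∑ π : Equiv.Perm (Fin n), (mm + w ^ 3 * m ^ 2) =
      n.factorial * mm + n.factorial * (w ^ 3 * m ^ 2) := by
    rw [sum_const, card_univ, Fintype.card_perm, Fintype.card_fin, smul_eq_mul, Nat.mul_add]
  have e2 : ∑ π : Equiv.Perm (Fin n), (f π +
        w ^ 3 * ((range m ×ˢ Ico m (2 * m)).filter fun q => Hit w L π q.1 q.2).card) =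
      ∑ π, f π + w ^ 3 * ∑ π : Equiv.Perm (Fin n),
        ((range m ×ˢ Ico m (2 * m)).filter fun q => Hit w L π q.1 q.2).card := by
    rw [sum_add_distrib, ← mul_sum]
  rw [e1, e2] at h2
  omega

theorem lower (hI : INST) (hS : SECOND) (hA : AVER) : LOWER := by
  classical
  intro n w m hw hwm hn Ω _ μ hμ hμ1 F T hF hev hT
  rcases Nat.eq_zero_or_pos m with hm | hm
  · subst hm
    obtain ⟨x, hx1, hx2, -⟩ := hI n w 0 1 hw (by omega) le_rfl
    have h1 := hT x hx1 hx2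
    have h2 : 0 ≤ ∑ ω, μ ω * ((F ω).cost x : ℝ) :=
      sum_nonneg fun ω _ => mul_nonneg (hμ ω) (Nat.cast_nonneg _)
    simpa using h2.trans h1
  choose S hS1 hS2 using fun ω => tests_bound (F ω) (hF ω)
  obtain ⟨x, hx1, hx2, hx3⟩ := hS n w m (1 + ∑ ω, S ω) hw hwm hm (by omega)
  have hSω : ∀ ω, S ω ≤ 1 + ∑ ω, S ω := fun ω => by
    have := single_le_sum (fun i _ => Nat.zero_le (S i)) (mem_univ ω)
    omega
  have hcost : ∀ ω, n.factorial * (w ^ 3 * m ^ 2) ≤
      ∑ π : Equiv.Perm (Fin n), (F ω).cost (x ∘ π) := by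
    intro ω
    obtain ⟨mm, L, -, hL⟩ := hx3 (F ω) (hS2 ω _ (hSω ω)) (hev ω)
    exact cost_sum hA hw hn L _ (fun π => hL π)
  have hinj : ∀ π : Equiv.Perm (Fin n), Function.Injective (x ∘ π) := fun π =>
    hx1.comp π.injective
  have hno : ∀ π : Equiv.Perm (Fin n), ¬ HasSum3 (x ∘ π) := by
    rintro π ⟨i, j, k, h1, h2, h3, h4⟩
    exact hx2 ⟨π i, π j, π k, fun h => h1 (π.injective h), fun h => h2 (π.injective h),
      fun h => h3 (π.injective h), h4⟩
  have h1 : ∑ π : Equiv.Perm (Fin n), ∑ ω, μ ω * ((F ω).cost (x ∘ π) : ℝ) ≤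
      n.factorial * T := by
    refine le_trans (sum_le_card_nsmul _ _ T fun π _ => hT _ (hinj π) (hno π)) ?_
    rw [card_univ, Fintype.card_perm, Fintype.card_fin, nsmul_eq_mul]
  rw [sum_comm] at h1
  have h2 : ((n.factorial : ℝ) * (w ^ 3 * m ^ 2)) ≤
      ∑ ω, ∑ π : Equiv.Perm (Fin n), μ ω * ((F ω).cost (x ∘ π) : ℝ) := by
    have h3 : ((n.factorial : ℝ) * (w ^ 3 * m ^ 2)) =
        ∑ ω, μ ω * ((n.factorial : ℝ) * (w ^ 3 * m ^ 2)) := by
      rw [← sum_mul, hμ1, one_mul]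
    rw [h3]
    refine sum_le_sum fun ω _ => ?_
    rw [← mul_sum]
    refine mul_le_mul_of_nonneg_left ?_ (hμ ω)
    have h4 := hcost ω
    exact_mod_cast h4
  have h5 : (0 : ℝ) < n.factorial := by exact_mod_cast Nat.factorial_pos n
  exact le_of_mul_le_mul_left (h2.trans h1) h5

end Pool.Agent.H72.TR
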