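import Pool.Agent.H72.TR.Stm2
import Pool.Agent.H72.TR.Fin
import Pool.Agent.H72.TR.Lower

/-!
# 3SUM in few rounds: assembly
-/

set_option autoImplicit false

namespace Pool.Agent.H72.TR

open Finset Pool.Agent.K4H88.Ter Pool.Agent.K4H88.Rounds

open Classical in
theorem lowerS (hL : LOWER2) (hN : NUM) (n S : ℕ) (hn : 3 ≤ n) (hS : 1 ≤ S) (Ω : Type) [Fintype Ω]
    (μ : Ω → ℝ) (h1 : ∀ ω, 0 ≤ μ ω) (h2 : ∑ ω, μ ω = 1) (F : Ω → RTree n 2) (T η : ℝ)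
    (hη : η ≤ 1 / 2) (h3 : ∀ ω, Tests ThreeTerms (fun b => |b| < S) (F ω))
    (h4 : ∀ x : Fin n → ℤ, Function.Injective x → Rng (1000 * S * n ^ 2) x →
      ∑ ω, μ ω * (if ((F ω).eval x = true ↔ HasSum3 x) then 0 else 1) ≤ η)
    (h5 : ∀ x : Fin n → ℤ, Function.Injective x → Rng (1000 * S * n ^ 2) x → ¬ HasSum3 x →
      ∑ ω, μ ω * (F ω).cost x ≤ T) :
    (1 - 2 * η) * (n : ℝ) ^ (9 / 4 : ℝ) ≤ 100 * T := by
  obtain ⟨w, m, hw, hwm, hwn, hnum⟩ := hN n hn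
  have h6 := hL n w m S (by omega) hw hwm hwn hS Ω μ h1 h2 F T η h3 h4 h5
  have h7 : 0 ≤ 1 - 2 * η := by linarith
  calc (1 - 2 * η) * (n : ℝ) ^ (9 / 4 : ℝ)
      ≤ (1 - 2 * η) * (100 * ((w : ℝ) ^ 3 * m ^ 2)) := mul_le_mul_of_nonneg_left hnum h7
    _ = 100 * ((1 - 2 * η) * ((w : ℝ) ^ 3 * m ^ 2)) := by ring
    _ ≤ 100 * T := by linarith

open Classical in
theorem lowerA (hL : LOWER2) (hN : NUM) (n : ℕ) (hn : 3 ≤ n) (Ω : Type) [Fintype Ω]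
    (μ : Ω → ℝ) (h1 : ∀ ω, 0 ≤ μ ω) (h2 : ∑ ω, μ ω = 1) (F : Ω → RTree n 2) (T η : ℝ)
    (hη : η ≤ 1 / 2) (h3 : ∀ ω, Tests ThreeTerms (fun _ => True) (F ω))
    (h4 : ∀ x : Fin n → ℤ, Function.Injective x →
      ∑ ω, μ ω * (if ((F ω).eval x = true ↔ HasSum3 x) then 0 else 1) ≤ η)
    (h5 : ∀ x : Fin n → ℤ, Function.Injective x → ¬ HasSum3 x →
      ∑ ω, μ ω * (F ω).cost x ≤ T) :
    (1 - 2 * η) * (n : ℝ) ^ (9 / 4 : ℝ) ≤ 100 * T := by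
  choose S hS1 hS2 using fun ω => tests_bound (F ω) (h3 ω)
  have h6 : ∀ ω, Tests ThreeTerms (fun b => |b| < ((1 + ∑ ω, S ω : ℕ) : ℝ)) (F ω) := by
    intro ω
    have h7 : S ω ≤ ∑ ω, S ω := single_le_sum (fun i _ => Nat.zero_le (S i)) (mem_univ ω)
    exact hS2 ω _ (by omega)
  exact lowerS hL hN n (1 + ∑ ω, S ω) hn (by omega) Ω μ h1 h2 F T η hη h6
    (fun x hx _ => h4 x hx) (fun x hx _ => h5 x hx)

end Pool.Agent.H72.TR
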