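import Pool.Agent.H72.TR.Stm3
import Pool.Agent.H72.TR.Lower

/-!
# 3SUM in few rounds: assembly
-/

set_option autoImplicit false

namespace Pool.Agent.H72.TR

open Finset Pool.Agent.K4H88.Ter Pool.Agent.K4H88.Rounds

theorem upperR (hU : UPPER) (n r : ℕ) (hn : 1 ≤ n) (hr : 1 ≤ r) :
    ∃ (Ω : Type) (_ : Fintype Ω) (μ : Ω → ℝ) (F : Ω → RTree n r),
      (∀ ω, 0 ≤ μ ω) ∧ ∑ ω, μ ω = 1 ∧
      (∀ ω, Tests SumTest (fun b => b = 0) (F ω)) ∧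
      (∀ ω, ∀ x : Fin n → ℤ, (F ω).eval x = true ↔ HasSum3 x) ∧
      ∀ x : Fin n → ℤ, Function.Injective x →
        ∑ ω, μ ω * (F ω).cost x ≤ 34 * r * (n : ℝ) ^ (2 + 2 / ((3 : ℝ) ^ r - 1)) := by
  obtain ⟨s, rfl⟩ : ∃ s, r = s + 1 := ⟨r - 1, by omega⟩
  obtain ⟨Ω, hΩ, μ, F, h1, h2, h3, h4, h5⟩ := hU n s hn
  refine ⟨Ω, hΩ, μ, F, h1, h2, h3, h4, ?_⟩
  intro x hx
  have := h5 x hx
  push_cast
  exact this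

open Classical in
theorem lowerS3 (hL : LOWER3) (hN : NUM3) (n S : ℕ) (hn : 5 ≤ n) (hS : 1 ≤ S) (Ω : Type)
    [Fintype Ω] (μ : Ω → ℝ) (h1 : ∀ ω, 0 ≤ μ ω) (h2 : ∑ ω, μ ω = 1) (F : Ω → RTree n 2)
    (T η : ℝ) (hη : η ≤ 1 / 2) (h3 : ∀ ω, Tests ThreeTerms (fun b => |b| < S) (F ω))
    (h4 : ∀ x : Fin n → ℤ, StrictMono x → (∀ p, 1 ≤ x p ∧ x p ≤ 2000 * S * n ^ 2) →
      ∑ ω, μ ω * (if ((F ω).eval x = true ↔ HasSum3 x) then 0 else 1) ≤ η)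
    (h5 : ∀ x : Fin n → ℤ, StrictMono x → (∀ p, 1 ≤ x p ∧ x p ≤ 2000 * S * n ^ 2) →
      ¬ HasSum3 x → ∑ ω, μ ω * (F ω).cost x ≤ T) :
    (1 - 2 * η) * (n : ℝ) ^ (9 / 4 : ℝ) ≤ 300 * T := by
  obtain ⟨w, g, hw, hg, hgw, hwg, hnum⟩ := hN n hn
  have hR : ∀ x : Fin n → ℤ, Rng (2000 * S * n ^ 2) x →
      ∀ p, 1 ≤ x p ∧ x p ≤ 2000 * S * n ^ 2 := by
    intro x hx p
    have := hx p
    push_cast at this
    exact this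
  have h6 := hL n g w S hw hg hgw hwg hS Ω μ h1 h2 F T η h3
    (fun x hx hx2 => h4 x hx (hR x hx2)) (fun x hx hx2 => h5 x hx (hR x hx2))
  have h7 : 0 ≤ 1 - 2 * η := by linarith
  calc (1 - 2 * η) * (n : ℝ) ^ (9 / 4 : ℝ)
      ≤ (1 - 2 * η) * (300 * ((g : ℝ) ^ 2 * w ^ 3)) := mul_le_mul_of_nonneg_left hnum h7
    _ = 300 * ((1 - 2 * η) * ((g : ℝ) ^ 2 * w ^ 3)) := by ring
    _ ≤ 300 * T := by linarith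

open Classical in
theorem lowerA3 (hL : LOWER3) (hN : NUM3) (n : ℕ) (hn : 5 ≤ n) (Ω : Type) [Fintype Ω]
    (μ : Ω → ℝ) (h1 : ∀ ω, 0 ≤ μ ω) (h2 : ∑ ω, μ ω = 1) (F : Ω → RTree n 2) (T η : ℝ)
    (hη : η ≤ 1 / 2) (h3 : ∀ ω, Tests ThreeTerms (fun _ => True) (F ω))
    (h4 : ∀ x : Fin n → ℤ, StrictMono x →
      ∑ ω, μ ω * (if ((F ω).eval x = true ↔ HasSum3 x) then 0 else 1) ≤ η)
    (h5 : ∀ x : Fin n → ℤ, StrictMono x → ¬ HasSum3 x → ∑ ω, μ ω * (F ω).cost x ≤ T) :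
    (1 - 2 * η) * (n : ℝ) ^ (9 / 4 : ℝ) ≤ 300 * T := by
  choose S hS1 hS2 using fun ω => tests_bound (F ω) (h3 ω)
  have h6 : ∀ ω, Tests ThreeTerms (fun b => |b| < ((1 + ∑ ω, S ω : ℕ) : ℝ)) (F ω) := by
    intro ω
    have h7 : S ω ≤ ∑ ω, S ω := single_le_sum (fun i _ => Nat.zero_le (S i)) (mem_univ ω)
    exact hS2 ω _ (by omega)
  exact lowerS3 hL hN n (1 + ∑ ω, S ω) hn (by omega) Ω μ h1 h2 F T η hη h6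
    (fun x hx _ => h4 x hx) (fun x hx _ => h5 x hx)

end Pool.Agent.H72.TR
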