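import Pool.Agent.H72.TR.Stm4

/-!
# 3SUM in three rounds
-/

set_option autoImplicit false

namespace Pool.Agent.H72.TR

open Finset Pool.Agent.K4H88.Ter Pool.Agent.K4H88.Rounds

/-- the signs of all tests -/
noncomputable def pat {n : ℕ} (x : Fin n → ℤ) :
    (Fin n × Fin n × Fin n → SignType) × (Fin n × Fin n → SignType) :=
  (fun t => SignType.sign (sm x t), fun p => SignType.sign (x p.1 - x p.2))

/-- the patterns of lists of distinct integers -/
def PX (n : ℕ) : Type :=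
  {ρ : (Fin n × Fin n × Fin n → SignType) × (Fin n × Fin n → SignType) //
    ∃ x : Fin n → ℤ, Function.Injective x ∧ pat x = ρ}

/-- a list with a given pattern -/
noncomputable def rep {n : ℕ} (ρ : PX n) : Fin n → ℤ := ρ.2.choose

theorem rep_inj {n : ℕ} (ρ : PX n) : Function.Injective (rep ρ) := ρ.2.choose_spec.1

theorem rep_pat {n : ℕ} (ρ : PX n) : pat (rep ρ) = ρ.1 := ρ.2.choose_spec.2

/-- the trees which are correct -/
def GT (n : ℕ) : Type :=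
  {F : RTree n 3 // Tests SumTest (fun b => b = 0) F ∧
    ∀ x : Fin n → ℤ, Function.Injective x → (F.eval x = true ↔ HasSum3 x)}

theorem log_count (n : ℕ) (hn : 1 ≤ n) :
    Real.log (((n ^ 3 + n ^ 2 + 1) ^ n : ℕ) : ℝ) ≤ n * ((3 * (Nat.log 2 n : ℝ) + 5) * (7 / 10)) := by
  have h1 : n < 2 ^ (Nat.log 2 n + 1) := Nat.lt_pow_succ_log_self (by norm_num) n
  have h2 : n ^ 3 + n ^ 2 + 1 ≤ 2 ^ (3 * Nat.log 2 n + 5) := by
    have h3 : n ^ 3 ≤ (2 ^ (Nat.log 2 n + 1)) ^ 3 := Nat.pow_le_pow_left h1.le 3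
    have h4 : n ^ 2 ≤ n ^ 3 := Nat.pow_le_pow_right hn (by norm_num)
    have h5 : 1 ≤ n ^ 3 := Nat.one_le_pow _ _ hn
    have h6 : 2 ^ (3 * Nat.log 2 n + 5) = 4 * (2 ^ (Nat.log 2 n + 1)) ^ 3 := by
      rw [← pow_mul, show (4 : ℕ) = 2 ^ 2 by norm_num, ← pow_add]
      congr 1
      ring
    rw [h6]
    omega
  have h3 : Real.log ((n ^ 3 + n ^ 2 + 1 : ℕ) : ℝ) ≤ (3 * (Nat.log 2 n : ℝ) + 5) * (7 / 10) := by
    have h4 : Real.log ((n ^ 3 + n ^ 2 + 1 : ℕ) : ℝ) ≤ Real.log ((2 ^ (3 * Nat.log 2 n + 5) : ℕ) : ℝ) :=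
      Real.log_le_log (by positivity) (by exact_mod_cast h2)
    have h5 : Real.log ((2 ^ (3 * Nat.log 2 n + 5) : ℕ) : ℝ) =
        (3 * (Nat.log 2 n : ℝ) + 5) * Real.log 2 := by
      push_cast
      rw [Real.log_pow]
      push_cast
      ring
    rw [h5] at h4
    have h6 : Real.log 2 ≤ 7 / 10 := by
      have := Real.log_two_lt_d9
      linarith
    exact h4.trans (mul_le_mul_of_nonneg_left h6 (by positivity))
  have h7 : Real.log (((n ^ 3 + n ^ 2 + 1) ^ n : ℕ) : ℝ) =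
      n * Real.log ((n ^ 3 + n ^ 2 + 1 : ℕ) : ℝ) := by
    rw [Nat.cast_pow, Real.log_pow]
  rw [h7]
  exact mul_le_mul_of_nonneg_left h3 (by positivity)

open Classical in
theorem three (hM : MINIMAX) (hL : LEARN) (hP : PATS) (hT : TREE3) (h1 : ROWS1) (h2 : ROWS2)
    (hI : INV) : THREE := by
  intro n hn
  let _ : Fintype (PX n) := Subtype.fintype _
  have hne : Nonempty (PX n) := by
    refine ⟨⟨pat (fun i : Fin n => (i.1 : ℤ)), fun i : Fin n => (i.1 : ℤ), ?_, rfl⟩⟩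
    intro i j hij
    have hij' : (i.1 : ℤ) = (j.1 : ℤ) := hij
    exact Fin.ext (by exact_mod_cast hij')
  have hn0 : (0 : ℝ) < n := by exact_mod_cast hn
  have key := hM (PX n) (GT n) (fun F ρ => (F.1.cost (rep ρ) : ℝ))
    (14 * (n : ℝ) ^ 2 * (Nat.log 2 n + 1)) (20 * (n : ℝ) ^ 2 * (Nat.log 2 n + 1)) (by
      have : (0 : ℝ) < (n : ℝ) ^ 2 * (Nat.log 2 n + 1) := by positivity
      nlinarith) ?_
  · obtain ⟨Ω, hΩ, μ, F, hμ, hμ1, hc⟩ := key
    refine ⟨Ω, hΩ, μ, fun ω => (F ω).1, hμ, hμ1, fun ω => (F ω).2.1, fun ω => (F ω).2.2, ?_⟩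
    intro x hx
    have h3 := hc ⟨pat x, x, hx, rfl⟩
    have h4 : ∀ ω, (F ω).1.cost x = (F ω).1.cost (rep ⟨pat x, x, hx, rfl⟩) := by
      intro ω
      have h5 := rep_pat (⟨pat x, x, hx, rfl⟩ : PX n)
      apply hI n 3 (F ω).1 (F ω).2.1
      · intro t
        exact (congrFun (congrArg Prod.fst h5) t).symm
      · intro i j
        exact (congrFun (congrArg Prod.snd h5) (i, j)).symm
    simp only [h4]
    exact h3
  · intro D hD hD1
    have hN : (univ.image fun ρ : PX n => (Ord (rep ρ), Lab (rep ρ))).card ≤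
        (n ^ 3 + n ^ 2 + 1) ^ n := hP n (PX n) rep
    obtain ⟨Q, G, hQ, hG, hd⟩ := hL (PX n) (Fin n × Fin n × Fin n) (Fin n × Fin n → Bool)
      (fun ρ => Lab (rep ρ)) (fun ρ => Ord (rep ρ)) ((n ^ 3 + n ^ 2 + 1) ^ n) (n ^ 2)
      (Nat.one_le_pow _ _ hn) (by
        refine le_trans (le_of_eq ?_) hN
        congr 1
        ext a
        simp only [mem_image]) D hD hD1
    obtain ⟨F, hF1, hF2, hF3⟩ := hT n Q (fun o b => Rset (rep (G o b)))
    refine ⟨⟨F, hF1, hF2⟩, ?_⟩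
    set d : PX n → ℝ := fun ρ =>
      ((univ.filter fun t => Lab (rep (G (Ord (rep ρ)) (mask Q (Lab (rep ρ))))) t ≠
        Lab (rep ρ) t).card : ℝ) with hdd
    have h3 : ∀ ρ, (F.cost (rep ρ) : ℝ) ≤
        (n : ℝ) ^ 2 * (7 + 2 * (Nat.log 2 n : ℝ)) + 2 * d ρ := by
      intro ρ
      have h4 := hF3 (rep ρ) (rep_inj ρ)
      have h5 := h1 n (rep (G (Ord (rep ρ)) (mask Q (Lab (rep ρ))))) (rep_inj _)
      have h6 := h2 n (rep ρ) (rep (G (Ord (rep ρ)) (mask Q (Lab (rep ρ))))) (rep_inj _)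
        (rep_inj _) (hG ρ).symm
      have h7 : F.cost (rep ρ) ≤ n ^ 2 + n ^ 2 + n ^ 2 * (2 * (Nat.log 2 n + 2)) +
          (n ^ 2 + 2 * (univ.filter fun t =>
            Lab (rep (G (Ord (rep ρ)) (mask Q (Lab (rep ρ))))) t ≠ Lab (rep ρ) t).card) := by
        refine h4.trans ?_
        gcongr
      have h8 : (F.cost (rep ρ) : ℝ) ≤ ((n ^ 2 + n ^ 2 + n ^ 2 * (2 * (Nat.log 2 n + 2)) +
          (n ^ 2 + 2 * (univ.filter fun t =>
            Lab (rep (G (Ord (rep ρ)) (mask Q (Lab (rep ρ))))) t ≠ Lab (rep ρ) t).card) : ℕ) : ℝ) := by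
        exact_mod_cast h7
      refine h8.trans (le_of_eq ?_)
      push_cast
      simp only [hdd]
      ring
    have h9 : ∑ ρ, D ρ * d ρ ≤ (n : ℝ) ^ 2 * ((3 * (Nat.log 2 n : ℝ) + 5) * (7 / 10)) := by
      have h10 : ∑ ρ, D ρ * d ρ ≤ (Fintype.card (Fin n × Fin n × Fin n) : ℝ) *
          Real.log (((n ^ 3 + n ^ 2 + 1) ^ n : ℕ) : ℝ) / ((n ^ 2 : ℕ) : ℝ) := by
        refine le_trans (le_of_eq ?_) hd
        apply Finset.sum_congr rfl
        intro ρ _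
        rfl
      refine h10.trans ?_
      have h11 := log_count n hn
      rw [div_le_iff₀ (by positivity)]
      have h12 : (Fintype.card (Fin n × Fin n × Fin n) : ℝ) = (n : ℝ) ^ 3 := by
        simp only [Fintype.card_prod, Fintype.card_fin]
        push_cast
        ring
      rw [h12]
      calc (n : ℝ) ^ 3 * Real.log (((n ^ 3 + n ^ 2 + 1) ^ n : ℕ) : ℝ)
          ≤ (n : ℝ) ^ 3 * (n * ((3 * (Nat.log 2 n : ℝ) + 5) * (7 / 10))) :=
            mul_le_mul_of_nonneg_left h11 (by positivity)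
        _ = (n : ℝ) ^ 2 * ((3 * (Nat.log 2 n : ℝ) + 5) * (7 / 10)) * ((n ^ 2 : ℕ) : ℝ) := by
            push_cast
            ring
    calc ∑ ρ, D ρ * (F.cost (rep ρ) : ℝ)
        ≤ ∑ ρ, D ρ * ((n : ℝ) ^ 2 * (7 + 2 * (Nat.log 2 n : ℝ)) + 2 * d ρ) :=
          Finset.sum_le_sum fun ρ _ => mul_le_mul_of_nonneg_left (h3 ρ) (hD ρ)
      _ = (n : ℝ) ^ 2 * (7 + 2 * (Nat.log 2 n : ℝ)) + 2 * ∑ ρ, D ρ * d ρ := by
          simp only [mul_add, Finset.sum_add_distrib]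
          rw [← Finset.sum_mul, ← Finset.sum_mul, hD1, Finset.mul_sum]
          congr 1
          · ring
          · apply Finset.sum_congr rfl
            intro ρ _
            ring
      _ ≤ (n : ℝ) ^ 2 * (7 + 2 * (Nat.log 2 n : ℝ)) +
          2 * ((n : ℝ) ^ 2 * ((3 * (Nat.log 2 n : ℝ) + 5) * (7 / 10))) := by linarith
      _ = (n : ℝ) ^ 2 * (14 + 62 / 10 * (Nat.log 2 n : ℝ)) := by ring
      _ ≤ (n : ℝ) ^ 2 * (14 * (Nat.log 2 n + 1)) := by
          apply mul_le_mul_of_nonneg_left _ (by positivity)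
          have : (0 : ℝ) ≤ Nat.log 2 n := by positivity
          linarith
      _ = 14 * (n : ℝ) ^ 2 * (Nat.log 2 n + 1) := by ring

end Pool.Agent.H72.TR
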