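import Pool.Agent.H72.TR.Stm5
import Pool.Agent.H72.TR.Three

/-!
# 3SUM in five rounds
-/

set_option autoImplicit false

namespace Pool.Agent.H72.TR

open Finset Pool.Agent.K4H88.Ter Pool.Agent.K4H88.Rounds

/-- the trees with five rounds which are correct -/
def GT5 (n : ℕ) : Type :=
  {F : RTree n 5 // Tests SumTest (fun b => b = 0) F ∧
    ∀ x : Fin n → ℤ, Function.Injective x → (F.eval x = true ↔ HasSum3 x)}

/-- the numerical estimate -/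
theorem num5 (h6 : POW6) (n : ℕ) (hn : 1 ≤ n) (lam M θ α β : ℝ)
    (hM : M = (Nat.log 2 n : ℝ) + 2) (hlam0 : 0 ≤ lam) (hlam : lam ≤ 21 / 10 * M / n)
    (hθ : θ = 1 / M ^ 2) (hα : α = 4 / (M - 1)) (hβ : β = 4 * (M - 1) * M) :
    7 * (n : ℝ) ^ 2 + (α * ((n : ℝ) ^ 3 * lam) +
      β * (4 * θ * (n : ℝ) ^ 2 + (n : ℝ) ^ 3 * lam ^ 2 / θ)) ≤ 90000 * (n : ℝ) ^ 2 := by
  have hn0 : (0 : ℝ) < n := by exact_mod_cast hn
  have hL : (0 : ℝ) ≤ Nat.log 2 n := by positivity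
  have hM2 : 2 ≤ M := by rw [hM]; linarith
  have hM0 : 0 < M := by linarith
  have hM1 : 1 ≤ M - 1 := by linarith
  have hpow : M ^ 6 ≤ 4152 * n := by
    have h1 : ((Nat.log 2 n + 2 : ℕ) : ℝ) ^ 6 ≤ 4152 * 2 ^ (Nat.log 2 n) := by
      exact_mod_cast h6 (Nat.log 2 n)
    have h2 : (2 : ℝ) ^ (Nat.log 2 n) ≤ n := by
      exact_mod_cast Nat.pow_log_le_self 2 (by omega : n ≠ 0)
    have h3 : M = ((Nat.log 2 n + 2 : ℕ) : ℝ) := by rw [hM]; push_cast; ring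
    rw [h3]
    linarith
  have hlamn : (n : ℝ) * lam ≤ 21 / 10 * M := by
    have := mul_le_mul_of_nonneg_left hlam hn0.le
    calc (n : ℝ) * lam ≤ n * (21 / 10 * M / n) := this
      _ = 21 / 10 * M := by field_simp
  -- first term
  have t1 : α * ((n : ℝ) ^ 3 * lam) ≤ 17 * (n : ℝ) ^ 2 := by
    have h1 : (n : ℝ) ^ 3 * lam ≤ (n : ℝ) ^ 2 * (21 / 10 * M) := by
      calc (n : ℝ) ^ 3 * lam = (n : ℝ) ^ 2 * (n * lam) := by ring
        _ ≤ (n : ℝ) ^ 2 * (21 / 10 * M) := mul_le_mul_of_nonneg_left hlamn (by positivity)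
    have h2 : α * (21 / 10 * M) ≤ 17 := by
      rw [hα, div_mul_eq_mul_div, div_le_iff₀ (by linarith)]
      linarith
    have hα0 : 0 ≤ α := by rw [hα]; positivity
    calc α * ((n : ℝ) ^ 3 * lam) ≤ α * ((n : ℝ) ^ 2 * (21 / 10 * M)) :=
          mul_le_mul_of_nonneg_left h1 hα0
      _ = (α * (21 / 10 * M)) * (n : ℝ) ^ 2 := by ring
      _ ≤ 17 * (n : ℝ) ^ 2 := mul_le_mul_of_nonneg_right h2 (by positivity)
  have hβ0 : 0 ≤ β := by rw [hβ]; positivity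
  have hβ2 : β ≤ 4 * M ^ 2 := by rw [hβ]; nlinarith
  have t2 : β * (4 * θ * (n : ℝ) ^ 2) ≤ 16 * (n : ℝ) ^ 2 := by
    have h1 : β * (4 * θ) ≤ 16 := by
      rw [hθ]
      calc β * (4 * (1 / M ^ 2)) ≤ 4 * M ^ 2 * (4 * (1 / M ^ 2)) :=
            mul_le_mul_of_nonneg_right hβ2 (by positivity)
        _ = 16 := by field_simp; norm_num
    calc β * (4 * θ * (n : ℝ) ^ 2) = (β * (4 * θ)) * (n : ℝ) ^ 2 := by ring
      _ ≤ 16 * (n : ℝ) ^ 2 := mul_le_mul_of_nonneg_right h1 (by positivity)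
  have t3 : β * ((n : ℝ) ^ 3 * lam ^ 2 / θ) ≤ 80000 * (n : ℝ) ^ 2 := by
    have h1 : (n : ℝ) ^ 3 * lam ^ 2 / θ = n * (n * lam) ^ 2 * M ^ 2 := by
      rw [hθ]
      field_simp
    have h2 : (n * lam : ℝ) ^ 2 ≤ (21 / 10 * M) ^ 2 :=
      pow_le_pow_left₀ (by positivity) hlamn 2
    rw [h1]
    calc β * (n * (n * lam) ^ 2 * M ^ 2) ≤ (4 * M ^ 2) * (n * (21 / 10 * M) ^ 2 * M ^ 2) := by
          apply mul_le_mul hβ2 _ (by positivity) (by positivity)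
          apply mul_le_mul_of_nonneg_right _ (by positivity)
          exact mul_le_mul_of_nonneg_left h2 hn0.le
      _ = (1764 / 100) * n * M ^ 6 := by ring
      _ ≤ (1764 / 100) * n * (4152 * n) := mul_le_mul_of_nonneg_left hpow (by positivity)
      _ ≤ 80000 * (n : ℝ) ^ 2 := by nlinarith [sq_nonneg (n : ℝ)]
  have hn2 : 0 ≤ (n : ℝ) ^ 2 := by positivity
  calc 7 * (n : ℝ) ^ 2 + (α * ((n : ℝ) ^ 3 * lam) +
      β * (4 * θ * (n : ℝ) ^ 2 + (n : ℝ) ^ 3 * lam ^ 2 / θ))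
      = 7 * (n : ℝ) ^ 2 + α * ((n : ℝ) ^ 3 * lam) + β * (4 * θ * (n : ℝ) ^ 2) +
        β * ((n : ℝ) ^ 3 * lam ^ 2 / θ) := by ring
    _ ≤ 90000 * (n : ℝ) ^ 2 := by linarith

open Classical in
theorem five (hM : MINIMAX) (hL : LEARN5) (hP : PATS) (hT : TREE5) (ha : ROWS5A) (hb : ROWS5B)
    (hc5 : ROWS5C) (hch : CHAINS) (h6 : POW6) (hI : INV) : FIVE := by
  intro n hn
  let _ : Fintype (PX n) := Subtype.fintype _
  have hne : Nonempty (PX n) := by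
    refine ⟨⟨pat (fun i : Fin n => (i.1 : ℤ)), fun i : Fin n => (i.1 : ℤ), ?_, rfl⟩⟩
    intro i j hij
    have hij' : (i.1 : ℤ) = (j.1 : ℤ) := hij
    exact Fin.ext (by exact_mod_cast hij')
  have hn0 : (0 : ℝ) < n := by exact_mod_cast hn
  have key := hM (PX n) (GT5 n) (fun F ρ => (F.1.cost (rep ρ) : ℝ))
    (90000 * (n : ℝ) ^ 2) (100000 * (n : ℝ) ^ 2) (by
      have : (0 : ℝ) < (n : ℝ) ^ 2 := by positivity
      linarith) ?_
  · obtain ⟨Ω, hΩ, μ, F, hμ, hμ1, hc⟩ := key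
    refine ⟨Ω, hΩ, μ, fun ω => (F ω).1, hμ, hμ1, fun ω => (F ω).2.1, fun ω => (F ω).2.2, ?_⟩
    intro x hx
    have h3 := hc ⟨pat x, x, hx, rfl⟩
    have h4 : ∀ ω, (F ω).1.cost x = (F ω).1.cost (rep ⟨pat x, x, hx, rfl⟩) := by
      intro ω
      have h5 := rep_pat (⟨pat x, x, hx, rfl⟩ : PX n)
      apply hI n 5 (F ω).1 (F ω).2.1
      · intro t
        exact (congrFun (congrArg Prod.fst h5) t).symm
      · intro i j
        exact (congrFun (congrArg Prod.snd h5) (i, j)).symm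
    simp only [h4]
    exact h3
  · intro D hD hD1
    have hN : (univ.image fun ρ : PX n => (Ord (rep ρ), Lab (rep ρ))).card ≤
        (n ^ 3 + n ^ 2 + 1) ^ n := hP n (PX n) rep
    set M : ℝ := (Nat.log 2 n : ℝ) + 2 with hMd
    have hL0 : (0 : ℝ) ≤ Nat.log 2 n := by positivity
    have hM2 : 2 ≤ M := by rw [hMd]; linarith
    set α : ℝ := 4 / (M - 1) with hα
    set β : ℝ := 4 * (M - 1) * M with hβ
    have hM1 : 0 < M - 1 := by linarith
    obtain ⟨Q1, Q2, G, g, hgG, hQ1, hQ2, hg, hd⟩ := hL (PX n) (Fin n × Fin n × Fin n)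
      (Fin n × Fin n) (Fin n × Fin n → Bool) rw3
      (fun ρ => Lab (rep ρ)) (fun ρ => Ord (rep ρ)) ((n ^ 3 + n ^ 2 + 1) ^ n) (n ^ 2)
      (1 / M ^ 2) α β (Nat.one_le_pow _ _ hn) (by positivity) (by positivity) (by positivity)
      (fun ρ ρ' h i => hch n (rep ρ) (rep ρ') h i) (by
        refine le_trans (le_of_eq ?_) hN
        congr 1
        ext a
        simp only [mem_image]) D hD hD1
    obtain ⟨F, hF1, hF2, hF3⟩ := hT n Q1 Q2
      (fun o l1 l2 => Ver (rep (G o l1 l2)))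
      (fun o l1 l2 l3 => Gset (rep (G o l1 l2)) l3)
    refine ⟨⟨F, hF1, hF2⟩, ?_⟩
    set d : PX n → ℝ := fun ρ =>
      ((univ.filter fun t => Lab (rep (g ρ)) t ≠ Lab (rep ρ) t).card : ℝ) with hdd
    set e : PX n → ℝ := fun ρ => (wr rw3 (Lab (rep (g ρ))) (Lab (rep ρ)) : ℝ) with hee
    have h3 : ∀ ρ, (F.cost (rep ρ) : ℝ) ≤ 7 * (n : ℝ) ^ 2 + (α * d ρ + β * e ρ) := by
      intro ρ
      have h4 := hF3 (rep ρ) (rep_inj ρ) _ _ _ rfl rfl rfl
      rw [← hgG ρ] at h4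
      have h5 := ha n (rep (g ρ)) (rep_inj _)
      have h6' := hb n (rep ρ) (rep (g ρ)) (rep_inj _)
      have h7 := hc5 n (rep ρ) (rep (g ρ)) (rep_inj _) (rep_inj _) (hg ρ).symm
      have h8 := hQ2 (Ord (rep ρ)) (mask Q1 (Lab (rep ρ)))
      set U : ℕ := (Und (rep ρ) (Ver (rep (g ρ)) ∪
        Gset (rep (g ρ)) (mask (Ver (rep (g ρ))) (Lab (rep ρ))))).card with hU
      have h9 : (U : ℝ) ≤ (n : ℝ) ^ 2 + α * d ρ := by
        have h10 : ((Nat.log 2 n + 1 : ℕ) : ℝ) * U ≤ ((Nat.log 2 n + 1 : ℕ) : ℝ) * (n : ℝ) ^ 2 +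
            4 * d ρ := by
          have : (((Nat.log 2 n + 1) * U : ℕ) : ℝ) ≤ (((Nat.log 2 n + 1) * n ^ 2 +
              4 * (univ.filter fun t => Lab (rep (g ρ)) t ≠ Lab (rep ρ) t).card : ℕ) : ℝ) := by
            exact_mod_cast h7
          push_cast at this
          simp only [hdd]
          push_cast
          linarith
        have h11 : ((Nat.log 2 n + 1 : ℕ) : ℝ) = M - 1 := by
          rw [hMd]
          push_cast
          ring
        rw [h11] at h10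
        have h12 : (M - 1) * (α * d ρ) = 4 * d ρ := by
          rw [hα]
          field_simp
        have h13 : (M - 1) * (U : ℝ) ≤ (M - 1) * ((n : ℝ) ^ 2 + α * d ρ) := by
          rw [mul_add, h12]
          exact h10
        exact le_of_mul_le_mul_left h13 hM1
      have h14 : (F.cost (rep ρ) : ℝ) ≤ (n : ℝ) ^ 2 + (n : ℝ) ^ 2 + (n : ℝ) ^ 2 +
          3 * (n : ℝ) ^ 2 + β * e ρ + U := by
        have h15 : F.cost (rep ρ) ≤ n ^ 2 + n ^ 2 + n ^ 2 + 3 * n ^ 2 +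
            wr rw3 (Lab (rep (g ρ))) (Lab (rep ρ)) *
              (4 * (Nat.log 2 n + 1) * (Nat.log 2 n + 2)) + U := by
          refine h4.trans ?_
          gcongr
        have h16 : (F.cost (rep ρ) : ℝ) ≤ ((n ^ 2 + n ^ 2 + n ^ 2 + 3 * n ^ 2 +
            wr rw3 (Lab (rep (g ρ))) (Lab (rep ρ)) *
              (4 * (Nat.log 2 n + 1) * (Nat.log 2 n + 2)) + U : ℕ) : ℝ) := by
          exact_mod_cast h15
        refine h16.trans (le_of_eq ?_)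
        push_cast
        simp only [hee, hβ, hMd]
        ring
      linarith
    have h17 : ∑ ρ, D ρ * (α * d ρ + β * e ρ) ≤ α * ((n : ℝ) ^ 3 *
        (Real.log (((n ^ 3 + n ^ 2 + 1) ^ n : ℕ) : ℝ) / ((n ^ 2 : ℕ) : ℝ))) +
        β * (4 * (1 / M ^ 2) * (n : ℝ) ^ 2 + (n : ℝ) ^ 3 *
          (Real.log (((n ^ 3 + n ^ 2 + 1) ^ n : ℕ) : ℝ) / ((n ^ 2 : ℕ) : ℝ)) ^ 2 / (1 / M ^ 2)) := by
      have h18 : (Fintype.card (Fin n × Fin n × Fin n) : ℝ) = (n : ℝ) ^ 3 := by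
        simp only [Fintype.card_prod, Fintype.card_fin]
        push_cast
        ring
      have h19 : (Fintype.card (Fin n × Fin n) : ℝ) = (n : ℝ) ^ 2 := by
        simp only [Fintype.card_prod, Fintype.card_fin]
        push_cast
        ring
      rw [h18, h19] at hd
      refine le_trans (le_of_eq ?_) hd
      rfl
    have hlam : Real.log (((n ^ 3 + n ^ 2 + 1) ^ n : ℕ) : ℝ) / ((n ^ 2 : ℕ) : ℝ) ≤
        21 / 10 * M / n := by
      have h20 := log_count n hn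
      rw [div_le_div_iff₀ (by positivity) hn0]
      have h21 : (3 * (Nat.log 2 n : ℝ) + 5) * (7 / 10) ≤ 21 / 10 * M := by
        rw [hMd]
        linarith
      calc Real.log (((n ^ 3 + n ^ 2 + 1) ^ n : ℕ) : ℝ) * n
          ≤ (n * ((3 * (Nat.log 2 n : ℝ) + 5) * (7 / 10))) * n :=
            mul_le_mul_of_nonneg_right h20 hn0.le
        _ ≤ (n * (21 / 10 * M)) * n := by gcongr
        _ = 21 / 10 * M * ((n ^ 2 : ℕ) : ℝ) := by push_cast; ring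
    have hlam0 : 0 ≤ Real.log (((n ^ 3 + n ^ 2 + 1) ^ n : ℕ) : ℝ) / ((n ^ 2 : ℕ) : ℝ) := by
      apply div_nonneg (Real.log_natCast_nonneg _) (by positivity)
    have h22 := num5 h6 n hn _ M (1 / M ^ 2) α β hMd hlam0 hlam rfl hα hβ
    calc ∑ ρ, D ρ * (F.cost (rep ρ) : ℝ)
        ≤ ∑ ρ, D ρ * (7 * (n : ℝ) ^ 2 + (α * d ρ + β * e ρ)) :=
          Finset.sum_le_sum fun ρ _ => mul_le_mul_of_nonneg_left (h3 ρ) (hD ρ)
      _ = 7 * (n : ℝ) ^ 2 + ∑ ρ, D ρ * (α * d ρ + β * e ρ) := by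
          have h23 : ∀ ρ, D ρ * (7 * (n : ℝ) ^ 2 + (α * d ρ + β * e ρ)) =
              D ρ * (7 * (n : ℝ) ^ 2) + D ρ * (α * d ρ + β * e ρ) := fun ρ => mul_add _ _ _
          rw [Finset.sum_congr rfl fun ρ _ => h23 ρ, Finset.sum_add_distrib, ← Finset.sum_mul,
            hD1, one_mul]
      _ ≤ 7 * (n : ℝ) ^ 2 + (α * ((n : ℝ) ^ 3 *
            (Real.log (((n ^ 3 + n ^ 2 + 1) ^ n : ℕ) : ℝ) / ((n ^ 2 : ℕ) : ℝ))) +
          β * (4 * (1 / M ^ 2) * (n : ℝ) ^ 2 + (n : ℝ) ^ 3 *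
            (Real.log (((n ^ 3 + n ^ 2 + 1) ^ n : ℕ) : ℝ) / ((n ^ 2 : ℕ) : ℝ)) ^ 2 /
              (1 / M ^ 2))) := by linarith
      _ ≤ 90000 * (n : ℝ) ^ 2 := h22

end Pool.Agent.H72.TR
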