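import Pool.Agent.H72.TR.Stm2
import Pool.Agent.H72.TR.Lower

/-!
# 3SUM in few rounds: the boxes which are hit, on average
-/

set_option autoImplicit false

namespace Pool.Agent.H72.TR

open Finset Pool.Agent.K4H88.Ter Pool.Agent.K4H88.Rounds

theorem bl_card {n w A : ℕ} (hw : 1 ≤ w) : (univ.filter fun p : Fin n => bl w p = A).card ≤ w := by
  have h : ((univ.filter fun p : Fin n => bl w p = A).image fun p => p.1 % w) ⊆ range w := by
    intro r hr
    rw [mem_image] at hr
    obtain ⟨p, -, rfl⟩ := hr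
    exact mem_range.2 (Nat.mod_lt _ (by omega))
  have h2 : ((univ.filter fun p : Fin n => bl w p = A).image fun p => p.1 % w).card =
      (univ.filter fun p : Fin n => bl w p = A).card := by
    apply card_image_of_injOn
    intro p hp q hq hpq
    simp only [coe_filter, mem_univ, true_and, Set.mem_ofPred_eq, bl] at hp hq
    have hpq' : p.1 % w = q.1 % w := hpq
    apply Fin.ext
    rw [← Nat.div_add_mod p.1 w, ← Nat.div_add_mod q.1 w, hp, hq, hpq']
  rw [← h2]
  exact (card_le_card h).trans (by simp)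

theorem tri_box {n w m A B : ℕ} (hw : 1 ≤ w) :
    ((Tri n w m).filter fun t : Fin n × Fin n × Fin n => bl w t.1 = A ∧ bl w t.2.1 = B).card ≤
      w ^ 3 := by
  have h : ((Tri n w m).filter fun t : Fin n × Fin n × Fin n => bl w t.1 = A ∧ bl w t.2.1 = B) ⊆
      (univ.filter fun p : Fin n => bl w p = A) ×ˢ ((univ.filter fun p : Fin n => bl w p = B) ×ˢ
        (univ.filter fun p : Fin n => bl w p = A + B + 1)) := by
    intro t ht
    simp only [Tri, mem_filter, mem_univ, true_and] at ht
    simp only [mem_product, mem_filter, mem_univ, true_and]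
    obtain ⟨⟨-, -, -, h1⟩, h2, h3⟩ := ht
    exact ⟨h2, h3, by rw [h1, h2, h3]⟩
  refine (card_le_card h).trans ?_
  rw [card_product, card_product]
  calc _ ≤ w * (w * w) := Nat.mul_le_mul (bl_card hw) (Nat.mul_le_mul (bl_card hw) (bl_card hw))
    _ = w ^ 3 := by ring

open Classical in
theorem hits_one {n w m : ℕ} (hw : 1 ≤ w) (c : Fin n → ℝ) (π : Equiv.Perm (Fin n)) :
    ((Tri n w m).filter fun t : Fin n × Fin n × Fin n => Hl w c π (bl w t.1, bl w t.2.1)).card ≤
      w ^ 3 * if ((range m ×ˢ Ico m (2 * m)).filter fun q => Hl w c π q).Nonempty then 1 else 0 := by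
  split_ifs with h
  · obtain ⟨q, hq⟩ := h
    have h1 := card_le_one.1 (hl_one (w := w) (m := m) c π)
    rw [mul_one]
    refine le_trans (card_le_card ?_) (tri_box (n := n) (m := m) (A := q.1) (B := q.2) hw)
    intro t ht
    rw [mem_filter] at ht ⊢
    refine ⟨ht.1, ?_⟩
    have ht1 := ht.1
    simp only [Tri, mem_filter, mem_univ, true_and] at ht1
    have h2 : ((bl w t.1, bl w t.2.1) : ℕ × ℕ) ∈
        (range m ×ˢ Ico m (2 * m)).filter fun q => Hl w c π q := by
      rw [mem_filter, mem_product, mem_range, mem_Ico]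
      exact ⟨⟨ht1.1, ht1.2.1, ht1.2.2.1⟩, ht.2⟩
    have h3 := h1 _ h2 _ hq
    rw [← h3]
    exact ⟨rfl, rfl⟩
  · rw [mul_zero, Nat.le_zero, card_eq_zero, filter_eq_empty_iff]
    intro t ht hl
    apply h
    simp only [Tri, mem_filter, mem_univ, true_and] at ht
    exact ⟨(bl w t.1, bl w t.2.1), by
      rw [mem_filter, mem_product, mem_range, mem_Ico]
      exact ⟨⟨ht.1, ht.2.1, ht.2.2.1⟩, hl⟩⟩

open Classical in
theorem hits_le' (hA : AVER) : HITS := by
  intro n w m hw hn mm L
  have h1 : ∀ π : Equiv.Perm (Fin n), hits n w m L π ≤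
        ∑ l : Fin mm, w ^ 3 * if ((range m ×ˢ Ico m (2 * m)).filter
          fun q => Hl w (L l) π q).Nonempty then 1 else 0 := by
    intro π
    have h2 : ((Tri n w m).filter fun t : Fin n × Fin n × Fin n =>
        Hit w L π (bl w t.1) (bl w t.2.1)) ⊆ univ.biUnion fun l : Fin mm =>
          ((Tri n w m).filter fun t : Fin n × Fin n × Fin n =>
            Hl w (L l) π (bl w t.1, bl w t.2.1)) := by
      intro q hq
      rw [mem_filter] at hq
      obtain ⟨hq1, l, i, j, k, hf, hin⟩ := hq
      rw [mem_biUnion]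
      exact ⟨l, mem_univ _, mem_filter.2 ⟨hq1, i, j, k, hf, hin⟩⟩
    unfold hits
    exact (card_le_card h2).trans (card_biUnion_le.trans (sum_le_sum fun l _ =>
      hits_one hw (L l) π))
  have h2 : (∑ π : Equiv.Perm (Fin n), hits n w m L π) * (n - 2) ≤
        mm * (w ^ 3 * (n.factorial * w)) := by
    refine le_trans (Nat.mul_le_mul_right _ (sum_le_sum fun π _ => h1 π)) ?_
    rw [sum_comm, sum_mul]
    refine le_trans (sum_le_card_nsmul _ _ (w ^ 3 * (n.factorial * w)) fun l _ => ?_) (by
      rw [card_univ, Fintype.card_fin, smul_eq_mul])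
    rw [← mul_sum, ← card_filter, mul_assoc]
    exact Nat.mul_le_mul_left _ (hl_count hA hw (L l))
  have h3 : 0 < n - 2 := by
    have : 0 < w ^ 4 := by positivity
    omega
  refine le_of_mul_le_mul_right (?_ : _ * (n - 2) ≤ _ * (n - 2)) h3
  calc _ ≤ mm * (w ^ 3 * (n.factorial * w)) := h2
    _ = mm * n.factorial * w ^ 4 := by ring
    _ ≤ mm * n.factorial * (n - 2) := Nat.mul_le_mul_left _ (by omega)

end Pool.Agent.H72.TR
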