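import Pool.Agent.H72.TR.Stm4

/-!
# 3SUM in few rounds: the trees only see the signs
-/

set_option autoImplicit false

namespace Pool.Agent.H72.TR

open Finset Pool.Agent.K4H88.Ter Pool.Agent.K4H88.Rounds

theorem sum_ind {n : ℕ} (i : Fin n) (x : Fin n → ℤ) :
    ∑ u, (if i = u then (1 : ℝ) else 0) * (x u : ℝ) = x i := by
  rw [Finset.sum_eq_single i]
  · simp
  · intro u _ hu
    simp [Ne.symm hu]
  · simp

theorem sign_cast (a : ℤ) : SignType.sign (a : ℝ) = SignType.sign a := by
  rcases lt_trichotomy a 0 with h | h | h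
  · rw [sign_neg h, sign_neg (by exact_mod_cast h)]
  · simp [h]
  · rw [sign_pos h, sign_pos (by exact_mod_cast h)]

theorem out_sum {n : ℕ} {c : Fin n → ℝ} (hc : SumTest c) (x v : Fin n → ℤ)
    (h1 : ∀ t, SignType.sign (sm x t) = SignType.sign (sm v t))
    (h2 : ∀ i j, SignType.sign (x i - x j) = SignType.sign (v i - v j)) :
    SignType.sign (∑ u, c u * (x u : ℝ)) = SignType.sign (∑ u, c u * (v u : ℝ)) := by
  rcases hc with ⟨i, j, k, hc⟩ | ⟨i, j, hc⟩
  · have e : ∀ x : Fin n → ℤ, ∑ u, c u * (x u : ℝ) = ((sm x (i, j, k) : ℤ) : ℝ) := by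
      intro x
      simp only [hc, sub_mul, add_mul, Finset.sum_sub_distrib, Finset.sum_add_distrib, sum_ind, sm]
      push_cast
      ring
    rw [e, e, sign_cast, sign_cast, h1]
  · have e : ∀ x : Fin n → ℤ, ∑ u, c u * (x u : ℝ) = ((x i - x j : ℤ) : ℝ) := by
      intro x
      simp only [hc, sub_mul, Finset.sum_sub_distrib, sum_ind]
      push_cast
      ring
    rw [e, e, sign_cast, sign_cast, h2]

theorem inv : INV := by
  intro n r F hF x v h1 h2
  induction F with
  | leaf c => rfl
  | round m L b child ih =>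
    obtain ⟨h3, h4⟩ := hF
    have e : K4H88.Rounds.signs L b x = K4H88.Rounds.signs L b v := by
      funext j
      unfold K4H88.Rounds.signs
      rw [(h3 j).2, add_zero, add_zero]
      exact out_sum (h3 j).1 x v h1 h2
    simp only [RTree.cost, e]
    rw [ih _ (h4 _)]

end Pool.Agent.H72.TR
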