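import Pool.Agent.H72.TR.Stm2

/-!
# 3SUM in few rounds: the lower bound for two rounds, with errors
-/

set_option autoImplicit false

namespace Pool.Agent.H72.TR

open Finset Pool.Agent.K4H88.Ter Pool.Agent.K4H88.Rounds

theorem hasSum3_comp {n : ℕ} (x : Fin n → ℤ) (π : Equiv.Perm (Fin n)) :
    HasSum3 (x ∘ π) ↔ HasSum3 x := by
  constructor
  · rintro ⟨i, j, k, h1, h2, h3, h4⟩
    exact ⟨π i, π j, π k, fun h => h1 (π.injective h), fun h => h2 (π.injective h),
      fun h => h3 (π.injective h), h4⟩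
  · rintro ⟨i, j, k, h1, h2, h3, h4⟩
    refine ⟨π.symm i, π.symm j, π.symm k, fun h => h1 (π.symm.injective h),
      fun h => h2 (π.symm.injective h), fun h => h3 (π.symm.injective h), ?_⟩
    simp only [Function.comp_apply, Equiv.apply_symm_apply]
    exact h4

open Classical in
theorem one_le {n : ℕ} (F : RTree n 2) (u v : Fin n → ℤ) (hu : ¬ HasSum3 u) (hv : HasSum3 v)
    (H : Prop) :
    (1 : ℝ) ≤ (if ¬ H ∧ F.eval u = false ∧ F.eval v = true then 1 else 0) + (if H then 1 else 0) +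
      (if (F.eval u = true ↔ HasSum3 u) then 0 else 1) +
      (if (F.eval v = true ↔ HasSum3 v) then 0 else 1) := by
  by_cases h1 : H
  · rw [if_neg (fun h => h.1 h1), if_pos h1]
    split_ifs <;> norm_num
  · rw [if_neg h1]
    by_cases h2 : F.eval u = true
    · rw [if_neg (fun h : (F.eval u = true ↔ HasSum3 u) => hu (h.1 h2))]
      split_ifs <;> norm_num
    · by_cases h3 : F.eval v = true
      · have h4 : F.eval u = false := by simpa using h2
        rw [if_pos ⟨h1, h4, h3⟩]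
        split_ifs <;> norm_num
      · rw [if_neg (fun h : (F.eval v = true ↔ HasSum3 v) => h3 (h.2 hv))]
        split_ifs <;> norm_num

open Classical in
theorem lower2 (hS : SECOND2) (hT : TRI) (hH : HITS) : LOWER2 := by
  intro n w m S hn hw hwm hwn hS1 Ω _ μ hμ hμ1 F T η hF herr hcost
  obtain ⟨x, y, z, ⟨hx1, hx2, hx3⟩, hy, hz, hmain⟩ := hS n w m S hn hw hwm hS1
  choose mm L _ hL using fun ω => hmain (F ω) (hF ω)
  have hK : ((Tri n w m).card : ℝ) = (w : ℝ) ^ 3 * m ^ 2 := by
    rw [hT n w m hw hwm]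
    push_cast
    ring
  -- the pointwise inequality
  have hpt : ∀ ω (π : Equiv.Perm (Fin n)), (mm ω : ℝ) + (Tri n w m).card ≤
      (F ω).cost (x ∘ π) + hits n w m (L ω) π +
        ∑ t ∈ Tri n w m, (if ((F ω).eval (y t ∘ π) = true ↔ HasSum3 (y t ∘ π)) then (0 : ℝ) else 1) +
        ∑ t ∈ Tri n w m, (if ((F ω).eval (z t ∘ π) = true ↔ HasSum3 (z t ∘ π)) then (0 : ℝ) else 1) := by
    intro ω π
    have h1 : ((Tri n w m).card : ℝ) ≤
        (((Tri n w m).filter fun t => ¬ Hit w (L ω) π (bl w t.1) (bl w t.2.1) ∧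
            (F ω).eval (y t ∘ π) = false ∧ (F ω).eval (z t ∘ π) = true).card : ℝ) +
        hits n w m (L ω) π +
        ∑ t ∈ Tri n w m, (if ((F ω).eval (y t ∘ π) = true ↔ HasSum3 (y t ∘ π)) then (0 : ℝ) else 1) +
        ∑ t ∈ Tri n w m, (if ((F ω).eval (z t ∘ π) = true ↔ HasSum3 (z t ∘ π)) then (0 : ℝ) else 1) := by
      unfold hits
      rw [card_filter, card_filter]
      push_cast
      rw [← sum_add_distrib, ← sum_add_distrib, ← sum_add_distrib, card_eq_sum_ones]
      push_cast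
      refine sum_le_sum fun t ht => ?_
      exact one_le (F ω) _ _ (fun h => (hy t ht).2.2 ((hasSum3_comp _ _).1 h))
        ((hasSum3_comp _ _).2 (hz t ht).2.2) _
    have h2 : (mm ω : ℝ) + (((Tri n w m).filter fun t => ¬ Hit w (L ω) π (bl w t.1) (bl w t.2.1) ∧
            (F ω).eval (y t ∘ π) = false ∧ (F ω).eval (z t ∘ π) = true).card : ℝ) ≤
        (F ω).cost (x ∘ π) := by
      exact_mod_cast hL ω π
    linarith
  -- average over `ω`
  have hpi : ∀ π : Equiv.Perm (Fin n),
      ∑ ω, μ ω * ((mm ω : ℝ) - hits n w m (L ω) π) + (Tri n w m).card ≤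
        T + 2 * η * (Tri n w m).card := by
    intro π
    have h1 : ∀ v : Fin n × Fin n × Fin n → Fin n → ℤ,
        (∀ t ∈ Tri n w m, Function.Injective (v t) ∧ Rng (1000 * S * n ^ 2) (v t)) →
        ∑ ω, μ ω * ∑ t ∈ Tri n w m,
          (if ((F ω).eval (v t ∘ π) = true ↔ HasSum3 (v t ∘ π)) then (0 : ℝ) else 1) ≤
          η * (Tri n w m).card := by
      intro v hv
      simp only [mul_sum]
      rw [sum_comm]
      refine le_trans (sum_le_card_nsmul _ _ η fun t ht => ?_) (by
        rw [nsmul_eq_mul, mul_comm])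
      exact herr (v t ∘ π) ((hv t ht).1.comp π.injective) (fun p => (hv t ht).2 (π p))
    have h2 := h1 y (fun t ht => ⟨(hy t ht).1, (hy t ht).2.1⟩)
    have h3 := h1 z (fun t ht => ⟨(hz t ht).1, (hz t ht).2.1⟩)
    have h4 := hcost (x ∘ π) (hx1.comp π.injective) (fun p => hx2 (π p))
      (fun h => hx3 ((hasSum3_comp _ _).1 h))
    have h5 : ∑ ω, μ ω * ((mm ω : ℝ) - hits n w m (L ω) π) + (Tri n w m).card =
        ∑ ω, μ ω * (((mm ω : ℝ) - hits n w m (L ω) π) + (Tri n w m).card) := by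
      simp only [mul_add, sum_add_distrib]
      rw [← sum_mul, hμ1, one_mul]
    have h6 : ∑ ω, μ ω * (((mm ω : ℝ) - hits n w m (L ω) π) + (Tri n w m).card) ≤
        ∑ ω, (μ ω * ((F ω).cost (x ∘ π) : ℝ) +
          μ ω * ∑ t ∈ Tri n w m,
            (if ((F ω).eval (y t ∘ π) = true ↔ HasSum3 (y t ∘ π)) then (0 : ℝ) else 1) +
          μ ω * ∑ t ∈ Tri n w m,
            (if ((F ω).eval (z t ∘ π) = true ↔ HasSum3 (z t ∘ π)) then (0 : ℝ) else 1)) := by
      refine sum_le_sum fun ω _ => ?_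
      rw [← mul_add, ← mul_add]
      refine mul_le_mul_of_nonneg_left ?_ (hμ ω)
      have := hpt ω π
      linarith
    rw [sum_add_distrib, sum_add_distrib] at h6
    rw [h5]
    linarith
  -- average over `π`
  have hsum : ∑ π : Equiv.Perm (Fin n),
      (∑ ω, μ ω * ((mm ω : ℝ) - hits n w m (L ω) π) + ((Tri n w m).card : ℝ)) ≤
      n.factorial * (T + 2 * η * (Tri n w m).card) := by
    refine le_trans (sum_le_card_nsmul _ _ _ fun π _ => hpi π) ?_
    rw [card_univ, Fintype.card_perm, Fintype.card_fin, nsmul_eq_mul]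
  rw [sum_add_distrib, sum_comm, sum_const, card_univ, Fintype.card_perm, Fintype.card_fin,
    nsmul_eq_mul] at hsum
  have hpos : 0 ≤ ∑ ω, ∑ π : Equiv.Perm (Fin n), μ ω * ((mm ω : ℝ) - hits n w m (L ω) π) := by
    refine sum_nonneg fun ω _ => ?_
    rw [← mul_sum]
    refine mul_nonneg (hμ ω) ?_
    rw [sum_sub_distrib, sum_const, card_univ, Fintype.card_perm, Fintype.card_fin, nsmul_eq_mul]
    have h1 := hH n w m hw hwn (mm ω) (L ω)
    have h2 : (∑ π : Equiv.Perm (Fin n), (hits n w m (L ω) π : ℝ)) ≤ mm ω * n.factorial := by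
      exact_mod_cast h1
    linarith
  have hfac : (0 : ℝ) < n.factorial := by exact_mod_cast Nat.factorial_pos n
  have hfin : (n.factorial : ℝ) * (Tri n w m).card ≤
      n.factorial * (T + 2 * η * (Tri n w m).card) := by linarith
  have := le_of_mul_le_mul_left hfin hfac
  rw [hK] at this
  linarith

end Pool.Agent.H72.TR
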