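import Pool.Agent.H72.TR.Stm3

/-!
# 3SUM in few rounds: the lower bound for two rounds, sorted lists, with errors
-/

set_option autoImplicit false

namespace Pool.Agent.H72.TR

open Finset Pool.Agent.K4H88.Ter Pool.Agent.K4H88.Rounds

open Classical in
theorem one_le3 {n : ℕ} (F : RTree n 2) (u v : Fin n → ℤ) (hu : ¬ HasSum3 u) (hv : HasSum3 v)
    (H : Prop) :
    (1 : ℝ) ≤ (if ¬ H ∧ F.eval u = false ∧ F.eval v = true then 1 else 0) + (if H then 1 else 0) +
      (if (F.eval u = true ↔ HasSum3 u) then 0 else 1) +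
      (if (F.eval v = true ↔ HasSum3 v) then 0 else 1) := by
  by_cases h1 : H
  · rw [if_neg (fun h => h.1 h1), if_pos h1]
    split_ifs <;> norm_num
  · rw [if_neg h1]
    by_cases h2 : F.eval u = true
    · rw [if_neg (fun h : (F.eval u = true ↔ HasSum3 u) => hu (h.1 h2))]
      split_ifs <;> norm_num
    · by_cases h3 : F.eval v = true
      · have h4 : F.eval u = false := by simpa using h2
        rw [if_pos ⟨h1, h4, h3⟩]
        split_ifs <;> norm_num
      · rw [if_neg (fun h : (F.eval v = true ↔ HasSum3 v) => h3 (h.2 hv))]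
        split_ifs <;> norm_num

open Classical in
theorem lower3 (hS : SECOND3) (hB : BLOCKS) (hH : HITS3) : LOWER3 := by
  intro n g w S hw hg hn hwg hS1 Ω _ μ hμ hμ1 F T η hF herr hcost
  have hn1 : 1 ≤ n := by
    have : 1 ≤ 5 * g * w := Nat.mul_pos (Nat.mul_pos (by norm_num) hg) hw
    omega
  have hgw : 0 < g * w := Nat.mul_pos hg hw
  -- for one shift
  have hs : ∀ s ∈ range (g * w),
      ∑ ω, μ ω * ((fm (F ω) : ℝ) - hitsU n g w s (fL (F ω))) + (g : ℝ) ^ 2 * w ^ 3 ≤
        T + 2 * η * ((g : ℝ) ^ 2 * w ^ 3) := by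
    intro s hs
    rw [mem_range] at hs
    obtain ⟨hmono, hU, hTr, hcard⟩ := hB n g w s hw hg hn hs
    have hK : ((Tr n g w s).card : ℝ) = (g : ℝ) ^ 2 * w ^ 3 := by
      rw [hcard]
      push_cast
      ring
    rw [← hK]
    obtain ⟨x, y, z, ⟨hx1, hx2, hx3⟩, hy, hz, hmain⟩ := hS n S hn1 hS1 (Us n g w s) hmono hU
      (Tr n g w s) (fun t ht => ⟨hTr t ht, (mem_filter.1 ht).2.2.2.2⟩)
    -- the pointwise inequality
    have hpt : ∀ ω, (fm (F ω) : ℝ) + (Tr n g w s).card ≤
        (F ω).cost x + hitsU n g w s (fL (F ω)) +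
          ∑ t ∈ Tr n g w s, (if ((F ω).eval (y t) = true ↔ HasSum3 (y t)) then (0 : ℝ) else 1) +
          ∑ t ∈ Tr n g w s, (if ((F ω).eval (z t) = true ↔ HasSum3 (z t)) then (0 : ℝ) else 1) := by
      intro ω
      have h1 : ((Tr n g w s).card : ℝ) ≤
          (((Tr n g w s).filter fun t => ¬ HitU (Us n g w s) (fL (F ω)) (Us n g w s t.1)
              (Us n g w s t.2.1) ∧
              (F ω).eval (y t) = false ∧ (F ω).eval (z t) = true).card : ℝ) +
          hitsU n g w s (fL (F ω)) +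
          ∑ t ∈ Tr n g w s, (if ((F ω).eval (y t) = true ↔ HasSum3 (y t)) then (0 : ℝ) else 1) +
          ∑ t ∈ Tr n g w s, (if ((F ω).eval (z t) = true ↔ HasSum3 (z t)) then (0 : ℝ) else 1) := by
        unfold hitsU
        rw [card_filter, card_filter]
        push_cast
        rw [← sum_add_distrib, ← sum_add_distrib, ← sum_add_distrib, card_eq_sum_ones]
        push_cast
        refine sum_le_sum fun t ht => ?_
        exact one_le3 (F ω) _ _ (hy t ht).2.2 (hz t ht).2.2 _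
      have h2 : (fm (F ω) : ℝ) + (((Tr n g w s).filter fun t =>
              ¬ HitU (Us n g w s) (fL (F ω)) (Us n g w s t.1) (Us n g w s t.2.1) ∧
              (F ω).eval (y t) = false ∧ (F ω).eval (z t) = true).card : ℝ) ≤
          (F ω).cost x := by
        exact_mod_cast hmain (F ω) (hF ω)
      linarith
    have h1 : ∀ v : Fin n × Fin n × Fin n → Fin n → ℤ,
        (∀ t ∈ Tr n g w s, StrictMono (v t) ∧ Rng (2000 * S * n ^ 2) (v t)) →
        ∑ ω, μ ω * ∑ t ∈ Tr n g w s,
          (if ((F ω).eval (v t) = true ↔ HasSum3 (v t)) then (0 : ℝ) else 1) ≤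
          η * (Tr n g w s).card := by
      intro v hv
      simp only [mul_sum]
      rw [sum_comm]
      refine le_trans (sum_le_card_nsmul _ _ η fun t ht => ?_) (by
        rw [nsmul_eq_mul, mul_comm])
      exact herr (v t) (hv t ht).1 (hv t ht).2
    have h2 := h1 y (fun t ht => ⟨(hy t ht).1, (hy t ht).2.1⟩)
    have h3 := h1 z (fun t ht => ⟨(hz t ht).1, (hz t ht).2.1⟩)
    have h4 := hcost x hx1 hx2 hx3
    have h5 : ∑ ω, μ ω * ((fm (F ω) : ℝ) - hitsU n g w s (fL (F ω))) + (Tr n g w s).card =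
        ∑ ω, μ ω * (((fm (F ω) : ℝ) - hitsU n g w s (fL (F ω))) + (Tr n g w s).card) := by
      simp only [mul_add, sum_add_distrib]
      rw [← sum_mul, hμ1, one_mul]
    have h6 : ∑ ω, μ ω * (((fm (F ω) : ℝ) - hitsU n g w s (fL (F ω))) + (Tr n g w s).card) ≤
        ∑ ω, (μ ω * ((F ω).cost x : ℝ) +
          μ ω * ∑ t ∈ Tr n g w s,
            (if ((F ω).eval (y t) = true ↔ HasSum3 (y t)) then (0 : ℝ) else 1) +
          μ ω * ∑ t ∈ Tr n g w s,
            (if ((F ω).eval (z t) = true ↔ HasSum3 (z t)) then (0 : ℝ) else 1)) := by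
      refine sum_le_sum fun ω _ => ?_
      rw [← mul_add, ← mul_add]
      refine mul_le_mul_of_nonneg_left ?_ (hμ ω)
      have := hpt ω
      linarith
    rw [sum_add_distrib, sum_add_distrib] at h6
    rw [h5]
    linarith
  -- average over `s`
  have hsum : ∑ s ∈ range (g * w),
      (∑ ω, μ ω * ((fm (F ω) : ℝ) - hitsU n g w s (fL (F ω))) + (g : ℝ) ^ 2 * w ^ 3) ≤
      (g * w : ℕ) * (T + 2 * η * ((g : ℝ) ^ 2 * w ^ 3)) := by
    refine le_trans (sum_le_card_nsmul _ _ _ hs) ?_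
    rw [card_range, nsmul_eq_mul]
  rw [sum_add_distrib, sum_comm, sum_const, card_range, nsmul_eq_mul] at hsum
  have hpos : 0 ≤ ∑ ω, ∑ s ∈ range (g * w), μ ω * ((fm (F ω) : ℝ) - hitsU n g w s (fL (F ω))) := by
    refine sum_nonneg fun ω _ => ?_
    rw [← mul_sum]
    refine mul_nonneg (hμ ω) ?_
    rw [sum_sub_distrib, sum_const, card_range, nsmul_eq_mul]
    have h1 := hH n g w hw hg hn hwg (fm (F ω)) (fL (F ω))
    have h2 : (∑ s ∈ range (g * w), (hitsU n g w s (fL (F ω)) : ℝ)) ≤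
        fm (F ω) * (g * w : ℕ) := by
      exact_mod_cast h1
    linarith
  have hfac : (0 : ℝ) < (g * w : ℕ) := by exact_mod_cast hgw
  have hfin : ((g * w : ℕ) : ℝ) * ((g : ℝ) ^ 2 * w ^ 3) ≤
      (g * w : ℕ) * (T + 2 * η * ((g : ℝ) ^ 2 * w ^ 3)) := by linarith
  have := le_of_mul_le_mul_left hfin hfac
  linarith

end Pool.Agent.H72.TR
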