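import Pool.Agent.H72.TR.Stm

/-!
# 3SUM in few rounds: the distribution of the rounds and the numbers
-/

set_option autoImplicit false

namespace Pool.Agent.H72.TR

open Finset

/-- the probability of a round before `i` (exponents) -/
noncomputable def PP (x e : ℝ) (R i : ℕ) : ℝ :=
  if i = 0 then 0 else x ^ (-(e * ((3 : ℝ) ^ (R - i + 1) - 3) / 2))

lemma PP_zero (x e : ℝ) (R : ℕ) : PP x e R 0 = 0 := by simp [PP]

lemma PP_last (x e : ℝ) (R : ℕ) (hR : R ≠ 0) : PP x e R R = 1 := by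
  simp [PP, hR]

lemma PP_pos {x : ℝ} (hx : 1 ≤ x) (e : ℝ) (R : ℕ) {i : ℕ} (hi : i ≠ 0) : 0 < PP x e R i := by
  rw [PP, if_neg hi]
  exact Real.rpow_pos_of_pos (by linarith) _

lemma PP_le_one {x e : ℝ} (hx : 1 ≤ x) (he : 0 ≤ e) (R i : ℕ) : PP x e R i ≤ 1 := by
  rw [PP]
  split_ifs with h
  · exact zero_le_one
  · apply Real.rpow_le_one_of_one_le_of_nonpos hx
    have h3 : (3 : ℝ) ^ 1 ≤ (3 : ℝ) ^ (R - i + 1) := pow_le_pow_right₀ (by norm_num) (by omega)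
    have : 0 ≤ e * ((3 : ℝ) ^ (R - i + 1) - 3) / 2 := by
      apply div_nonneg _ (by norm_num)
      apply mul_nonneg he
      linarith
    linarith

lemma PP_mono {x e : ℝ} (hx : 1 ≤ x) (he : 0 ≤ e) (R i : ℕ) :
    PP x e R i ≤ PP x e R (i + 1) := by
  by_cases hi : i = 0
  · subst hi
    rw [PP_zero]
    exact (PP_pos hx e R (by omega)).le
  · rw [PP, if_neg hi, PP, if_neg (by omega)]
    apply Real.rpow_le_rpow_of_exponent_le hx
    have h3 : (3 : ℝ) ^ (R - (i + 1) + 1) ≤ (3 : ℝ) ^ (R - i + 1) :=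
      pow_le_pow_right₀ (by norm_num) (by omega)
    have := mul_le_mul_of_nonneg_left h3 he
    nlinarith

/-- the recursion `P_{i+1} = P_i ^ (1/3) x ^ e` -/
lemma PP_succ {x e : ℝ} (hx : 1 ≤ x) {R i : ℕ} (hi : i ≠ 0) (hiR : i < R) :
    PP x e R (i + 1) = PP x e R i ^ (1 / 3 : ℝ) * x ^ e := by
  have hx0 : 0 < x := by linarith
  have e1 : PP x e R i = x ^ (-(e * ((3 : ℝ) ^ (R - i + 1) - 3) / 2)) := by rw [PP, if_neg hi]
  have e2 : PP x e R (i + 1) = x ^ (-(e * ((3 : ℝ) ^ (R - (i + 1) + 1) - 3) / 2)) := by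
    rw [PP, if_neg (by omega)]
  rw [e1, e2, ← Real.rpow_mul hx0.le, ← Real.rpow_add hx0]
  congr 1
  have h1 : R - i + 1 = (R - (i + 1) + 1) + 1 := by omega
  rw [h1, pow_succ]
  ring

lemma sum_lt {r : ℕ} (f : ℕ → ℝ) (i : ℕ) (hi : i ≤ r + 1) :
    ∑ l ∈ univ.filter (fun l : Fin (r + 1) => l.1 < i), (f (l.1 + 1) - f l.1) = f i - f 0 := by
  rw [Finset.sum_filter]
  rw [Fin.sum_univ_eq_sum_range (fun l => if l < i then f (l + 1) - f l else 0) (r + 1)]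
  rw [← Finset.sum_filter]
  have : (range (r + 1)).filter (fun l => l < i) = range i := by
    ext l
    simp only [mem_filter, mem_range]
    omega
  rw [this, Finset.sum_range_sub]

theorem choice : CHOICE := by
  intro n r hn
  set R := r + 1 with hR
  set e : ℝ := 2 / ((3 : ℝ) ^ R - 1) with he
  have h3 : (3 : ℝ) ^ 1 ≤ (3 : ℝ) ^ R := pow_le_pow_right₀ (by norm_num) (by omega)
  have hd : 0 < (3 : ℝ) ^ R - 1 := by linarith
  have he0 : 0 < e := by rw [he]; positivity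
  have hx : (1 : ℝ) ≤ n := by exact_mod_cast hn
  have hx0 : (0 : ℝ) < n := by linarith
  set P : ℕ → ℝ := PP (n : ℝ) e R with hP
  have hP1 : P 1 = (n : ℝ) ^ (e - 1) := by
    rw [hP, PP, if_neg (by omega)]
    congr 1
    have h1 : R - 1 + 1 = R := by omega
    rw [h1, he]
    field_simp
    ring
  have hsum : ∀ i : Fin (r + 1), ∑ l ∈ univ.filter (fun l => l < i), (P (l.1 + 1) - P l.1)
      = P i.1 := by
    intro i
    have h := sum_lt (r := r) P i.1 (by omega)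
    rw [show P 0 = 0 from PP_zero _ _ _, sub_zero] at h
    rw [← h]
    apply Finset.sum_congr _ (fun _ _ => rfl)
    ext l
    simp only [mem_filter, mem_univ, true_and]
    exact Iff.rfl
  refine ⟨fun i => P (i.1 + 1) - P i.1, ?_, ?_, ?_, ?_⟩
  · intro i
    exact sub_nonneg.2 (PP_mono hx he0.le R i.1)
  · rw [Fin.sum_univ_eq_sum_range (fun l => P (l + 1) - P l) (r + 1), Finset.sum_range_sub,
      show P 0 = 0 from PP_zero _ _ _, show P (r + 1) = 1 from PP_last _ _ _ (by omega), sub_zero]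
  · have h0 : P ((0 : Fin (r + 1)).1 + 1) - P (0 : Fin (r + 1)).1 = (n : ℝ) ^ (e - 1) := by
      have : P ((0 : Fin (r + 1)).1 + 1) = P 1 := by simp
      rw [this, hP1]
      have : P (0 : Fin (r + 1)).1 = 0 := PP_zero _ _ _
      rw [this, sub_zero]
    simp only [h0]
    rw [← Real.rpow_natCast (n : ℝ) 3, ← Real.rpow_add hx0]
    apply le_of_eq
    congr 1
    push_cast
    ring
  · intro i hi
    have hi0 : i.1 ≠ 0 := fun h => hi (Fin.ext h)
    have hiR : i.1 < R := i.2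
    have hpos : 0 < P i.1 := PP_pos hx e R hi0
    have hle : P i.1 ≤ 1 := PP_le_one hx he0.le R i.1
    set c : ℝ := P i.1 ^ (1 / 3 : ℝ) with hc
    have hc0 : 0 < c := Real.rpow_pos_of_pos hpos _
    have hc1 : c ≤ 1 := Real.rpow_le_one hpos.le hle (by norm_num)
    have hc3 : c ^ 3 = P i.1 := by
      rw [hc, ← Real.rpow_natCast, ← Real.rpow_mul hpos.le]
      norm_num
    refine ⟨⌈c⁻¹⌉₊, ?_, ?_, ?_⟩
    · rw [hsum i]; exact hpos
    · rw [hsum i, ← hc3, ← mul_pow]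
      apply one_le_pow₀
      have h1 : c⁻¹ ≤ (⌈c⁻¹⌉₊ : ℝ) := Nat.le_ceil _
      calc (1 : ℝ) = c * c⁻¹ := (mul_inv_cancel₀ hc0.ne').symm
        _ ≤ c * (⌈c⁻¹⌉₊ : ℝ) := mul_le_mul_of_nonneg_left h1 hc0.le
    · have hK : (⌈c⁻¹⌉₊ : ℝ) ≤ 2 * c⁻¹ := by
        have h1 : (⌈c⁻¹⌉₊ : ℝ) < c⁻¹ + 1 := Nat.ceil_lt_add_one (inv_pos.2 hc0).le
        have h2 : 1 ≤ c⁻¹ := (one_le_inv₀ hc0).2 hc1
        linarith
      have hq : P (i.1 + 1) - P i.1 ≤ c * (n : ℝ) ^ e := by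
        have h1 : P (i.1 + 1) = c * (n : ℝ) ^ e := PP_succ hx hi0 hiR
        rw [h1]
        linarith
      have hn2 : (0 : ℝ) ≤ (n : ℝ) ^ 2 := by positivity
      have hne : (0 : ℝ) ≤ (n : ℝ) ^ e := (Real.rpow_pos_of_pos hx0 _).le
      calc (P (i.1 + 1) - P i.1) * ((n : ℝ) ^ 2 * (⌈c⁻¹⌉₊ : ℝ))
          ≤ (c * (n : ℝ) ^ e) * ((n : ℝ) ^ 2 * (2 * c⁻¹)) := by
            apply mul_le_mul hq (mul_le_mul_of_nonneg_left hK hn2) (by positivity) (by positivity)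
        _ = 2 * ((n : ℝ) ^ 2 * (n : ℝ) ^ e) := by
            field_simp
        _ = 2 * (n : ℝ) ^ (2 + e) := by
            rw [Real.rpow_add hx0, ← Real.rpow_natCast (n : ℝ) 2]
            norm_num

theorem num : NUM := by
  intro n hn
  set w := Nat.sqrt (Nat.sqrt (n - 2)) with hw
  have hs1 : Nat.sqrt (n - 2) * Nat.sqrt (n - 2) ≤ n - 2 := Nat.sqrt_le _
  have hs2 : n - 2 < (Nat.sqrt (n - 2) + 1) * (Nat.sqrt (n - 2) + 1) := Nat.lt_succ_sqrt _
  have hw1 : w * w ≤ Nat.sqrt (n - 2) := Nat.sqrt_le _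
  have hw2 : Nat.sqrt (n - 2) < (w + 1) * (w + 1) := Nat.lt_succ_sqrt _
  have hwpos : 1 ≤ w := by
    have h1 : 1 ≤ Nat.sqrt (n - 2) := Nat.sqrt_pos.2 (by omega)
    exact Nat.sqrt_pos.2 h1
  have hw4 : w ^ 4 + 2 ≤ n := by
    have h1 : w ^ 4 ≤ n - 2 := by
      calc w ^ 4 = (w * w) * (w * w) := by ring
        _ ≤ Nat.sqrt (n - 2) * Nat.sqrt (n - 2) := Nat.mul_le_mul hw1 hw1
        _ ≤ n - 2 := hs1
    omega
  have hn17 : n ≤ 17 * w ^ 4 := by
    have h1 : Nat.sqrt (n - 2) + 1 ≤ (w + 1) * (w + 1) := hw2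
    have h2 : (w + 1) * (w + 1) ≤ (2 * w) * (2 * w) :=
      Nat.mul_le_mul (by omega) (by omega)
    have h3 : n - 2 < 16 * w ^ 4 := by
      calc n - 2 < (Nat.sqrt (n - 2) + 1) * (Nat.sqrt (n - 2) + 1) := hs2
        _ ≤ ((2 * w) * (2 * w)) * ((2 * w) * (2 * w)) :=
            Nat.mul_le_mul (h1.trans h2) (h1.trans h2)
        _ = 16 * w ^ 4 := by ring
    have h4 : 1 ≤ w ^ 4 := Nat.one_le_pow _ _ hwpos
    omega
  have h3w : 3 * w ≤ n := by
    rcases Nat.lt_or_ge w 2 with h | h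
    · omega
    · have h1 : 8 * w ≤ w ^ 4 := by
        calc 8 * w = 2 ^ 3 * w := by ring
          _ ≤ w ^ 3 * w := Nat.mul_le_mul_right _ (Nat.pow_le_pow_left h 3)
          _ = w ^ 4 := by ring
      omega
  have h3w0 : 0 < 3 * w := by omega
  set m := n / (3 * w) with hm
  have hm1 : 1 ≤ m := (Nat.one_le_div_iff h3w0).2 h3w
  have hmn : 3 * w * m ≤ n := Nat.mul_div_le n (3 * w)
  have hnm : n ≤ 6 * w * m := by
    have h1 : n < 3 * w * (m + 1) := Nat.lt_mul_div_succ n h3w0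
    have h2 : 3 * w * (m + 1) ≤ 3 * w * (2 * m) := Nat.mul_le_mul_left _ (by omega)
    have h3 : 3 * w * (2 * m) = 6 * w * m := by ring
    omega
  refine ⟨w, m, hwpos, hmn, hw4, ?_⟩
  have hx0 : (0 : ℝ) < n := by
    have : 0 < n := by omega
    exact_mod_cast this
  have hwr : (1 : ℝ) ≤ w := by exact_mod_cast hwpos
  have hmr : (1 : ℝ) ≤ m := by exact_mod_cast hm1
  have ha : (n : ℝ) ^ (9 / 4 : ℝ) = (n : ℝ) ^ 2 * (n : ℝ) ^ (1 / 4 : ℝ) := by
    rw [← Real.rpow_natCast (n : ℝ) 2, ← Real.rpow_add hx0]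
    norm_num
  have hb : (n : ℝ) ^ (1 / 4 : ℝ) ≤ 21 / 10 * w := by
    have h1 : (n : ℝ) ≤ (21 / 10 * w) ^ 4 := by
      have h2 : (n : ℝ) ≤ 17 * (w : ℝ) ^ 4 := by exact_mod_cast hn17
      have h3 : (0 : ℝ) ≤ (w : ℝ) ^ 4 := by positivity
      calc (n : ℝ) ≤ 17 * (w : ℝ) ^ 4 := h2
        _ ≤ (21 / 10) ^ 4 * (w : ℝ) ^ 4 := by
            apply mul_le_mul_of_nonneg_right _ h3
            norm_num
        _ = (21 / 10 * w) ^ 4 := by ring
    calc (n : ℝ) ^ (1 / 4 : ℝ) ≤ ((21 / 10 * (w : ℝ)) ^ 4) ^ (1 / 4 : ℝ) :=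
          Real.rpow_le_rpow hx0.le h1 (by norm_num)
      _ = 21 / 10 * w := by
          rw [← Real.rpow_natCast, ← Real.rpow_mul (by positivity)]
          norm_num
  have hc : (n : ℝ) ^ 2 ≤ (6 * w * m) ^ 2 := by
    have h1 : (n : ℝ) ≤ 6 * w * m := by exact_mod_cast hnm
    exact pow_le_pow_left₀ hx0.le h1 2
  rw [ha]
  calc (n : ℝ) ^ 2 * (n : ℝ) ^ (1 / 4 : ℝ) ≤ (6 * w * m) ^ 2 * (21 / 10 * w) :=
        mul_le_mul hc hb (Real.rpow_nonneg hx0.le _) (by positivity)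
    _ = 75.6 * ((w : ℝ) ^ 3 * m ^ 2) := by ring
    _ ≤ 100 * ((w : ℝ) ^ 3 * m ^ 2) := by
        apply mul_le_mul_of_nonneg_right _ (by positivity)
        norm_num

end Pool.Agent.H72.TR
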