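import Pool.Agent.H72.TR.Stm

/-!
# 3SUM in few rounds: the probability that a triple is tested in a round
-/

set_option autoImplicit false

namespace Pool.Agent.H72.TR

open Finset Pool.Agent.K4H88.Ter Pool.Agent.K4H88.Rounds

theorem prob : PROB := by
  classical
  intro T _ _ r q hq t A ht i
  set g : T → Fin (r + 1) → ℝ := fun s l =>
    if s = t then (if l = i then 1 else 0) else if s ∈ A then (if i ≤ l then 1 else 0) else 1
    with hg
  have h1 : ∀ ω : T → Fin (r + 1),
      (if ω t = i ∧ ∀ s ∈ A, i ≤ ω s then (1 : ℝ) else 0) = ∏ s, g s (ω s) := by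
    intro ω
    by_cases h : ω t = i ∧ ∀ s ∈ A, i ≤ ω s
    · rw [if_pos h]
      symm
      apply Finset.prod_eq_one
      intro s _
      simp only [hg]
      by_cases hs : s = t
      · subst hs
        simp [h.1]
      · by_cases hA : s ∈ A
        · simp [hs, hA, h.2 s hA]
        · simp [hs, hA]
    · rw [if_neg h]
      symm
      by_cases h2 : ω t = i
      · have h3 : ∃ s ∈ A, ¬ i ≤ ω s := by
          by_contra h4
          push Not at h4
          exact h ⟨h2, h4⟩
        obtain ⟨s, hs, h4⟩ := h3
        apply Finset.prod_eq_zero (Finset.mem_univ s)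
        have h5 : s ≠ t := by
          rintro rfl
          exact h4 (le_of_eq h2.symm)
        simp [hg, h5, hs, h4]
      · apply Finset.prod_eq_zero (Finset.mem_univ t)
        simp [hg, h2]
  have h2 : ∑ ω : T → Fin (r + 1), (∏ s, q (ω s)) *
      (if ω t = i ∧ ∀ s ∈ A, i ≤ ω s then 1 else 0) = ∏ s, ∑ l, q l * g s l := by
    rw [Finset.prod_univ_sum, Fintype.piFinset_univ]
    apply Finset.sum_congr rfl
    intro ω _
    rw [h1 ω, Finset.prod_mul_distrib]
  rw [h2]
  have h3 : ∀ s, ∑ l, q l * g s l = if s = t then q i else if s ∈ A then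
      1 - ∑ l ∈ univ.filter (fun l => l < i), q l else 1 := by
    intro s
    simp only [hg]
    by_cases hs : s = t
    · simp [hs]
    · by_cases hA : s ∈ A
      · simp only [hs, hA, if_false, if_true]
        have h5 := Finset.sum_filter_add_sum_filter_not univ (fun l => l < i) q
        rw [hq] at h5
        simp only [not_lt] at h5
        have h6 : ∑ l, q l * (if i ≤ l then (1 : ℝ) else 0) = ∑ l with i ≤ l, q l := by
          rw [Finset.sum_filter]
          apply Finset.sum_congr rfl
          intro l _
          split_ifs <;> simp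
        rw [h6]
        linarith
      · simp [hs, hA, hq]
  rw [Finset.prod_congr rfl fun s _ => h3 s]
  rw [← Finset.mul_prod_erase univ _ (Finset.mem_univ t)]
  rw [if_pos rfl]
  congr 1
  have h4 : ∀ s ∈ univ.erase t, (if s = t then q i else if s ∈ A then
      1 - ∑ l ∈ univ.filter (fun l => l < i), q l else 1) = if s ∈ A.erase t then
      1 - ∑ l ∈ univ.filter (fun l => l < i), q l else 1 := by
    intro s hs
    have := Finset.ne_of_mem_erase hs
    simp [this]
  rw [Finset.prod_congr rfl h4, Finset.prod_ite, Finset.prod_const_one, mul_one,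
    Finset.prod_const]
  congr 1
  rw [← Finset.card_erase_of_mem ht]
  congr 1
  ext s
  simp

end Pool.Agent.H72.TR
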