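import Pool.Agent.H72.TR.Stm4

/-!
# 3SUM in three rounds: the number of tests of the third round
-/

set_option autoImplicit false

namespace Pool.Agent.H72.TR

open Finset Pool.Agent.K4H88.Ter Pool.Agent.K4H88.Rounds

/-- the number of numbers below `s` -/
def cnt {n : ℕ} (x : Fin n → ℤ) (s : ℤ) : ℕ := (univ.filter fun u => x u < s).card

theorem cnt_mono {n : ℕ} (x : Fin n → ℤ) {s s' : ℤ} (h : s ≤ s') : cnt x s ≤ cnt x s' := by
  unfold cnt
  refine card_le_card fun u hu => ?_
  rw [mem_filter] at hu ⊢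
  exact ⟨hu.1, lt_of_lt_of_le hu.2 h⟩

theorem cnt_lt {n : ℕ} (x : Fin n → ℤ) (k : Fin n) (s : ℤ) : cnt x (x k) < cnt x s ↔ x k < s := by
  constructor
  · intro h
    by_contra h1
    exact absurd (cnt_mono x (not_lt.1 h1)) (not_le.2 h)
  · intro h
    unfold cnt
    refine card_lt_card ⟨fun u hu => ?_, fun h2 => ?_⟩
    · rw [mem_filter] at hu ⊢
      exact ⟨hu.1, hu.2.trans h⟩
    · have h3 : k ∈ univ.filter fun u => x u < s := mem_filter.2 ⟨mem_univ _, h⟩
      exact lt_irrefl _ (mem_filter.1 (h2 h3)).2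

theorem cnt_le {n : ℕ} (x : Fin n → ℤ) (s : ℤ) : cnt x s ≤ n := by
  unfold cnt
  refine (card_le_univ _).trans ?_
  rw [Fintype.card_fin]

theorem rk_lt {n : ℕ} (x : Fin n → ℤ) (k : Fin n) : rk x k < n := by
  have h1 : rk x k < (univ : Finset (Fin n)).card := by
    unfold rk
    refine card_lt_card ⟨filter_subset _ _, fun h2 => ?_⟩
    exact lt_irrefl _ (mem_filter.1 (h2 (mem_univ k))).2
  rwa [card_univ, Fintype.card_fin] at h1

theorem rk_inj {n : ℕ} (x : Fin n → ℤ) (hx : Function.Injective x) :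
    Function.Injective (rk x) := by
  intro a b h
  by_contra hne
  rcases lt_trichotomy (x a) (x b) with h1 | h1 | h1
  · exact absurd ((cnt_lt x a (x b)).2 h1) (not_lt.2 (le_of_eq h.symm))
  · exact hne (hx h1)
  · exact absurd ((cnt_lt x b (x a)).2 h1) (not_lt.2 (le_of_eq h))

theorem rk_surj {n : ℕ} (x : Fin n → ℤ) (hx : Function.Injective x) {r : ℕ} (hr : r < n) :
    ∃ k, rk x k = r := by
  have h1 : Function.Injective (fun k => (⟨rk x k, rk_lt x k⟩ : Fin n)) := by
    intro a b h
    exact rk_inj x hx (Fin.mk.inj_iff.1 h)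
  obtain ⟨k, hk⟩ := (Finite.injective_iff_surjective.1 h1) ⟨r, hr⟩
  exact ⟨k, Fin.mk.inj_iff.1 hk⟩

theorem pow_clog {m : ℕ} (hm : 2 ≤ m) : 2 ^ Nat.clog 2 m + 2 ≤ 2 * m := by
  have h1 : 2 ^ (Nat.clog 2 m).pred < m := Nat.pow_pred_clog_lt_self (by norm_num) (by omega)
  have h2 : 0 < Nat.clog 2 m := Nat.clog_pos (by norm_num) hm
  obtain ⟨c, hc⟩ : ∃ c, Nat.clog 2 m = c + 1 := ⟨Nat.clog 2 m - 1, by omega⟩
  rw [hc] at h1 ⊢
  rw [Nat.pred_succ] at h1
  rw [pow_succ]
  omega

/-- the numerical part -/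
theorem numer {n ρ κ κ' D : ℕ} (hρ : ρ < n) (hκ : κ ≤ n) (_hκ' : κ' ≤ n) (h1 : κ ≤ κ' + D)
    (h2 : κ' ≤ κ + D)
    (H : ∀ r < n, (∃ l ∈ range (Nat.log 2 n + 2), r + 1 = κ' + 2 ^ l ∨ r + 2 ^ l = κ') →
      ¬ (r ≤ ρ ∧ κ < r) ∧ ¬ (ρ ≤ r ∧ r < κ)) : κ ≤ ρ + D ∧ ρ ≤ κ + D := by
  have hn : n < 2 ^ (Nat.log 2 n + 1) := Nat.lt_pow_succ_log_self (by norm_num) n
  constructor
  · by_contra hc
    push Not at hc
    obtain ⟨m, hm⟩ : ∃ m, m = κ' + 1 - κ := ⟨_, rfl⟩
    have hl : Nat.clog 2 m ≤ Nat.log 2 n + 1 := Nat.clog_le_of_le_pow (by omega)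
    have hml : m ≤ 2 ^ Nat.clog 2 m := Nat.le_pow_clog (by norm_num) m
    have hup : ρ + 2 ^ Nat.clog 2 m ≤ κ' := by
      rcases Nat.lt_or_ge m 2 with h | h
      · have : Nat.clog 2 m = 0 := Nat.clog_of_right_le_one (by omega) 2
        rw [this, pow_zero]
        omega
      · have := pow_clog h
        omega
    refine (H (κ' - 2 ^ Nat.clog 2 m) (by omega)
      ⟨Nat.clog 2 m, mem_range.2 (by omega), Or.inr (by omega)⟩).2 ⟨by omega, ?_⟩
    have hp : 0 < 2 ^ Nat.clog 2 m := by positivity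
    omega
  · by_contra hc
    push Not at hc
    obtain ⟨m, hm⟩ : ∃ m, m = κ + 2 - κ' := ⟨_, rfl⟩
    have hl : Nat.clog 2 m ≤ Nat.log 2 n + 1 := Nat.clog_le_of_le_pow (by omega)
    have hml : m ≤ 2 ^ Nat.clog 2 m := Nat.le_pow_clog (by norm_num) m
    have hp : 0 < 2 ^ Nat.clog 2 m := by positivity
    have hup : κ' + 2 ^ Nat.clog 2 m ≤ ρ + 1 := by
      rcases Nat.lt_or_ge m 2 with h | h
      · have : Nat.clog 2 m = 0 := Nat.clog_of_right_le_one (by omega) 2
        rw [this, pow_zero]
        omega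
      · have := pow_clog h
        omega
    exact (H (κ' + 2 ^ Nat.clog 2 m - 1) (by omega)
      ⟨Nat.clog 2 m, mem_range.2 (by omega), Or.inl (by omega)⟩).1 ⟨by omega, by omega⟩

open Classical in
theorem mem_Rset {n : ℕ} (v : Fin n → ℤ) (t : Fin n × Fin n × Fin n)
    (h : ∃ l ∈ range (Nat.log 2 n + 2),
      rk v t.2.2 + 1 = below v t.1 t.2.1 + 2 ^ l ∨ rk v t.2.2 + 2 ^ l = below v t.1 t.2.1) :
    t ∈ Rset v := by
  unfold Rset
  exact (@Finset.mem_filter _ _ (fun _ => Classical.propDecidable _) _ _).2 ⟨mem_univ _, h⟩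

theorem row {n : ℕ} (x v : Fin n → ℤ) (hx : Function.Injective x) (hO : Ord x = Ord v)
    (i j : Fin n) : (univ.filter fun k => (i, j, k) ∈ Und x (Rset v)).card ≤
      1 + 2 * (univ.filter fun k => Lab v (i, j, k) ≠ Lab x (i, j, k)).card := by
  classical
  have hlt : ∀ a b, x a < x b ↔ v a < v b := by
    intro a b
    have h := congrFun hO (a, b)
    unfold Ord at h
    exact decide_eq_decide.1 h
  have hrk : ∀ k, rk x k = rk v k := by
    intro k
    unfold rk
    congr 1
    ext u
    rw [mem_filter, mem_filter, hlt u k]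
  obtain ⟨κ, hκ⟩ : ∃ κ, κ = cnt x (x i + x j) := ⟨_, rfl⟩
  obtain ⟨κ', hκ'⟩ : ∃ κ', κ' = cnt v (v i + v j) := ⟨_, rfl⟩
  obtain ⟨D, hD⟩ : ∃ D, D = (univ.filter fun k => Lab v (i, j, k) ≠ Lab x (i, j, k)).card :=
    ⟨_, rfl⟩
  have e1 : ∀ k, Lab x (i, j, k) = true ↔ x k < x i + x j := by
    intro k
    unfold Lab sm
    rw [decide_eq_true_iff]
    exact sub_pos
  have e2 : ∀ k, Lab v (i, j, k) = true ↔ v k < v i + v j := by
    intro k
    unfold Lab sm
    rw [decide_eq_true_iff]
    exact sub_pos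
  have h1 : κ ≤ κ' + D := by
    rw [hκ, hκ', hD]
    unfold cnt
    refine le_trans (card_le_card ?_) (card_union_le _ _)
    intro k hk
    rw [mem_union, mem_filter, mem_filter]
    rw [mem_filter] at hk
    by_cases h : v k < v i + v j
    · exact Or.inl ⟨mem_univ _, h⟩
    · refine Or.inr ⟨mem_univ _, fun h3 => h ?_⟩
      rw [← e2, h3, e1]
      exact hk.2
  have h2 : κ' ≤ κ + D := by
    rw [hκ, hκ', hD]
    unfold cnt
    refine le_trans (card_le_card ?_) (card_union_le _ _)
    intro k hk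
    rw [mem_union, mem_filter, mem_filter]
    rw [mem_filter] at hk
    by_cases h : x k < x i + x j
    · exact Or.inl ⟨mem_univ _, h⟩
    · refine Or.inr ⟨mem_univ _, fun h3 => h ?_⟩
      rw [← e1, ← h3, e2]
      exact hk.2
  rw [← hD]
  have h3 : (univ.filter fun k => (i, j, k) ∈ Und x (Rset v)).card ≤
      (Icc (κ - D) (κ + D)).card := by
    refine card_le_card_of_injOn (rk x) ?_ ((rk_inj x hx).injOn)
    intro k hk
    rw [mem_coe, mem_filter] at hk
    unfold Und at hk
    have hk2 := (mem_filter.1 hk.2).2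
    have := numer (n := n) (ρ := rk x k) (κ := κ) (κ' := κ') (D := D) (rk_lt x k)
      (by rw [hκ]; exact cnt_le x _) (by rw [hκ']; exact cnt_le v _) h1 h2 (by
        intro r hr hl
        obtain ⟨k', hk'⟩ := rk_surj x hx hr
        have hmem : (i, j, k') ∈ Rset v := by
          refine mem_Rset v _ ?_
          change ∃ l ∈ range (Nat.log 2 n + 2), rk v k' + 1 = below v i j + 2 ^ l ∨
            rk v k' + 2 ^ l = below v i j
          rw [← hrk, hk']
          have : below v i j = κ' := hκ'.symm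
          rw [this]
          exact hl
        obtain ⟨g1, g2⟩ := hk2 (i, j, k') hmem rfl rfl
        constructor
        · rintro ⟨a1, a2⟩
          refine g1 ⟨?_, ?_⟩
          · change x k' ≤ x k
            by_contra h
            have := (cnt_lt x k (x k')).2 (not_le.1 h)
            change rk x k < rk x k' at this
            omega
          · change x i + x j - x k' < 0
            by_contra h
            have h5 : x k' ≤ x i + x j := by linarith [not_lt.1 h]
            have := cnt_mono x h5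
            change rk x k' ≤ cnt x (x i + x j) at this
            omega
        · rintro ⟨a1, a2⟩
          refine g2 ⟨?_, ?_⟩
          · change x k ≤ x k'
            by_contra h
            have := (cnt_lt x k' (x k)).2 (not_le.1 h)
            change rk x k' < rk x k at this
            omega
          · change 0 < x i + x j - x k'
            have h5 : cnt x (x k') < cnt x (x i + x j) := by
              change rk x k' < _
              omega
            have := (cnt_lt x k' _).1 h5
            linarith)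
    rw [mem_coe, mem_Icc]
    omega
  refine h3.trans ?_
  rw [Nat.card_Icc]
  omega

theorem rows2 : ROWS2 := by
  intro n x v hx hv hO
  have h1 : (Und x (Rset v)).card =
      ∑ i : Fin n, ∑ j : Fin n, (univ.filter fun k => (i, j, k) ∈ Und x (Rset v)).card := by
    have : (Und x (Rset v)).card = ∑ t : Fin n × Fin n × Fin n, if t ∈ Und x (Rset v) then 1 else 0 := by
      rw [← card_filter]
      congr 1
      ext t
      simp
    rw [this, Fintype.sum_prod_type]
    refine sum_congr rfl fun i _ => ?_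
    rw [Fintype.sum_prod_type]
    refine sum_congr rfl fun j _ => ?_
    rw [card_filter]
  have h2 : (univ.filter fun t => Lab v t ≠ Lab x t).card =
      ∑ i : Fin n, ∑ j : Fin n,
        (univ.filter fun k => Lab v (i, j, k) ≠ Lab x (i, j, k)).card := by
    rw [card_filter, Fintype.sum_prod_type]
    refine sum_congr rfl fun i _ => ?_
    rw [Fintype.sum_prod_type]
    refine sum_congr rfl fun j _ => ?_
    rw [card_filter]
  rw [h1, h2]
  calc _ ≤ ∑ i : Fin n, ∑ j : Fin n,
        (1 + 2 * (univ.filter fun k => Lab v (i, j, k) ≠ Lab x (i, j, k)).card) :=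
        sum_le_sum fun i _ => sum_le_sum fun j _ => row x v hx hO i j
    _ = _ := by
      simp only [sum_add_distrib, mul_sum, sum_const, card_univ, Fintype.card_fin, smul_eq_mul,
        mul_one]
      ring

end Pool.Agent.H72.TR
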