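import Pool.Agent.H72.TR.Stm5
import Pool.Agent.H72.TR.Rows2

/-!
# 3SUM in five rounds: the number of tests of the fifth round
-/

set_option autoImplicit false

namespace Pool.Agent.H72.TR

open Finset Pool.Agent.K4H88.Ter Pool.Agent.K4H88.Rounds

/-- the numerical part -/
theorem numer5 {n s ρ κ κ' l δ : ℕ} (hρ : ρ < n) (hκ : κ ≤ n) (hκ' : κ' ≤ n) (hs : l ≤ s)
    (hl : δ + 2 ≤ 2 * s * 2 ^ l) (hδ : (κ = κ' + δ ∧ 1 ≤ δ) ∨ (κ' = κ + δ ∧ 1 ≤ δ))
    (H : ∀ r < n, (∃ a m : ℕ, 1 ≤ a ∧ a ≤ 2 * s ∧ m ≤ s ∧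
      (r + 1 = κ' + a * 2 ^ m ∨ r + a * 2 ^ m = κ')) →
      ¬ (r ≤ ρ ∧ κ < r) ∧ ¬ (ρ ≤ r ∧ r < κ)) : κ < ρ + 2 ^ l ∧ ρ < κ + 2 ^ l := by
  obtain ⟨d, hd⟩ : ∃ d, d = 2 ^ l := ⟨_, rfl⟩
  have hd0 : 0 < d := by rw [hd]; positivity
  have hs1 : 1 ≤ s := by
    rcases Nat.eq_zero_or_pos s with h | h
    · rw [h] at hl
      omega
    · exact h
  rw [← hd] at hl ⊢
  have h1a := Nat.div_add_mod (δ + 1) d
  have h1b := Nat.mod_lt (δ + 1) hd0
  have h2a := Nat.div_add_mod δ d
  have h2b := Nat.mod_lt δ hd0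
  have h3a := Nat.div_add_mod (δ - 1) d
  have h3b := Nat.mod_lt (δ - 1) hd0
  have q1 : (δ + 1) / d < 2 * s := (Nat.div_lt_iff_lt_mul hd0).2 (by omega)
  have q2 : δ / d < 2 * s := (Nat.div_lt_iff_lt_mul hd0).2 (by omega)
  have q3 : (δ - 1) / d < 2 * s := (Nat.div_lt_iff_lt_mul hd0).2 (by omega)
  have q4 : d ≤ δ → 1 ≤ δ / d := fun h => (Nat.one_le_div_iff hd0).2 h
  generalize (δ + 1) / d = u1 at *
  generalize (δ + 1) % d = v1 at *
  generalize δ / d = u2 at *
  generalize δ % d = v2 at *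
  generalize (δ - 1) / d = u3 at *
  generalize (δ - 1) % d = v3 at *
  have e1 : (u1 + 1) * d = d * u1 + d := by ring
  have e2 : u2 * d = d * u2 := mul_comm _ _
  have e2' : (u2 + 1) * d = d * u2 + d := by ring
  have e3 : u3 * d = d * u3 := mul_comm _ _
  have e4 : 1 ≤ u2 → 1 ≤ d * u2 := fun h => Nat.mul_pos hd0 h
  have e5 : u3 = 0 → d * u3 = 0 := fun h => by rw [h, mul_zero]
  generalize d * u1 = P1 at *
  generalize d * u2 = P2 at *
  generalize d * u3 = P3 at *
  clear hl hs1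
  rcases hδ with ⟨hδ, hδ1⟩ | ⟨hδ, hδ1⟩
  · constructor
    · by_contra hc
      push Not at hc
      rcases Nat.lt_or_ge δ d with h | h
      · exact (H κ' (by omega) ⟨1, 0, le_rfl, by omega, Nat.zero_le _, Or.inl (by norm_num)⟩).2
          ⟨by omega, by omega⟩
      · have h4 := q4 h
        have h5 := e4 h4
        refine (H (κ' + P2 - 1) (by omega) ⟨u2, l, h4, by omega, hs, Or.inl ?_⟩).2
          ⟨by omega, by omega⟩
        rw [← hd, e2]
        omega
    · by_contra hc
      push Not at hc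
      refine (H (κ' + (P1 + d) - 1) (by omega)
        ⟨u1 + 1, l, by omega, by omega, hs, Or.inl ?_⟩).1 ⟨by omega, by omega⟩
      rw [← hd, e1]
      omega
  · constructor
    · by_contra hc
      push Not at hc
      refine (H (κ' - (P2 + d)) (by omega)
        ⟨u2 + 1, l, by omega, by omega, hs, Or.inr ?_⟩).2 ⟨by omega, by omega⟩
      rw [← hd, e2']
      omega
    · by_contra hc
      push Not at hc
      rcases Nat.eq_zero_or_pos u3 with h | h
      · have h6 := e5 h
        exact (H κ' (by omega) ⟨1, 0, le_rfl, by omega, Nat.zero_le _, Or.inl (by norm_num)⟩).1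
          ⟨by omega, by omega⟩
      · refine (H (κ' - P3) (by omega)
          ⟨u3, l, h, by omega, hs, Or.inr ?_⟩).1 ⟨by omega, by omega⟩
        rw [← hd, e3]
        omega

theorem exists_l {n δ : ℕ} (hδ : δ ≤ n) : ∃ l ≤ Nat.log 2 n + 1,
    δ + 2 ≤ 2 * (Nat.log 2 n + 1) * 2 ^ l ∧ (l = 0 ∨ (Nat.log 2 n + 1) * 2 ^ l ≤ δ + 1) := by
  classical
  obtain ⟨s, hs⟩ : ∃ s, s = Nat.log 2 n + 1 := ⟨_, rfl⟩
  have hn : n < 2 ^ s := by
    rw [hs]
    exact Nat.lt_pow_succ_log_self (by norm_num) n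
  rw [← hs]
  have hs1 : 1 ≤ s := by omega
  have hex : ∃ l, δ + 2 ≤ 2 * s * 2 ^ l := by
    refine ⟨s, ?_⟩
    have : 1 * 2 ^ s ≤ s * 2 ^ s := Nat.mul_le_mul_right _ hs1
    have e : 2 * s * 2 ^ s = 2 * (s * 2 ^ s) := by ring
    rw [e]
    omega
  have hfs := Nat.find_spec hex
  refine ⟨Nat.find hex, Nat.find_min' hex ?_, hfs, ?_⟩
  · have : 1 * 2 ^ s ≤ s * 2 ^ s := Nat.mul_le_mul_right _ hs1
    have e : 2 * s * 2 ^ s = 2 * (s * 2 ^ s) := by ring
    rw [e]
    omega
  · rcases Nat.eq_zero_or_pos (Nat.find hex) with h | h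
    · exact Or.inl h
    · right
      obtain ⟨c, hc⟩ : ∃ c, Nat.find hex = c + 1 := ⟨Nat.find hex - 1, by omega⟩
      have h2 := Nat.find_min hex (m := c) (by omega)
      rw [hc, pow_succ]
      have e : s * (2 ^ c * 2) = 2 * s * 2 ^ c := by ring
      rw [e]
      omega

theorem mem_filter_any {α : Type} (s : Finset α) (p : α → Prop) (inst : DecidablePred p) (a : α)
    (h : a ∈ s) (hp : p a) : a ∈ @Finset.filter α p inst s := mem_filter.2 ⟨h, hp⟩

theorem mem_Ver {n : ℕ} (v : Fin n → ℤ) (t : Fin n × Fin n × Fin n)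
    (h : rk v t.2.2 + 1 = below v t.1 t.2.1 ∨ rk v t.2.2 = below v t.1 t.2.1 ∨
      rk v t.2.2 = below v t.1 t.2.1 + 1) : t ∈ Ver v :=
  mem_filter_any _ _ _ _ (mem_univ _) h

theorem mem_Gset {n : ℕ} (v : Fin n → ℤ) (lab : Fin n × Fin n × Fin n → Bool)
    (t : Fin n × Fin n × Fin n)
    (h : (∃ t' ∈ Ver v, t'.1 = t.1 ∧ t'.2.1 = t.2.1 ∧ lab t' ≠ Lab v t') ∧
    ∃ a l : ℕ, 1 ≤ a ∧ a ≤ 2 * (Nat.log 2 n + 1) ∧ l ≤ Nat.log 2 n + 1 ∧
      (rk v t.2.2 + 1 = below v t.1 t.2.1 + a * 2 ^ l ∨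
        rk v t.2.2 + a * 2 ^ l = below v t.1 t.2.1)) : t ∈ Gset v lab :=
  mem_filter_any _ _ _ _ (mem_univ _) h

theorem row5 {n : ℕ} (x v : Fin n → ℤ) (hx : Function.Injective x) (hO : Ord x = Ord v)
    (i j : Fin n) : (Nat.log 2 n + 1) * (univ.filter fun k => (i, j, k) ∈
      Und x (Ver v ∪ Gset v (mask (Ver v) (Lab x)))).card ≤
      (Nat.log 2 n + 1) + 4 * (univ.filter fun k => Lab v (i, j, k) ≠ Lab x (i, j, k)).card := by
  classical
  have hlt : ∀ a b, x a < x b ↔ v a < v b := by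
    intro a b
    have h := congrFun hO (a, b)
    unfold Ord at h
    exact decide_eq_decide.1 h
  have hrk : ∀ k, rk x k = rk v k := by
    intro k
    unfold rk
    congr 1
    ext u
    rw [mem_filter, mem_filter, hlt u k]
  obtain ⟨κ, hκ⟩ : ∃ κ, κ = cnt x (x i + x j) := ⟨_, rfl⟩
  obtain ⟨κ', hκ'⟩ : ∃ κ', κ' = cnt v (v i + v j) := ⟨_, rfl⟩
  obtain ⟨D, hD⟩ : ∃ D, D = (univ.filter fun k => Lab v (i, j, k) ≠ Lab x (i, j, k)).card :=
    ⟨_, rfl⟩
  have e1 : ∀ k, Lab x (i, j, k) = true ↔ x k < x i + x j := by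
    intro k
    unfold Lab sm
    rw [decide_eq_true_iff]
    exact sub_pos
  have e2 : ∀ k, Lab v (i, j, k) = true ↔ v k < v i + v j := by
    intro k
    unfold Lab sm
    rw [decide_eq_true_iff]
    exact sub_pos
  have h1 : κ ≤ κ' + D := by
    rw [hκ, hκ', hD]
    unfold cnt
    refine le_trans (card_le_card ?_) (card_union_le _ _)
    intro k hk
    rw [mem_union, mem_filter, mem_filter]
    rw [mem_filter] at hk
    by_cases h : v k < v i + v j
    · exact Or.inl ⟨mem_univ _, h⟩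
    · refine Or.inr ⟨mem_univ _, fun h3 => h ?_⟩
      rw [← e2, h3, e1]
      exact hk.2
  have h2 : κ' ≤ κ + D := by
    rw [hκ, hκ', hD]
    unfold cnt
    refine le_trans (card_le_card ?_) (card_union_le _ _)
    intro k hk
    rw [mem_union, mem_filter, mem_filter]
    rw [mem_filter] at hk
    by_cases h : x k < x i + x j
    · exact Or.inl ⟨mem_univ _, h⟩
    · refine Or.inr ⟨mem_univ _, fun h3 => h ?_⟩
      rw [← e1, ← h3, e2]
      exact hk.2
  rw [← hD]
  have hκn : κ ≤ n := by rw [hκ]; exact cnt_le x _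
  have hκn' : κ' ≤ n := by rw [hκ']; exact cnt_le v _
  have f1 : ∀ k, x k < x i + x j ↔ rk x k < κ := by
    intro k
    rw [hκ]
    exact (cnt_lt x k _).symm
  have f2 : ∀ k, v k < v i + v j ↔ rk v k < κ' := by
    intro k
    rw [hκ']
    exact (cnt_lt v k _).symm
  -- the consequence of being undetermined
  have hund : ∀ k, (i, j, k) ∈ Und x (Ver v ∪ Gset v (mask (Ver v) (Lab x))) → ∀ k',
      (i, j, k') ∈ Ver v ∪ Gset v (mask (Ver v) (Lab x)) →
      ¬ (rk x k' ≤ rk x k ∧ κ < rk x k') ∧ ¬ (rk x k ≤ rk x k' ∧ rk x k' < κ) := by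
    intro k hk k' hmem
    unfold Und at hk
    have hk2 := (mem_filter.1 hk).2
    obtain ⟨g1, g2⟩ := hk2 (i, j, k') hmem rfl rfl
    constructor
    · rintro ⟨a1, a2⟩
      refine g1 ⟨?_, ?_⟩
      · change x k' ≤ x k
        by_contra h
        have := (cnt_lt x k (x k')).2 (not_le.1 h)
        change rk x k < rk x k' at this
        omega
      · change x i + x j - x k' < 0
        by_contra h
        have h5 : x k' ≤ x i + x j := by linarith [not_lt.1 h]
        have := cnt_mono x h5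
        change rk x k' ≤ cnt x (x i + x j) at this
        omega
    · rintro ⟨a1, a2⟩
      refine g2 ⟨?_, ?_⟩
      · change x k ≤ x k'
        by_contra h
        have := (cnt_lt x k' (x k)).2 (not_le.1 h)
        change rk x k' < rk x k at this
        omega
      · change 0 < x i + x j - x k'
        have := (f1 k').2 a2
        linarith
  by_cases hkk : κ = κ'
  · -- right rows
    have h3 : (univ.filter fun k => (i, j, k) ∈
        Und x (Ver v ∪ Gset v (mask (Ver v) (Lab x)))).card ≤ 1 := by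
      refine card_le_one.2 ?_
      have hone : ∀ k ∈ univ.filter fun k => (i, j, k) ∈
          Und x (Ver v ∪ Gset v (mask (Ver v) (Lab x))), rk x k = κ := by
        intro k hk
        have hk' := hund k (mem_filter.1 hk).2
        rcases lt_trichotomy (rk x k) κ with h | h | h
        · exfalso
          obtain ⟨k', hk1⟩ := rk_surj x hx (r := κ - 1) (by omega)
          refine (hk' k' (mem_union_left _ (mem_Ver v _ (Or.inl ?_)))).2 ⟨by omega, by omega⟩
          change rk v k' + 1 = cnt v (v i + v j)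
          rw [← hrk, hk1, ← hκ']
          omega
        · exact h
        · exfalso
          have hlt := rk_lt x k
          obtain ⟨k', hk1⟩ := rk_surj x hx (r := κ + 1) (by omega)
          refine (hk' k' (mem_union_left _ (mem_Ver v _ (Or.inr (Or.inr ?_))))).1
            ⟨by omega, by omega⟩
          change rk v k' = cnt v (v i + v j) + 1
          rw [← hrk, hk1, ← hκ']
          omega
      intro k hk k1 hk1
      exact rk_inj x hx ((hone k hk).trans (hone k1 hk1).symm)
    calc (Nat.log 2 n + 1) * _ ≤ (Nat.log 2 n + 1) * 1 := Nat.mul_le_mul_left _ h3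
      _ ≤ _ := by omega
  · -- wrong rows
    obtain ⟨δ, hδ⟩ : ∃ δ, (κ = κ' + δ ∧ 1 ≤ δ) ∨ (κ' = κ + δ ∧ 1 ≤ δ) := by
      rcases Nat.lt_or_ge κ κ' with h | h
      · exact ⟨κ' - κ, Or.inr ⟨by omega, by omega⟩⟩
      · exact ⟨κ - κ', Or.inl ⟨by omega, by omega⟩⟩
    have hδn : δ ≤ n := by omega
    have hδD : δ ≤ D := by omega
    have hδ1 : 1 ≤ δ := by omega
    obtain ⟨l, hl1, hl2, hl3⟩ := exists_l hδn
    have hrow : ∃ t' ∈ Ver v, t'.1 = i ∧ t'.2.1 = j ∧ mask (Ver v) (Lab x) t' ≠ Lab v t' := by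
      rcases hδ with ⟨hδ, -⟩ | ⟨hδ, -⟩
      · obtain ⟨k', hk1⟩ := rk_surj x hx (r := κ') (by omega)
        have hm : (i, j, k') ∈ Ver v := mem_Ver v _ (Or.inr (Or.inl (by
          change rk v k' = cnt v (v i + v j)
          rw [← hrk, hk1, ← hκ'])))
        refine ⟨(i, j, k'), hm, rfl, rfl, ?_⟩
        unfold mask
        rw [if_pos hm]
        intro h
        have h5 : Lab x (i, j, k') = true := (e1 k').2 ((f1 k').2 (by omega))
        rw [h5] at h
        have h6 := (f2 k').1 ((e2 k').1 h.symm)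
        rw [← hrk] at h6
        omega
      · obtain ⟨k', hk1⟩ := rk_surj x hx (r := κ' - 1) (by omega)
        have hm : (i, j, k') ∈ Ver v := mem_Ver v _ (Or.inl (by
          change rk v k' + 1 = cnt v (v i + v j)
          rw [← hrk, hk1, ← hκ']
          omega))
        refine ⟨(i, j, k'), hm, rfl, rfl, ?_⟩
        unfold mask
        rw [if_pos hm]
        intro h
        have h5 : Lab v (i, j, k') = true := (e2 k').2 ((f2 k').2 (by rw [← hrk]; omega))
        rw [h5] at h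
        have h6 := (f1 k').1 ((e1 k').1 h)
        omega
    have h3 : (univ.filter fun k => (i, j, k) ∈
        Und x (Ver v ∪ Gset v (mask (Ver v) (Lab x)))).card ≤
        (Icc (κ + 1 - 2 ^ l) (κ + 2 ^ l - 1)).card := by
      refine card_le_card_of_injOn (rk x) ?_ ((rk_inj x hx).injOn)
      intro k hk
      rw [mem_coe, mem_filter] at hk
      have hk' := hund k hk.2
      have := numer5 (n := n) (s := Nat.log 2 n + 1) (ρ := rk x k) (κ := κ) (κ' := κ') (l := l)
        (δ := δ) (rk_lt x k) hκn hκn' hl1 hl2 hδ (by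
          rintro r hr ⟨a, m, ha1, ha2, hm, ham⟩
          obtain ⟨k', hk1⟩ := rk_surj x hx hr
          have hmem : (i, j, k') ∈ Gset v (mask (Ver v) (Lab x)) := by
            refine mem_Gset v _ _ ⟨hrow, a, m, ha1, ha2, hm, ?_⟩
            change rk v k' + 1 = cnt v (v i + v j) + a * 2 ^ m ∨
              rk v k' + a * 2 ^ m = cnt v (v i + v j)
            rw [← hrk, hk1, ← hκ']
            exact ham
          have := hk' k' (mem_union_right _ hmem)
          rw [hk1] at this
          exact this)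
      rw [mem_coe, mem_Icc]
      omega
    have h4 : (univ.filter fun k => (i, j, k) ∈
        Und x (Ver v ∪ Gset v (mask (Ver v) (Lab x)))).card + 1 ≤ 2 * 2 ^ l := by
      rw [Nat.card_Icc] at h3
      have hp : 0 < 2 ^ l := by positivity
      omega
    obtain ⟨U, hU⟩ : ∃ U, U = (univ.filter fun k => (i, j, k) ∈
        Und x (Ver v ∪ Gset v (mask (Ver v) (Lab x)))).card := ⟨_, rfl⟩
    obtain ⟨s, hs⟩ : ∃ s, s = Nat.log 2 n + 1 := ⟨_, rfl⟩
    rw [← hU] at h4 ⊢
    rw [← hs] at hl3 ⊢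
    have hs1 : 1 ≤ s := by omega
    rcases hl3 with h | h
    · rw [h, pow_zero] at h4
      have : s * U ≤ s * 1 := Nat.mul_le_mul_left _ (by omega)
      omega
    · have h5 : s * U ≤ s * (2 * 2 ^ l) := Nat.mul_le_mul_left _ (by omega)
      have e : s * (2 * 2 ^ l) = 2 * (s * 2 ^ l) := by ring
      rw [e] at h5
      omega

theorem rows5c : ROWS5C := by
  intro n x v hx hv hO
  have h1 : (Und x (Ver v ∪ Gset v (mask (Ver v) (Lab x)))).card =
      ∑ i : Fin n, ∑ j : Fin n, (univ.filter fun k => (i, j, k) ∈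
        Und x (Ver v ∪ Gset v (mask (Ver v) (Lab x)))).card := by
    have : (Und x (Ver v ∪ Gset v (mask (Ver v) (Lab x)))).card =
        ∑ t : Fin n × Fin n × Fin n,
          if t ∈ Und x (Ver v ∪ Gset v (mask (Ver v) (Lab x))) then 1 else 0 := by
      rw [← card_filter]
      congr 1
      ext t
      simp
    rw [this, Fintype.sum_prod_type]
    refine sum_congr rfl fun i _ => ?_
    rw [Fintype.sum_prod_type]
    refine sum_congr rfl fun j _ => ?_
    rw [card_filter]
  have h2 : (univ.filter fun t => Lab v t ≠ Lab x t).card =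
      ∑ i : Fin n, ∑ j : Fin n,
        (univ.filter fun k => Lab v (i, j, k) ≠ Lab x (i, j, k)).card := by
    rw [card_filter, Fintype.sum_prod_type]
    refine sum_congr rfl fun i _ => ?_
    rw [Fintype.sum_prod_type]
    refine sum_congr rfl fun j _ => ?_
    rw [card_filter]
  rw [h1, h2, mul_sum, mul_sum]
  calc _ ≤ ∑ i : Fin n, ∑ j : Fin n, ((Nat.log 2 n + 1) +
        4 * (univ.filter fun k => Lab v (i, j, k) ≠ Lab x (i, j, k)).card) := by
        refine sum_le_sum fun i _ => ?_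
        rw [mul_sum]
        exact sum_le_sum fun j _ => row5 x v hx hO i j
    _ = _ := by
      simp only [sum_add_distrib, mul_sum, sum_const, card_univ, Fintype.card_fin, smul_eq_mul]
      ring

end Pool.Agent.H72.TR
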