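import Pool.Agent.H72.TR.Stm5
import Pool.Agent.H72.TR.Rows2

/-!
# 3SUM in five rounds: the number of tests of the fifth round
-/

set_option autoImplicit false

namespace Pool.Agent.H72.TR

open Finset Pool.Agent.K4H88.Ter Pool.Agent.K4H88.Rounds

/-- the numbers of the grid -/
def Gd (s L g : ℕ) : Prop := ∃ a l : ℕ, 1 ≤ a ∧ a ≤ 2 * s ∧ l ≤ L + 1 ∧ g = a * 2 ^ l

theorem grid {s L y : ℕ} (hs : 1 ≤ s) (hy : 1 ≤ y) (hL : y < 2 ^ (L + 1)) :
    ∃ g g', Gd s L g ∧ Gd s L g' ∧ g ≤ y ∧ y < g' ∧ (g' = g + 1 ∨ s * (g' - g) ≤ y) := by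
  rcases Nat.lt_or_ge y (2 * s) with h | h
  · exact ⟨y, y + 1, ⟨y, 0, hy, h.le, by omega, by simp⟩, ⟨y + 1, 0, by omega, h, by omega, by simp⟩,
      le_rfl, by omega, Or.inl rfl⟩
  · obtain ⟨l, hl⟩ : ∃ l, l = Nat.log 2 (y / s) := ⟨_, rfl⟩
    have hys : y / s ≠ 0 := by
      have : 2 ≤ y / s := (Nat.le_div_iff_mul_le hs).2 h
      omega
    have h1 : 2 ^ l ≤ y / s := by rw [hl]; exact Nat.pow_log_le_self 2 hys
    have h2 : y / s < 2 ^ (l + 1) := by rw [hl]; exact Nat.lt_pow_succ_log_self (by norm_num) _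
    have h3 : 2 ^ l * s ≤ y := (Nat.le_div_iff_mul_le hs).1 h1
    have h4 : y < 2 ^ (l + 1) * s := (Nat.div_lt_iff_lt_mul hs).1 h2
    have hp : 0 < 2 ^ l := by positivity
    obtain ⟨a, ha⟩ : ∃ a, a = y / 2 ^ l := ⟨_, rfl⟩
    have h5 : s ≤ a := by
      rw [ha, Nat.le_div_iff_mul_le hp]
      calc s * 2 ^ l = 2 ^ l * s := Nat.mul_comm _ _
        _ ≤ y := h3
    have h6 : a < 2 * s := by
      rw [ha, Nat.div_lt_iff_lt_mul hp]
      calc y < 2 ^ (l + 1) * s := h4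
        _ = 2 * s * 2 ^ l := by ring
    have h7 : a * 2 ^ l ≤ y := by rw [ha]; exact Nat.div_mul_le_self y _
    have h8 : y < (a + 1) * 2 ^ l := by
      have := Nat.lt_mul_div_succ y hp
      rw [ha]
      calc y < 2 ^ l * (y / 2 ^ l + 1) := this
        _ = (y / 2 ^ l + 1) * 2 ^ l := Nat.mul_comm _ _
    have hlL : l ≤ L + 1 := by
      by_contra hc
      push Not at hc
      have h9 : 2 ^ (L + 1) ≤ 2 ^ l := Nat.pow_le_pow_right (by norm_num) (by omega)
      have h10 : 2 ^ l ≤ y := by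
        calc 2 ^ l ≤ 2 ^ l * s := Nat.le_mul_of_pos_right _ hs
          _ ≤ y := h3
      omega
    refine ⟨a * 2 ^ l, (a + 1) * 2 ^ l, ⟨a, l, by omega, h6.le, hlL, rfl⟩,
      ⟨a + 1, l, by omega, h6, hlL, rfl⟩, h7, h8, Or.inr ?_⟩
    have h9 : (a + 1) * 2 ^ l - a * 2 ^ l = 2 ^ l := by
      rw [Nat.add_mul, Nat.one_mul, Nat.add_sub_cancel_left]
    rw [h9, Nat.mul_comm]
    exact h3

theorem gd_one {s L : ℕ} (hs : 1 ≤ s) : Gd s L 1 := ⟨1, 0, le_rfl, by omega, by omega, by simp⟩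

/-- the numerical part -/
theorem numer5 {n s ρ κ κ' D : ℕ} (hs : 1 ≤ s) (hρ : ρ < n) (hκ : κ ≤ n) (hκ' : κ' ≤ n)
    (h1 : κ ≤ κ' + D) (h2 : κ' ≤ κ + D)
    (H : ∀ r < n, (∃ g, Gd s (Nat.log 2 n) g ∧ (r + 1 = κ' + g ∨ r + g = κ')) →
      ¬ (r ≤ ρ ∧ κ < r) ∧ ¬ (ρ ≤ r ∧ r < κ)) :
    s * (ρ - κ) ≤ D + 1 ∧ s * (κ - ρ) ≤ D + 1 := by
  have hn : n < 2 ^ (Nat.log 2 n + 1) := Nat.lt_pow_succ_log_self (by norm_num) n
  have hmul : ∀ {u w : ℕ}, u ≤ w → s * u ≤ s * w := fun h => Nat.mul_le_mul_left s h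
  constructor
  · by_contra hc
    push Not at hc
    have hlt : κ < ρ := by
      by_contra h
      rw [Nat.sub_eq_zero_of_le (not_lt.1 h), Nat.mul_zero] at hc
      omega
    rcases Nat.lt_or_ge κ' (κ + 2) with hcase | hcase
    · -- a number of the grid above `κ + 1 - κ'`
      obtain ⟨y, hy⟩ : ∃ y, y = κ + 1 - κ' := ⟨_, rfl⟩
      rcases Nat.eq_zero_or_pos y with hy0 | hy0
      · exact (H κ' (by omega) ⟨1, gd_one hs, Or.inl rfl⟩).1 ⟨by omega, by omega⟩
      · obtain ⟨g, g', -, hg', hgy, hyg, hgap⟩ := grid (L := Nat.log 2 n) hs hy0 (by omega)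
        have hup : κ' + g' ≤ ρ + 1 := by
          by_contra hcon
          rcases hgap with hgap | hgap
          · omega
          · have h5 : ρ - κ ≤ g' - g := by omega
            have := hmul h5
            omega
        exact (H (κ' + g' - 1) (by omega) ⟨g', hg', Or.inl (by omega)⟩).1 ⟨by omega, by omega⟩
    · rcases Nat.lt_or_ge ρ κ' with hρκ | hρκ
      · obtain ⟨y, hy⟩ : ∃ y, y = κ' - κ - 1 := ⟨_, rfl⟩
        obtain ⟨g, g', hg, -, hgy, hyg, hgap⟩ :=
          grid (L := Nat.log 2 n) hs (show 1 ≤ y by omega) (by omega)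
        have hup : κ' ≤ ρ + g := by
          by_contra hcon
          rcases hgap with hgap | hgap
          · omega
          · have h5 : ρ - κ ≤ g' - g := by omega
            have := hmul h5
            omega
        exact (H (κ' - g) (by omega) ⟨g, hg, Or.inr (by omega)⟩).1 ⟨by omega, by omega⟩
      · exact (H κ' (by omega) ⟨1, gd_one hs, Or.inl rfl⟩).1 ⟨by omega, by omega⟩
  · by_contra hc
    push Not at hc
    have hlt : ρ < κ := by
      by_contra h
      rw [Nat.sub_eq_zero_of_le (not_lt.1 h), Nat.mul_zero] at hc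
      omega
    rcases Nat.lt_or_ge κ' κ with hcase | hcase
    · obtain ⟨y, hy⟩ : ∃ y, y = κ - κ' := ⟨_, rfl⟩
      obtain ⟨g, g', hg, -, hgy, hyg, hgap⟩ :=
        grid (L := Nat.log 2 n) hs (show 1 ≤ y by omega) (by omega)
      have hg1 : 1 ≤ g := by
        obtain ⟨a, l, ha, -, -, rfl⟩ := hg
        exact Nat.mul_pos ha (by positivity)
      have hup : ρ + 1 ≤ κ' + g := by
        by_contra hcon
        rcases hgap with hgap | hgap
        · omega
        · have h5 : κ - ρ ≤ g' - g := by omega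
          have := hmul h5
          omega
      exact (H (κ' + g - 1) (by omega) ⟨g, hg, Or.inl (by omega)⟩).2 ⟨by omega, by omega⟩
    · obtain ⟨y, hy⟩ : ∃ y, y = κ' - κ := ⟨_, rfl⟩
      rcases Nat.eq_zero_or_pos y with hy0 | hy0
      · exact (H (κ' - 1) (by omega) ⟨1, gd_one hs, Or.inr (by omega)⟩).2 ⟨by omega, by omega⟩
      · obtain ⟨g, g', -, hg', hgy, hyg, hgap⟩ := grid (L := Nat.log 2 n) hs hy0 (by omega)
        have hup : g' + ρ ≤ κ' := by
          by_contra hcon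
          rcases hgap with hgap | hgap
          · omega
          · have h5 : κ - ρ ≤ g' - g := by omega
            have := hmul h5
            omega
        exact (H (κ' - g') (by omega) ⟨g', hg', Or.inr (by omega)⟩).2 ⟨by omega, by omega⟩

end Pool.Agent.H72.TR
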