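import Pool.Agent.H72.TR.Defs

/-!
# 3SUM in few rounds: the modules (statements)
-/

set_option autoImplicit false

namespace Pool.Agent.H72.TR

open Finset Pool.Agent.K4H88.Ter Pool.Agent.K4H88.Rounds

/-! ## Upper bound -/

/-- the value of the test of the triple -/
def sm {n : ℕ} (x : Fin n → ℤ) (t : Fin n × Fin n × Fin n) : ℤ := x t.1 + x t.2.1 - x t.2.2

/-- the triples whose tests determine the sign for `t` (if the order of the numbers is known) -/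
def G {n : ℕ} (x : Fin n → ℤ) (t : Fin n × Fin n × Fin n) : Finset (Fin n × Fin n × Fin n) :=
  univ.filter fun t' => t' = t ∨
    (x t.1 ≤ x t'.1 ∧ x t.2.1 ≤ x t'.2.1 ∧ x t'.2.2 ≤ x t.2.2 ∧ sm x t' < 0) ∨
    (x t'.1 ≤ x t.1 ∧ x t'.2.1 ≤ x t.2.1 ∧ x t.2.2 ≤ x t'.2.2 ∧ 0 < sm x t')

/-- TREE: the tree for a given assignment of rounds to the triples. -/
def TREE : Prop := ∀ (n r : ℕ) (ω : Fin n × Fin n × Fin n → Fin (r + 1)),
  ∃ F : RTree n (r + 1), Tests SumTest (fun b => b = 0) F ∧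
    (∀ x : Fin n → ℤ, F.eval x = true ↔ HasSum3 x) ∧
    ∀ x : Fin n → ℤ, F.cost x ≤ n ^ 2 + ∑ i : Fin (r + 1),
      (univ.filter fun t => ω t = i ∧ ∀ t' ∈ G x t, i ≤ ω t').card

/-- COUNT: few triples `t` have a small set `G x t`. -/
def COUNT : Prop := ∀ (n : ℕ) (x : Fin n → ℤ), Function.Injective x → ∀ (P : ℝ) (K : ℕ),
  0 < P → P ≤ 1 → 1 ≤ P * K ^ 3 →
    ∑ t : Fin n × Fin n × Fin n, (1 - P) ^ ((G x t).card - 1) ≤ 17 * n ^ 2 * K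

/-- PROB: the probability that `t` is tested in round `i`. -/
def PROB : Prop := ∀ (T : Type) [Fintype T] [DecidableEq T] (r : ℕ) (q : Fin (r + 1) → ℝ),
  (∑ l, q l = 1) → ∀ (t : T) (A : Finset T), t ∈ A → ∀ i : Fin (r + 1),
    ∑ ω : T → Fin (r + 1), (∏ s, q (ω s)) * (if ω t = i ∧ ∀ s ∈ A, i ≤ ω s then 1 else 0) =
      q i * (1 - ∑ l ∈ univ.filter (fun l => l < i), q l) ^ (A.card - 1)

/-- CHOICE: the distribution of the rounds; `P i` is the probability of a round `< i`. -/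
def CHOICE : Prop := ∀ (n r : ℕ), 1 ≤ n → ∃ q : Fin (r + 1) → ℝ, (∀ i, 0 ≤ q i) ∧ ∑ i, q i = 1 ∧
  q 0 * n ^ 3 ≤ (n : ℝ) ^ (2 + 2 / ((3 : ℝ) ^ (r + 1) - 1)) ∧
  ∀ i : Fin (r + 1), i ≠ 0 → ∃ K : ℕ,
    0 < ∑ l ∈ univ.filter (fun l => l < i), q l ∧
    1 ≤ (∑ l ∈ univ.filter (fun l => l < i), q l) * (K : ℝ) ^ 3 ∧
    q i * (n ^ 2 * K) ≤ 2 * (n : ℝ) ^ (2 + 2 / ((3 : ℝ) ^ (r + 1) - 1))

/-- UPPER: the upper bound. -/
def UPPER : Prop := ∀ n r : ℕ, 1 ≤ n →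
  ∃ (Ω : Type) (_ : Fintype Ω) (μ : Ω → ℝ) (F : Ω → RTree n (r + 1)),
    (∀ ω, 0 ≤ μ ω) ∧ ∑ ω, μ ω = 1 ∧ (∀ ω, Tests SumTest (fun b => b = 0) (F ω)) ∧
    (∀ ω, ∀ x : Fin n → ℤ, (F ω).eval x = true ↔ HasSum3 x) ∧
    ∀ x : Fin n → ℤ, Function.Injective x →
      ∑ ω, μ ω * (F ω).cost x ≤ 34 * (r + 1) * (n : ℝ) ^ (2 + 2 / ((3 : ℝ) ^ (r + 1) - 1))

/-! ## Lower bound for two rounds -/

/-- `c` is, up to the sign, the form `x_i + x_j - x_k`. -/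
def IsForm {n : ℕ} (c : Fin n → ℝ) (i j k : Fin n) : Prop :=
  (∀ u, c u = (if i = u then 1 else 0) + (if j = u then 1 else 0) - (if k = u then 1 else 0)) ∨
  (∀ u, -c u = (if i = u then 1 else 0) + (if j = u then 1 else 0) - (if k = u then 1 else 0))

/-- the block of a position -/
def bl {n : ℕ} (w : ℕ) (p : Fin n) : ℕ := p.1 / w

/-- the places `a`, `b`, `c` are in the blocks `A`, `B`, `A + B + 1` -/
def In {n : ℕ} (w A B : ℕ) (a b c : Fin n) : Prop :=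
  bl w a = A ∧ bl w b = B ∧ bl w c = A + B + 1

/-- the outcome of a test -/
noncomputable def out {n : ℕ} (c : Fin n → ℝ) (b : ℝ) (x : Fin n → ℤ) : SignType :=
  SignType.sign (∑ u, c u * (x u : ℝ) + b)

/-- INST: the instances. -/
def INST : Prop := ∀ (n w m S : ℕ), 1 ≤ w → 3 * w * m ≤ n → 1 ≤ S →
  ∃ x : Fin n → ℤ, Function.Injective x ∧ ¬ HasSum3 x ∧
    ∀ (A B : ℕ), A < m → m ≤ B → B < 2 * m → ∀ a b c : Fin n, In w A B a b c →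
      ∃ y z : Fin n → ℤ, Function.Injective y ∧ Function.Injective z ∧ ¬ HasSum3 y ∧ HasSum3 z ∧
        (∀ (L : Fin n → ℝ) (β : ℝ), ThreeTerms L → |β| < S →
          (¬ ∃ i j k, IsForm L i j k ∧ In w A B i j k) →
            out L β y = out L β x ∧ out L β z = out L β x) ∧
        ∀ (L : Fin n → ℝ) (β : ℝ), ThreeTerms L → |β| < S → ¬ IsForm L a b c →
          out L β z = out L β y

/-- AVER: averaging over the permutations. -/
def AVER : Prop := ∀ (n w : ℕ), 1 ≤ w → ∀ i j k : Fin n, i ≠ j → i ≠ k → j ≠ k →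
  (univ.filter fun π : Equiv.Perm (Fin n) => bl w (π i) + bl w (π j) + 1 = bl w (π k)).card *
    (n - 2) ≤ n.factorial * w

/-- the pair of blocks is hit by a test of the first round -/
def Hit {n mm : ℕ} (w : ℕ) (L : Fin mm → Fin n → ℝ) (π : Equiv.Perm (Fin n)) (A B : ℕ) : Prop :=
  ∃ l, ∃ i j k, IsForm (L l) i j k ∧ In w A B (π i) (π j) (π k)

open Classical in
/-- SECOND: the second round tests all triples of the blocks which are not hit. -/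
def SECOND : Prop := ∀ (n w m S : ℕ), 1 ≤ w → 3 * w * m ≤ n → 1 ≤ m → 1 ≤ S →
  ∃ x : Fin n → ℤ, Function.Injective x ∧ ¬ HasSum3 x ∧
    ∀ F : RTree n 2, Tests ThreeTerms (fun b => |b| < S) F →
      (∀ x : Fin n → ℤ, Function.Injective x → (F.eval x = true ↔ HasSum3 x)) →
      ∃ (mm : ℕ) (L : Fin mm → Fin n → ℝ), (∀ l, ThreeTerms (L l)) ∧
        ∀ π : Equiv.Perm (Fin n),
          mm + w ^ 3 * ((range m ×ˢ Ico m (2 * m)).filter fun q => ¬ Hit w L π q.1 q.2).card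
            ≤ F.cost (x ∘ π)

/-- LOWER: the lower bound for two rounds. -/
def LOWER : Prop := ∀ (n w m : ℕ), 1 ≤ w → 3 * w * m ≤ n → w ^ 4 + 2 ≤ n →
  ∀ (Ω : Type) [Fintype Ω] (μ : Ω → ℝ), (∀ ω, 0 ≤ μ ω) → ∑ ω, μ ω = 1 →
    ∀ (F : Ω → RTree n 2) (T : ℝ), (∀ ω, Tests ThreeTerms (fun _ => True) (F ω)) →
      (∀ ω, ∀ x : Fin n → ℤ, Function.Injective x → ((F ω).eval x = true ↔ HasSum3 x)) →
      (∀ x : Fin n → ℤ, Function.Injective x → ¬ HasSum3 x → ∑ ω, μ ω * (F ω).cost x ≤ T) →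
        (w : ℝ) ^ 3 * m ^ 2 ≤ T

/-- NUM: numbers. -/
def NUM : Prop := ∀ n : ℕ, 3 ≤ n → ∃ w m : ℕ, 1 ≤ w ∧ 3 * w * m ≤ n ∧ w ^ 4 + 2 ≤ n ∧
  (n : ℝ) ^ (9 / 4 : ℝ) ≤ 100 * ((w : ℝ) ^ 3 * m ^ 2)

end Pool.Agent.H72.TR
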