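import Pool.Agent.H72.TR.Stm

/-!
# 3SUM in few rounds: the modules of the version with errors and with small numbers
-/

set_option autoImplicit false

namespace Pool.Agent.H72.TR

open Finset Pool.Agent.K4H88.Ter Pool.Agent.K4H88.Rounds

/-- all numbers are in `[1, N]` -/
def Rng {n : ℕ} (N : ℕ) (x : Fin n → ℤ) : Prop := ∀ p, 1 ≤ x p ∧ x p ≤ N

/-- the triples of the boxes `(A, B)`, `A < m ≤ B < 2 m` -/
def Tri (n w m : ℕ) : Finset (Fin n × Fin n × Fin n) :=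
  univ.filter fun t => bl w t.1 < m ∧ m ≤ bl w t.2.1 ∧ bl w t.2.1 < 2 * m ∧
    bl w t.2.2 = bl w t.1 + bl w t.2.1 + 1

/-- INST2: the instances. -/
def INST2 : Prop := ∀ (n w m S : ℕ), 1 ≤ n → 1 ≤ w → 3 * w * m ≤ n → 1 ≤ S →
  ∃ x : Fin n → ℤ, Function.Injective x ∧ Rng (1000 * S * n ^ 2) x ∧ ¬ HasSum3 x ∧
    ∀ t ∈ Tri n w m, ∃ y z : Fin n → ℤ,
      (Function.Injective y ∧ Rng (1000 * S * n ^ 2) y ∧ ¬ HasSum3 y) ∧
      (Function.Injective z ∧ Rng (1000 * S * n ^ 2) z ∧ HasSum3 z) ∧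
        (∀ (L : Fin n → ℝ) (β : ℝ), ThreeTerms L → |β| < S →
          (¬ ∃ i j k, IsForm L i j k ∧ In w (bl w t.1) (bl w t.2.1) i j k) →
            out L β y = out L β x ∧ out L β z = out L β x) ∧
        ∀ (L : Fin n → ℝ) (β : ℝ), ThreeTerms L → |β| < S → ¬ IsForm L t.1 t.2.1 t.2.2 →
          out L β z = out L β y

open Classical in
/-- SECOND2: the second round tests all triples of the boxes which are not hit, if the answers are
correct. -/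
def SECOND2 : Prop := ∀ (n w m S : ℕ), 1 ≤ n → 1 ≤ w → 3 * w * m ≤ n → 1 ≤ S →
  ∃ (x : Fin n → ℤ) (y z : Fin n × Fin n × Fin n → Fin n → ℤ),
    (Function.Injective x ∧ Rng (1000 * S * n ^ 2) x ∧ ¬ HasSum3 x) ∧
    (∀ t ∈ Tri n w m, Function.Injective (y t) ∧ Rng (1000 * S * n ^ 2) (y t) ∧
      ¬ HasSum3 (y t)) ∧
    (∀ t ∈ Tri n w m, Function.Injective (z t) ∧ Rng (1000 * S * n ^ 2) (z t) ∧
      HasSum3 (z t)) ∧
    ∀ F : RTree n 2, Tests ThreeTerms (fun b => |b| < S) F →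
      ∃ (mm : ℕ) (L : Fin mm → Fin n → ℝ), (∀ l, ThreeTerms (L l)) ∧
        ∀ π : Equiv.Perm (Fin n),
          mm + ((Tri n w m).filter fun t => ¬ Hit w L π (bl w t.1) (bl w t.2.1) ∧
            F.eval (y t ∘ π) = false ∧ F.eval (z t ∘ π) = true).card ≤ F.cost (x ∘ π)

/-- TRI: the number of triples. -/
def TRI : Prop := ∀ n w m : ℕ, 1 ≤ w → 3 * w * m ≤ n → (Tri n w m).card = w ^ 3 * m ^ 2

open Classical in
/-- the number of triples in the boxes which are hit -/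
noncomputable def hits (n w m : ℕ) {mm : ℕ} (L : Fin mm → Fin n → ℝ)
    (π : Equiv.Perm (Fin n)) : ℕ :=
  ((Tri n w m).filter fun t : Fin n × Fin n × Fin n => Hit w L π (bl w t.1) (bl w t.2.1)).card

/-- HITS: averaging over the permutations. -/
def HITS : Prop := ∀ (n w m : ℕ), 1 ≤ w → w ^ 4 + 2 ≤ n →
  ∀ (mm : ℕ) (L : Fin mm → Fin n → ℝ),
    ∑ π : Equiv.Perm (Fin n), hits n w m L π ≤ mm * n.factorial

open Classical in
/-- LOWER2: the lower bound for two rounds. -/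
def LOWER2 : Prop := ∀ (n w m S : ℕ), 1 ≤ n → 1 ≤ w → 3 * w * m ≤ n → w ^ 4 + 2 ≤ n → 1 ≤ S →
  ∀ (Ω : Type) [Fintype Ω] (μ : Ω → ℝ), (∀ ω, 0 ≤ μ ω) → ∑ ω, μ ω = 1 →
    ∀ (F : Ω → RTree n 2) (T η : ℝ), (∀ ω, Tests ThreeTerms (fun b => |b| < S) (F ω)) →
      (∀ x : Fin n → ℤ, Function.Injective x → Rng (1000 * S * n ^ 2) x →
        ∑ ω, μ ω * (if ((F ω).eval x = true ↔ HasSum3 x) then 0 else 1) ≤ η) →
      (∀ x : Fin n → ℤ, Function.Injective x → Rng (1000 * S * n ^ 2) x → ¬ HasSum3 x →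
        ∑ ω, μ ω * (F ω).cost x ≤ T) →
        (1 - 2 * η) * ((w : ℝ) ^ 3 * m ^ 2) ≤ T

end Pool.Agent.H72.TR
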