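import Pool.Agent.H72.TR.Stm2

/-!
# 3SUM in few rounds: the modules of the version for sorted lists
-/

set_option autoImplicit false

namespace Pool.Agent.H72.TR

open Finset Pool.Agent.K4H88.Ter Pool.Agent.K4H88.Rounds

/-- the places `i`, `j`, `k` are in the blocks `A`, `B`, `A + B + 1` -/
def InU {n : ℕ} (U : Fin n → ℕ) (A B : ℕ) (i j k : Fin n) : Prop :=
  U i = A ∧ U j = B ∧ U k = A + B + 1

/-- INST3: the instances for sorted lists, the blocks are the fibers of `U`. -/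
def INST3 : Prop := ∀ (n S : ℕ), 1 ≤ n → 1 ≤ S → ∀ U : Fin n → ℕ, Monotone U →
  (∀ p, U p ≤ 2 * n) →
  ∃ x : Fin n → ℤ, (StrictMono x ∧ Rng (2000 * S * n ^ 2) x ∧ ¬ HasSum3 x) ∧
    ∀ a b c : Fin n, U a < U b → U c = U a + U b + 1 → ∃ y z : Fin n → ℤ,
      (StrictMono y ∧ Rng (2000 * S * n ^ 2) y ∧ ¬ HasSum3 y) ∧
      (StrictMono z ∧ Rng (2000 * S * n ^ 2) z ∧ HasSum3 z) ∧
        (∀ (L : Fin n → ℝ) (β : ℝ), ThreeTerms L → |β| < S →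
          (¬ ∃ i j k, IsForm L i j k ∧ InU U (U a) (U b) i j k) →
            out L β y = out L β x ∧ out L β z = out L β x) ∧
        ∀ (L : Fin n → ℝ) (β : ℝ), ThreeTerms L → |β| < S → ¬ IsForm L a b c →
          out L β z = out L β y

/-- the number of tests of the first round -/
def fm {n : ℕ} : {r : ℕ} → RTree n r → ℕ
  | _, RTree.leaf _ => 0
  | _, RTree.round m _ _ _ => m

/-- the forms of the first round -/
def fL {n : ℕ} : {r : ℕ} → (F : RTree n r) → Fin (fm F) → Fin n → ℝ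
  | _, RTree.leaf _ => fun j => j.elim0
  | _, RTree.round _ L _ _ => L

/-- the pair of blocks is hit by a form -/
def HitU {n mm : ℕ} (U : Fin n → ℕ) (L : Fin mm → Fin n → ℝ) (A B : ℕ) : Prop :=
  ∃ l, ∃ i j k, IsForm (L l) i j k ∧ InU U A B i j k

open Classical in
/-- SECOND3: the second round tests all triples of the boxes which are not hit, if the answers are
correct. -/
def SECOND3 : Prop := ∀ (n S : ℕ), 1 ≤ n → 1 ≤ S → ∀ U : Fin n → ℕ, Monotone U →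
  (∀ p, U p ≤ 2 * n) → ∀ 𝒯 : Finset (Fin n × Fin n × Fin n),
  (∀ t ∈ 𝒯, U t.1 < U t.2.1 ∧ U t.2.2 = U t.1 + U t.2.1 + 1) →
  ∃ (x : Fin n → ℤ) (y z : Fin n × Fin n × Fin n → Fin n → ℤ),
    (StrictMono x ∧ Rng (2000 * S * n ^ 2) x ∧ ¬ HasSum3 x) ∧
    (∀ t ∈ 𝒯, StrictMono (y t) ∧ Rng (2000 * S * n ^ 2) (y t) ∧ ¬ HasSum3 (y t)) ∧
    (∀ t ∈ 𝒯, StrictMono (z t) ∧ Rng (2000 * S * n ^ 2) (z t) ∧ HasSum3 (z t)) ∧
    ∀ F : RTree n 2, Tests ThreeTerms (fun b => |b| < S) F →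
      fm F + (𝒯.filter fun t => ¬ HitU U (fL F) (U t.1) (U t.2.1) ∧
        F.eval (y t) = false ∧ F.eval (z t) = true).card ≤ F.cost x

/-- the blocks; the shift `s` is random -/
def Us (n g w s : ℕ) (p : Fin n) : ℕ :=
  if p.1 < 2 * g * w then g + p.1 / w
  else if p.1 < 2 * g * w + s then 3 * g
  else 3 * g + 1 + (p.1 - 2 * g * w - s) / w

/-- the triples -/
def Tr (n g w s : ℕ) : Finset (Fin n × Fin n × Fin n) :=
  univ.filter fun t => t.1.1 < g * w ∧ g * w ≤ t.2.1.1 ∧ t.2.1.1 < 2 * g * w ∧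
    Us n g w s t.2.2 = Us n g w s t.1 + Us n g w s t.2.1 + 1

/-- BLOCKS: the blocks. -/
def BLOCKS : Prop := ∀ n g w s : ℕ, 1 ≤ w → 1 ≤ g → 5 * g * w ≤ n → s < g * w →
  Monotone (Us n g w s) ∧ (∀ p, Us n g w s p ≤ 2 * n) ∧
  (∀ t ∈ Tr n g w s, Us n g w s t.1 < Us n g w s t.2.1) ∧
  (Tr n g w s).card = g ^ 2 * w ^ 3

open Classical in
/-- the number of triples in the boxes which are hit -/
noncomputable def hitsU (n g w s : ℕ) {mm : ℕ} (L : Fin mm → Fin n → ℝ) : ℕ :=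
  ((Tr n g w s).filter fun t : Fin n × Fin n × Fin n =>
    HitU (Us n g w s) L (Us n g w s t.1) (Us n g w s t.2.1)).card

/-- HITS3: averaging over the shift. -/
def HITS3 : Prop := ∀ n g w : ℕ, 1 ≤ w → 1 ≤ g → 5 * g * w ≤ n → w ^ 3 ≤ g →
  ∀ (mm : ℕ) (L : Fin mm → Fin n → ℝ), ∑ s ∈ range (g * w), hitsU n g w s L ≤ mm * (g * w)

open Classical in
/-- LOWER3: the lower bound for two rounds. -/
def LOWER3 : Prop := ∀ (n g w S : ℕ), 1 ≤ w → 1 ≤ g → 5 * g * w ≤ n → w ^ 3 ≤ g → 1 ≤ S →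
  ∀ (Ω : Type) [Fintype Ω] (μ : Ω → ℝ), (∀ ω, 0 ≤ μ ω) → ∑ ω, μ ω = 1 →
    ∀ (F : Ω → RTree n 2) (T η : ℝ), (∀ ω, Tests ThreeTerms (fun b => |b| < S) (F ω)) →
      (∀ x : Fin n → ℤ, StrictMono x → Rng (2000 * S * n ^ 2) x →
        ∑ ω, μ ω * (if ((F ω).eval x = true ↔ HasSum3 x) then 0 else 1) ≤ η) →
      (∀ x : Fin n → ℤ, StrictMono x → Rng (2000 * S * n ^ 2) x → ¬ HasSum3 x →
        ∑ ω, μ ω * (F ω).cost x ≤ T) →
        (1 - 2 * η) * ((g : ℝ) ^ 2 * w ^ 3) ≤ T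

/-- NUM3: numbers. -/
def NUM3 : Prop := ∀ n : ℕ, 5 ≤ n → ∃ w g : ℕ, 1 ≤ w ∧ 1 ≤ g ∧ 5 * g * w ≤ n ∧ w ^ 3 ≤ g ∧
  (n : ℝ) ^ (9 / 4 : ℝ) ≤ 300 * ((g : ℝ) ^ 2 * w ^ 3)

end Pool.Agent.H72.TR
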