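import Pool.Agent.H72.TR.Stm

/-!
# 3SUM in three rounds: the modules (statements)
-/

set_option autoImplicit false

namespace Pool.Agent.H72.TR

open Finset Pool.Agent.K4H88.Ter Pool.Agent.K4H88.Rounds

/-- the order of the numbers -/
def Ord {n : ℕ} (x : Fin n → ℤ) : Fin n × Fin n → Bool := fun p => decide (x p.1 < x p.2)

/-- the labels of the triples -/
def Lab {n : ℕ} (x : Fin n → ℤ) : Fin n × Fin n × Fin n → Bool := fun t => decide (0 < sm x t)

/-- only the labels in `Q` are visible -/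
def mask {τ : Type} [DecidableEq τ] (Q : Finset τ) (b : τ → Bool) : τ → Bool :=
  fun t => if t ∈ Q then b t else false

/-- MINIMAX: from distributions of the inputs to random strategies. -/
def MINIMAX : Prop := ∀ (X 𝓕 : Type) [Fintype X] [Nonempty X] (c : 𝓕 → X → ℝ) (C C' : ℝ), C < C' →
  (∀ D : X → ℝ, (∀ x, 0 ≤ D x) → ∑ x, D x = 1 → ∃ f, ∑ x, D x * c f x ≤ C) →
  ∃ (Ω : Type) (_ : Fintype Ω) (μ : Ω → ℝ) (F : Ω → 𝓕), (∀ ω, 0 ≤ μ ω) ∧ ∑ ω, μ ω = 1 ∧
    ∀ x, ∑ ω, μ ω * c (F ω) x ≤ C'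

open Classical in
/-- LEARN: few labels suffice to guess most of the labels, on average. -/
def LEARN : Prop := ∀ (X τ κ : Type) [Fintype X] [Fintype τ] [DecidableEq τ]
  (b : X → τ → Bool) (o : X → κ) (N T : ℕ), 1 ≤ T →
  (univ.image fun x => (o x, b x)).card ≤ N → ∀ D : X → ℝ, (∀ x, 0 ≤ D x) → ∑ x, D x = 1 →
  ∃ (Q : Finset τ) (G : κ → (τ → Bool) → X), Q.card ≤ T ∧
    (∀ x, o (G (o x) (mask Q (b x))) = o x) ∧
    ∑ x, D x * (univ.filter fun t => b (G (o x) (mask Q (b x))) t ≠ b x t).card ≤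
      Fintype.card τ * Real.log N / T

open Classical in
/-- PATS: the number of patterns. -/
def PATS : Prop := ∀ (n : ℕ) (X : Type) [Fintype X] (xx : X → Fin n → ℤ),
  (univ.image fun x => (Ord (xx x), Lab (xx x))).card ≤ (n ^ 3 + n ^ 2 + 1) ^ n

/-- the triples whose labels do not follow from the tests of the triples in `R` -/
def Und {n : ℕ} (x : Fin n → ℤ) (R : Finset (Fin n × Fin n × Fin n)) :
    Finset (Fin n × Fin n × Fin n) :=
  univ.filter fun t => ∀ t' ∈ R, t'.1 = t.1 → t'.2.1 = t.2.1 →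
    ¬ (x t'.2.2 ≤ x t.2.2 ∧ sm x t' < 0) ∧ ¬ (x t.2.2 ≤ x t'.2.2 ∧ 0 < sm x t')

/-- TREE3: the tree with three rounds, for given tests `Q` of the first and `R` of the second
round; in the third round all remaining triples are tested. -/
def TREE3 : Prop := ∀ (n : ℕ) (Q : Finset (Fin n × Fin n × Fin n))
  (R : (Fin n × Fin n → Bool) → (Fin n × Fin n × Fin n → Bool) → Finset (Fin n × Fin n × Fin n)),
  ∃ F : RTree n 3, Tests SumTest (fun b => b = 0) F ∧
    (∀ x : Fin n → ℤ, Function.Injective x → (F.eval x = true ↔ HasSum3 x)) ∧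
    ∀ x : Fin n → ℤ, Function.Injective x →
      F.cost x ≤ n ^ 2 + Q.card + (R (Ord x) (mask Q (Lab x))).card +
        (Und x (R (Ord x) (mask Q (Lab x)))).card

/-- the rank of a number -/
def rk {n : ℕ} (x : Fin n → ℤ) (k : Fin n) : ℕ := (univ.filter fun u => x u < x k).card

/-- the number of numbers below the sum -/
def below {n : ℕ} (x : Fin n → ℤ) (i j : Fin n) : ℕ := (univ.filter fun k => x k < x i + x j).card

open Classical in
/-- the tests of the second round, if the numbers are like `v` -/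
noncomputable def Rset {n : ℕ} (v : Fin n → ℤ) : Finset (Fin n × Fin n × Fin n) :=
  univ.filter fun t => ∃ l ∈ range (Nat.log 2 n + 2),
    rk v t.2.2 + 1 = below v t.1 t.2.1 + 2 ^ l ∨ rk v t.2.2 + 2 ^ l = below v t.1 t.2.1

/-- ROWS1: the number of tests of the second round. -/
def ROWS1 : Prop := ∀ (n : ℕ) (v : Fin n → ℤ), Function.Injective v →
  (Rset v).card ≤ n ^ 2 * (2 * (Nat.log 2 n + 2))

/-- ROWS2: the number of tests of the third round. -/
def ROWS2 : Prop := ∀ (n : ℕ) (x v : Fin n → ℤ), Function.Injective x → Function.Injective v →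
  Ord x = Ord v →
    (Und x (Rset v)).card ≤ n ^ 2 + 2 * (univ.filter fun t => Lab v t ≠ Lab x t).card

/-- INV: the trees with sum tests only see the signs. -/
def INV : Prop := ∀ (n r : ℕ) (F : RTree n r), Tests SumTest (fun b => b = 0) F →
  ∀ x v : Fin n → ℤ, (∀ t, SignType.sign (sm x t) = SignType.sign (sm v t)) →
    (∀ i j, SignType.sign (x i - x j) = SignType.sign (v i - v j)) → F.cost x = F.cost v

/-- THREE: three rounds. -/
def THREE : Prop := ∀ n : ℕ, 1 ≤ n →
  ∃ (Ω : Type) (_ : Fintype Ω) (μ : Ω → ℝ) (F : Ω → RTree n 3),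
    (∀ ω, 0 ≤ μ ω) ∧ ∑ ω, μ ω = 1 ∧ (∀ ω, Tests SumTest (fun b => b = 0) (F ω)) ∧
    (∀ ω, ∀ x : Fin n → ℤ, Function.Injective x → ((F ω).eval x = true ↔ HasSum3 x)) ∧
    ∀ x : Fin n → ℤ, Function.Injective x →
      ∑ ω, μ ω * (F ω).cost x ≤ 20 * (n : ℝ) ^ 2 * (Nat.log 2 n + 1)

end Pool.Agent.H72.TR
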