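import Pool.Agent.H72.TR.Stm4

/-!
# 3SUM in five rounds: the modules (statements)
-/

set_option autoImplicit false

namespace Pool.Agent.H72.TR

open Finset Pool.Agent.K4H88.Ter Pool.Agent.K4H88.Rounds

open Classical in
/-- the number of rows where the labels differ -/
noncomputable def wr {τ ι : Type} [Fintype ι] (row : τ → ι) (f g : τ → Bool) : ℕ :=
  (univ.filter fun i : ι => ∃ t, row t = i ∧ f t ≠ g t).card

open Classical in
/-- LEARN5: two rounds of learning. -/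
def LEARN5 : Prop := ∀ (X τ ι κ : Type) [Fintype X] [Fintype τ] [DecidableEq τ] [Fintype ι]
  (row : τ → ι) (b : X → τ → Bool) (o : X → κ) (N T : ℕ) (θ α β : ℝ),
  1 ≤ T → 0 < θ → 0 ≤ α → 0 ≤ β →
  (∀ x x', o x = o x' → ∀ i, (∀ t, row t = i → b x t = true → b x' t = true) ∨
    (∀ t, row t = i → b x' t = true → b x t = true)) →
  (univ.image fun x => (o x, b x)).card ≤ N → ∀ D : X → ℝ, (∀ x, 0 ≤ D x) → ∑ x, D x = 1 →
  ∃ (Q1 : Finset τ) (Q2 : κ → (τ → Bool) → Finset τ)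
    (G : κ → (τ → Bool) → (τ → Bool) → X) (g : X → X),
    (∀ x, g x = G (o x) (mask Q1 (b x)) (mask (Q2 (o x) (mask Q1 (b x))) (b x))) ∧
    Q1.card ≤ T ∧ (∀ c l, (Q2 c l).card ≤ T) ∧ (∀ x, o (g x) = o x) ∧
    ∑ x, D x * (α * (univ.filter fun t => b (g x) t ≠ b x t).card +
        β * wr row (b (g x)) (b x)) ≤
      α * (Fintype.card τ * (Real.log N / T)) +
        β * (4 * θ * Fintype.card ι + Fintype.card τ * (Real.log N / T) ^ 2 / θ)

/-- TREE5: the tree with five rounds. -/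
def TREE5 : Prop := ∀ (n : ℕ) (Q1 : Finset (Fin n × Fin n × Fin n))
  (Q2 : (Fin n × Fin n → Bool) → (Fin n × Fin n × Fin n → Bool) → Finset (Fin n × Fin n × Fin n))
  (Q3 : (Fin n × Fin n → Bool) → (Fin n × Fin n × Fin n → Bool) →
    (Fin n × Fin n × Fin n → Bool) → Finset (Fin n × Fin n × Fin n))
  (Q4 : (Fin n × Fin n → Bool) → (Fin n × Fin n × Fin n → Bool) →
    (Fin n × Fin n × Fin n → Bool) → (Fin n × Fin n × Fin n → Bool) →
      Finset (Fin n × Fin n × Fin n)),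
  ∃ F : RTree n 5, Tests SumTest (fun b => b = 0) F ∧
    (∀ x : Fin n → ℤ, Function.Injective x → (F.eval x = true ↔ HasSum3 x)) ∧
    ∀ x : Fin n → ℤ, Function.Injective x → ∀ S2 S3 S4 : Finset (Fin n × Fin n × Fin n),
      S2 = Q2 (Ord x) (mask Q1 (Lab x)) →
      S3 = Q3 (Ord x) (mask Q1 (Lab x)) (mask S2 (Lab x)) →
      S4 = Q4 (Ord x) (mask Q1 (Lab x)) (mask S2 (Lab x)) (mask S3 (Lab x)) →
      F.cost x ≤ n ^ 2 + Q1.card + S2.card + S3.card + S4.card + (Und x (S3 ∪ S4)).card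

open Classical in
/-- the tests of the third round: the places next to the guess -/
noncomputable def Ver {n : ℕ} (v : Fin n → ℤ) : Finset (Fin n × Fin n × Fin n) :=
  univ.filter fun t => rk v t.2.2 + 1 = below v t.1 t.2.1 ∨ rk v t.2.2 = below v t.1 t.2.1 ∨
    rk v t.2.2 = below v t.1 t.2.1 + 1

open Classical in
/-- the tests of the fourth round: a grid around the guess, in the rows with a wrong guess -/
noncomputable def Gset {n : ℕ} (v : Fin n → ℤ) (lab : Fin n × Fin n × Fin n → Bool) :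
    Finset (Fin n × Fin n × Fin n) :=
  univ.filter fun t => (∃ t' ∈ Ver v, t'.1 = t.1 ∧ t'.2.1 = t.2.1 ∧ lab t' ≠ Lab v t') ∧
    ∃ a l : ℕ, 1 ≤ a ∧ a ≤ 2 * (Nat.log 2 n + 1) ∧ l ≤ Nat.log 2 n + 1 ∧
      (rk v t.2.2 + 1 = below v t.1 t.2.1 + a * 2 ^ l ∨
        rk v t.2.2 + a * 2 ^ l = below v t.1 t.2.1)

/-- the row of a triple -/
def rw3 {n : ℕ} (t : Fin n × Fin n × Fin n) : Fin n × Fin n := (t.1, t.2.1)

/-- ROWS5A: the number of tests of the third round. -/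
def ROWS5A : Prop := ∀ (n : ℕ) (v : Fin n → ℤ), Function.Injective v → (Ver v).card ≤ 3 * n ^ 2

/-- ROWS5B: the number of tests of the fourth round. -/
def ROWS5B : Prop := ∀ (n : ℕ) (x v : Fin n → ℤ), Function.Injective v →
  (Gset v (mask (Ver v) (Lab x))).card ≤
    wr rw3 (Lab v) (Lab x) * (4 * (Nat.log 2 n + 1) * (Nat.log 2 n + 2))

/-- ROWS5C: the number of tests of the fifth round. -/
def ROWS5C : Prop := ∀ (n : ℕ) (x v : Fin n → ℤ), Function.Injective x → Function.Injective v →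
  Ord x = Ord v →
    (Nat.log 2 n + 1) * (Und x (Ver v ∪ Gset v (mask (Ver v) (Lab x)))).card ≤
      (Nat.log 2 n + 1) * n ^ 2 + 4 * (univ.filter fun t => Lab v t ≠ Lab x t).card

/-- CHAINS: the labels of a row are nested, for lists with the same order. -/
def CHAINS : Prop := ∀ (n : ℕ) (x v : Fin n → ℤ), Ord x = Ord v → ∀ i : Fin n × Fin n,
  (∀ t, rw3 t = i → Lab x t = true → Lab v t = true) ∨
    (∀ t, rw3 t = i → Lab v t = true → Lab x t = true)

/-- POW6: numbers. -/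
def POW6 : Prop := ∀ L : ℕ, (L + 2) ^ 6 ≤ 4152 * 2 ^ L

/-- FIVE: five rounds. -/
def FIVE : Prop := ∀ n : ℕ, 1 ≤ n →
  ∃ (Ω : Type) (_ : Fintype Ω) (μ : Ω → ℝ) (F : Ω → RTree n 5),
    (∀ ω, 0 ≤ μ ω) ∧ ∑ ω, μ ω = 1 ∧ (∀ ω, Tests SumTest (fun b => b = 0) (F ω)) ∧
    (∀ ω, ∀ x : Fin n → ℤ, Function.Injective x → ((F ω).eval x = true ↔ HasSum3 x)) ∧
    ∀ x : Fin n → ℤ, Function.Injective x → ∑ ω, μ ω * (F ω).cost x ≤ 100000 * (n : ℝ) ^ 2

end Pool.Agent.H72.TR
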