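import Pool.Agent.H72.TR.Stm

/-!
# 3SUM in few rounds: the tree for a given assignment of rounds to the triples (helper52)
-/

set_option autoImplicit false

namespace Pool.Agent.H72.TR

open Finset Pool.Agent.K4H88.Ter Pool.Agent.K4H88.Rounds

namespace TreeAux

variable {n : ℕ}

/-- the value of a test -/
def vl (x : Fin n → ℤ) : (Fin n × Fin n) ⊕ (Fin n × Fin n × Fin n) → ℤ
  | Sum.inl q => x q.1 - x q.2
  | Sum.inr t => sm x t

/-- the form of a test -/
def frm : (Fin n × Fin n) ⊕ (Fin n × Fin n × Fin n) → Fin n → ℝ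
  | Sum.inl q => fun u => (if q.1 = u then 1 else 0) - (if q.2 = u then 1 else 0)
  | Sum.inr t => fun u => (if t.1 = u then 1 else 0) + (if t.2.1 = u then 1 else 0)
      - (if t.2.2 = u then 1 else 0)

theorem frm_sum (x : Fin n → ℤ) (a : (Fin n × Fin n) ⊕ (Fin n × Fin n × Fin n)) :
    ∑ u, frm a u * (x u : ℝ) + 0 = (vl x a : ℝ) := by
  rcases a with q | t
  · simp [frm, vl, sub_mul, sum_sub_distrib]
  · simp [frm, vl, sm, sub_mul, add_mul, sum_sub_distrib, sum_add_distrib]

theorem frm_test (a : (Fin n × Fin n) ⊕ (Fin n × Fin n × Fin n)) : SumTest (frm a) := by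
  rcases a with q | t
  · exact Or.inr ⟨q.1, q.2, fun u => rfl⟩
  · exact Or.inl ⟨t.1, t.2.1, t.2.2, fun u => rfl⟩

/-- the outcome of a test -/
noncomputable def sg (x : Fin n → ℤ) (a : (Fin n × Fin n) ⊕ (Fin n × Fin n × Fin n)) : SignType :=
  SignType.sign (vl x a)

theorem sign_cast (z : ℤ) : SignType.sign (z : ℝ) = SignType.sign z := by
  rcases lt_trichotomy z 0 with h | h | h
  · rw [sign_neg h, sign_neg (by exact_mod_cast h)]
  · subst h
    simp
  · rw [sign_pos h, sign_pos (by exact_mod_cast h)]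

/-- the round in which the test can be made -/
def rd (ω : Fin n × Fin n × Fin n → ℕ) : (Fin n × Fin n) ⊕ (Fin n × Fin n × Fin n) → ℕ
  | Sum.inl _ => 0
  | Sum.inr t => ω t

open Classical in
/-- the tests of the round `j`, if the set of the possible inputs is `X` -/
noncomputable def tst (ω : Fin n × Fin n × Fin n → ℕ) (j : ℕ) (X : Set (Fin n → ℤ)) :
    Finset ((Fin n × Fin n) ⊕ (Fin n × Fin n × Fin n)) :=
  univ.filter fun a => rd ω a = j ∧ ∃ y ∈ X, ∃ z ∈ X, sg y a ≠ sg z a

theorem mem_tst {ω : Fin n × Fin n × Fin n → ℕ} {j : ℕ} {X : Set (Fin n → ℤ)}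
    {a : (Fin n × Fin n) ⊕ (Fin n × Fin n × Fin n)} :
    a ∈ tst ω j X ↔ rd ω a = j ∧ ∃ y ∈ X, ∃ z ∈ X, sg y a ≠ sg z a := by
  classical
  unfold tst
  simp only [mem_filter, mem_univ, true_and]

/-- the forms of the tests of the round `j` -/
noncomputable def lst (ω : Fin n × Fin n × Fin n → ℕ) (j : ℕ) (X : Set (Fin n → ℤ)) :
    Fin (tst ω j X).card → Fin n → ℝ :=
  fun l => frm ((tst ω j X).equivFin.symm l).1

/-- the tree -/
noncomputable def bld (ω : Fin n × Fin n × Fin n → ℕ) :
    (s : ℕ) → (j : ℕ) → Set (Fin n → ℤ) → RTree n s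
  | 0, _, X => RTree.leaf (@decide (∃ y ∈ X, HasSum3 y) (Classical.dec _))
  | s + 1, j, X => RTree.round (tst ω j X).card (lst ω j X) (fun _ => 0)
      (fun σ => bld ω s (j + 1) {y | y ∈ X ∧ signs (lst ω j X) (fun _ => 0) y = σ})

theorem signs_eq {ω : Fin n × Fin n × Fin n → ℕ} {j : ℕ} {X : Set (Fin n → ℤ)}
    {x y : Fin n → ℤ} (h : signs (lst ω j X) (fun _ => 0) y = signs (lst ω j X) (fun _ => 0) x)
    {a : (Fin n × Fin n) ⊕ (Fin n × Fin n × Fin n)} (ha : a ∈ tst ω j X) : sg y a = sg x a := by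
  have h1 := congrFun h ((tst ω j X).equivFin ⟨a, ha⟩)
  unfold Pool.Agent.K4H88.Rounds.signs lst at h1
  rw [Equiv.symm_apply_apply, frm_sum, frm_sum, sign_cast, sign_cast] at h1
  exact h1

/-- the outcomes of the tests of the rounds before `j` are known -/
def Kn (ω : Fin n × Fin n × Fin n → ℕ) (j : ℕ) (X : Set (Fin n → ℤ)) : Prop :=
  ∀ a, rd ω a < j → ∀ y ∈ X, ∀ z ∈ X, sg y a = sg z a

theorem Kn.step {ω : Fin n × Fin n × Fin n → ℕ} {j : ℕ} {X : Set (Fin n → ℤ)} (hK : Kn ω j X)
    (σ : Fin (tst ω j X).card → SignType) :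
    Kn ω (j + 1) {y | y ∈ X ∧ signs (lst ω j X) (fun _ => 0) y = σ} := by
  intro a ha y hy z hz
  by_cases h : rd ω a < j
  · exact hK a h y hy.1 z hz.1
  · have h1 : rd ω a = j := by omega
    by_cases h2 : a ∈ tst ω j X
    · exact signs_eq (hy.2.trans hz.2.symm) h2
    · by_contra h3
      apply h2
      exact mem_tst.2 ⟨h1, y, hy.1, z, hz.1, h3⟩

theorem bld_tests (ω : Fin n × Fin n × Fin n → ℕ) (s : ℕ) : ∀ (j : ℕ) (X : Set (Fin n → ℤ)),
    Tests SumTest (fun b => b = 0) (bld ω s j X) := by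
  induction s with
  | zero =>
    intro j X
    unfold bld Tests
    trivial
  | succ s ih =>
    intro j X
    unfold bld Tests
    exact ⟨fun l => ⟨frm_test _, rfl⟩, fun σ => ih _ _⟩

theorem bld_eval (ω : Fin n × Fin n × Fin n → ℕ) (s : ℕ) : ∀ (j : ℕ) (X : Set (Fin n → ℤ)),
    (∀ a, rd ω a < j + s) → Kn ω j X → ∀ x ∈ X, ((bld ω s j X).eval x = true ↔ HasSum3 x) := by
  induction s with
  | zero =>
    intro j X hj hK x hx
    unfold bld RTree.eval
    rw [@decide_eq_true_iff _ (Classical.dec _)]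
    constructor
    · rintro ⟨y, hy, i, k, l, h1, h2, h3, h4⟩
      refine ⟨i, k, l, h1, h2, h3, ?_⟩
      have h5 := hK (Sum.inr (i, k, l)) (by simpa using hj _) y hy x hx
      unfold sg vl sm at h5
      have h6 : y i + y k - y l = 0 := by omega
      simp only [h6, sign_zero] at h5
      have h7 := sign_eq_zero_iff.1 h5.symm
      omega
    · intro h
      exact ⟨x, hx, h⟩
  | succ s ih =>
    intro j X hj hK x hx
    unfold bld RTree.eval
    exact ih _ _ (fun a => by have := hj a; omega) (hK.step _) x ⟨hx, rfl⟩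

theorem sg_le {x y : Fin n → ℤ} {a b : Fin n} (h : sg y (Sum.inl (a, b)) = sg x (Sum.inl (a, b)))
    (h2 : x a ≤ x b) : y a ≤ y b := by
  unfold sg vl at h
  simp only at h
  by_contra h3
  rw [sign_pos (by omega : 0 < y a - y b)] at h
  have := sign_eq_one_iff.1 h.symm
  omega

open Classical in
/-- the tests which can be made in the round `i` for the input `x` -/
noncomputable def pos (ω : Fin n × Fin n × Fin n → ℕ) (x : Fin n → ℤ) (i : ℕ) :
    Finset ((Fin n × Fin n) ⊕ (Fin n × Fin n × Fin n)) :=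
  univ.filter fun a => rd ω a = i ∧ ∀ t, a = Sum.inr t → ∀ t' ∈ G x t, i ≤ ω t'

theorem tst_sub {ω : Fin n × Fin n × Fin n → ℕ} {j : ℕ} {X : Set (Fin n → ℤ)} (hK : Kn ω j X)
    {x : Fin n → ℤ} (hx : x ∈ X) : tst ω j X ⊆ pos ω x j := by
  intro a ha
  obtain ⟨h1, y, hy, z, hz, hyz⟩ := mem_tst.1 ha
  unfold pos
  refine mem_filter.2 ⟨mem_univ _, h1, ?_⟩
  rintro t rfl t' ht'
  by_contra hlt
  push Not at hlt
  have hj : 0 < j := by omega
  have hc : ∀ u v : Fin n, ∀ w ∈ X, x u ≤ x v → w u ≤ w v := by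
    intro u v w hw
    exact sg_le (hK (Sum.inl (u, v)) hj w hw x hx)
  have ht : ∀ w ∈ X, SignType.sign (sm w t') = SignType.sign (sm x t') := by
    intro w hw
    exact hK (Sum.inr t') hlt w hw x hx
  unfold G at ht'
  rw [mem_filter] at ht'
  obtain ⟨-, h | ⟨h3, h4, h5, h6⟩ | ⟨h3, h4, h5, h6⟩⟩ := ht'
  · rw [h] at hlt
    have h1' : ω t = j := h1
    omega
  · have key : ∀ w ∈ X, sg w (Sum.inr t) = -1 := by
      intro w hw
      unfold sg vl
      simp only
      rw [sign_eq_neg_one_iff]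
      have g1 := hc _ _ w hw h3
      have g2 := hc _ _ w hw h4
      have g3 := hc _ _ w hw h5
      have g4 := ht w hw
      rw [sign_neg h6] at g4
      have g5 := sign_eq_neg_one_iff.1 g4
      unfold sm at g5 ⊢
      omega
    exact hyz ((key y hy).trans (key z hz).symm)
  · have key : ∀ w ∈ X, sg w (Sum.inr t) = 1 := by
      intro w hw
      unfold sg vl
      simp only
      rw [sign_eq_one_iff]
      have g1 := hc _ _ w hw h3
      have g2 := hc _ _ w hw h4
      have g3 := hc _ _ w hw h5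
      have g4 := ht w hw
      rw [sign_pos h6] at g4
      have g5 := sign_eq_one_iff.1 g4
      unfold sm at g5 ⊢
      omega
    exact hyz ((key y hy).trans (key z hz).symm)

theorem bld_cost (ω : Fin n × Fin n × Fin n → ℕ) (s : ℕ) : ∀ (j : ℕ) (X : Set (Fin n → ℤ)),
    Kn ω j X → ∀ x ∈ X, (bld ω s j X).cost x ≤ ∑ i ∈ range s, (pos ω x (j + i)).card := by
  induction s with
  | zero =>
    intro j X hK x hx
    unfold bld RTree.cost
    simp
  | succ s ih =>
    intro j X hK x hx
    unfold bld RTree.cost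
    rw [sum_range_succ', add_comm]
    apply add_le_add
    · refine (ih _ _ (hK.step _) x ⟨hx, rfl⟩).trans (le_of_eq ?_)
      refine sum_congr rfl fun i _ => ?_
      congr 2
      omega
    · exact card_le_card (tst_sub hK hx)

theorem pos_card (ω : Fin n × Fin n × Fin n → ℕ) (x : Fin n → ℤ) (i : ℕ) :
    (pos ω x i).card ≤ (if i = 0 then n ^ 2 else 0) +
      (univ.filter fun t => ω t = i ∧ ∀ t' ∈ G x t, i ≤ ω t').card := by
  classical
  have h1 : pos ω x i ⊆ ((if i = 0 then (univ : Finset (Fin n × Fin n)) else ∅).map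
      ⟨Sum.inl, Sum.inl_injective⟩) ∪
      ((univ.filter fun t => ω t = i ∧ ∀ t' ∈ G x t, i ≤ ω t').map
        ⟨Sum.inr, Sum.inr_injective⟩) := by
    intro a ha
    unfold pos at ha
    rw [mem_filter] at ha
    obtain ⟨-, h2, h3⟩ := ha
    rw [mem_union, mem_map, mem_map]
    rcases a with q | t
    · left
      have h4 : i = 0 := h2.symm
      rw [if_pos h4]
      exact ⟨q, mem_univ _, rfl⟩
    · right
      refine ⟨t, ?_, rfl⟩
      rw [mem_filter]
      exact ⟨mem_univ _, h2, h3 t rfl⟩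
  refine (card_le_card h1).trans ((card_union_le _ _).trans ?_)
  rw [card_map, card_map]
  apply Nat.add_le_add_right
  by_cases h : i = 0
  · rw [if_pos h, if_pos h]
    simp [sq]
  · rw [if_neg h, if_neg h]
    simp

end TreeAux

open TreeAux in
theorem tree : TREE := by
  intro n r ω
  refine ⟨bld (fun t => (ω t : ℕ)) (r + 1) 0 Set.univ, bld_tests _ _ _ _, ?_, ?_⟩
  · intro x
    refine bld_eval _ _ _ _ ?_ ?_ x (Set.mem_univ _)
    · intro a
      rcases a with q | t
      · show 0 < 0 + (r + 1)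
        omega
      · show (ω t : ℕ) < 0 + (r + 1)
        have := (ω t).2
        omega
    · intro a ha
      omega
  · intro x
    have hK : Kn (fun t => (ω t : ℕ)) 0 (Set.univ : Set (Fin n → ℤ)) := by
      intro a ha
      omega
    refine (bld_cost _ _ _ _ hK x (Set.mem_univ _)).trans ?_
    rw [← Fin.sum_univ_eq_sum_range (fun i => (pos (fun t => (ω t : ℕ)) x (0 + i)).card) (r + 1)]
    calc ∑ i : Fin (r + 1), (pos (fun t => (ω t : ℕ)) x (0 + i)).card
        ≤ ∑ i : Fin (r + 1), ((if i = 0 then n ^ 2 else 0) +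
          (univ.filter fun t => ω t = i ∧ ∀ t' ∈ G x t, i ≤ ω t').card) := by
          refine sum_le_sum fun i _ => ?_
          have h := pos_card (fun t => (ω t : ℕ)) x (0 + i)
          refine h.trans (le_of_eq ?_)
          congr 1
          · simp only [zero_add, Fin.val_eq_zero_iff]
          · congr 1
            ext t
            simp only [mem_filter, mem_univ, true_and, zero_add, Fin.ext_iff, Fin.le_def]
      _ = n ^ 2 + ∑ i : Fin (r + 1),
          (univ.filter fun t => ω t = i ∧ ∀ t' ∈ G x t, i ≤ ω t').card := by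
          rw [sum_add_distrib, sum_ite_eq' univ (0 : Fin (r + 1))]
          simp

end Pool.Agent.H72.TR
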