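import Pool.Agent.H72.TR.Stm

/-!
# 3SUM in few rounds: the upper bound
-/

set_option autoImplicit false

namespace Pool.Agent.H72.TR

open Finset Pool.Agent.K4H88.Ter Pool.Agent.K4H88.Rounds

theorem self_mem_G {n : ℕ} (x : Fin n → ℤ) (t : Fin n × Fin n × Fin n) : t ∈ G x t := by
  simp [G]

theorem upper (hT : TREE) (hC : COUNT) (hP : PROB) (hQ : CHOICE) : UPPER := by
  classical
  intro n r hn
  obtain ⟨q, hq0, hq1, hq2, hq3⟩ := hQ n r hn
  set N : ℝ := (n : ℝ) ^ (2 + 2 / ((3 : ℝ) ^ (r + 1) - 1)) with hN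
  choose F hF1 hF2 hF3 using hT n r
  have hn1 : (1 : ℝ) ≤ n := by exact_mod_cast hn
  have hden : (0 : ℝ) ≤ 2 / ((3 : ℝ) ^ (r + 1) - 1) := by
    apply div_nonneg (by norm_num)
    have : (1 : ℝ) ≤ (3 : ℝ) ^ (r + 1) := one_le_pow₀ (by norm_num)
    linarith
  have hnN : (n : ℝ) ^ 2 ≤ N := by
    rw [hN, ← Real.rpow_natCast]
    apply Real.rpow_le_rpow_of_exponent_le hn1
    push_cast
    linarith
  have hN0 : 0 ≤ N := le_trans (by positivity) hnN
  refine ⟨Fin n × Fin n × Fin n → Fin (r + 1), inferInstance, fun ω => ∏ s, q (ω s), F,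
    fun ω => Finset.prod_nonneg fun s _ => hq0 _, ?_, hF1, hF2, ?_⟩
  · have h := Finset.prod_univ_sum (fun _ : Fin n × Fin n × Fin n => (univ : Finset (Fin (r + 1))))
      (fun _ l => q l)
    simp only [hq1, Finset.prod_const_one] at h
    rw [Fintype.piFinset_univ] at h
    exact h.symm
  · intro x hx
    have hmu : ∑ ω : Fin n × Fin n × Fin n → Fin (r + 1), ∏ s, q (ω s) = 1 := by
      have h := Finset.prod_univ_sum
        (fun _ : Fin n × Fin n × Fin n => (univ : Finset (Fin (r + 1)))) (fun _ l => q l)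
      simp only [hq1, Finset.prod_const_one] at h
      rw [Fintype.piFinset_univ] at h
      exact h.symm
    have h1 : ∀ ω : Fin n × Fin n × Fin n → Fin (r + 1),
        (∏ s, q (ω s)) * ((F ω).cost x : ℝ) ≤ (∏ s, q (ω s)) * (n : ℝ) ^ 2 +
          ∑ i : Fin (r + 1), ∑ t : Fin n × Fin n × Fin n,
            (∏ s, q (ω s)) * (if ω t = i ∧ ∀ s ∈ G x t, i ≤ ω s then 1 else 0) := by
      intro ω
      have h2 : ((F ω).cost x : ℝ) ≤ (n : ℝ) ^ 2 + ∑ i : Fin (r + 1),
          ∑ t : Fin n × Fin n × Fin n, (if ω t = i ∧ ∀ s ∈ G x t, i ≤ ω s then (1 : ℝ) else 0) := by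
        have h3 := hF3 ω x
        have h4 : ((F ω).cost x : ℝ) ≤ ((n ^ 2 + ∑ i : Fin (r + 1),
          (univ.filter fun t => ω t = i ∧ ∀ t' ∈ G x t, i ≤ ω t').card : ℕ) : ℝ) := by
          exact_mod_cast h3
        refine h4.trans (le_of_eq ?_)
        push_cast
        congr 1
        apply Finset.sum_congr rfl
        intro i _
        rw [Finset.sum_boole]
      have h5 : (0 : ℝ) ≤ ∏ s, q (ω s) := Finset.prod_nonneg fun s _ => hq0 _
      refine (mul_le_mul_of_nonneg_left h2 h5).trans (le_of_eq ?_)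
      rw [mul_add, Finset.mul_sum]
      congr 1
      apply Finset.sum_congr rfl
      intro i _
      rw [Finset.mul_sum]
    have h6 : ∑ ω : Fin n × Fin n × Fin n → Fin (r + 1), (∏ s, q (ω s)) * ((F ω).cost x : ℝ) ≤
        (n : ℝ) ^ 2 + ∑ i : Fin (r + 1), ∑ t : Fin n × Fin n × Fin n,
          q i * (1 - ∑ l ∈ univ.filter (fun l => l < i), q l) ^ ((G x t).card - 1) := by
      refine (Finset.sum_le_sum fun ω _ => h1 ω).trans (le_of_eq ?_)
      rw [Finset.sum_add_distrib, ← Finset.sum_mul, hmu, one_mul]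
      congr 1
      rw [Finset.sum_comm]
      apply Finset.sum_congr rfl
      intro i _
      rw [Finset.sum_comm]
      apply Finset.sum_congr rfl
      intro t _
      exact hP _ r q hq1 t (G x t) (self_mem_G x t) i
    have h7 : ∀ i : Fin (r + 1), ∑ t : Fin n × Fin n × Fin n,
        q i * (1 - ∑ l ∈ univ.filter (fun l => l < i), q l) ^ ((G x t).card - 1) ≤
          if i = 0 then N else 34 * N := by
      intro i
      rw [← Finset.mul_sum]
      split_ifs with hi
      · subst hi
        have h8 : (univ.filter fun l : Fin (r + 1) => l < 0) = ∅ := by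
          apply Finset.filter_eq_empty_iff.2
          intro l _
          exact Fin.not_lt_zero l
        rw [h8, Finset.sum_empty, sub_zero]
        simp only [one_pow, Finset.sum_const, Finset.card_univ, Fintype.card_prod, Fintype.card_fin,
          nsmul_eq_mul, mul_one]
        push_cast
        refine le_trans (le_of_eq ?_) hq2
        ring
      · obtain ⟨K, hK0, hK1, hK2⟩ := hq3 i hi
        have hle : ∑ l ∈ univ.filter (fun l => l < i), q l ≤ 1 := by
          rw [← hq1]
          exact Finset.sum_le_sum_of_subset_of_nonneg (Finset.filter_subset _ _)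
            fun l _ _ => hq0 l
        have h9 := hC n x hx _ K hK0 hle hK1
        calc q i * ∑ t : Fin n × Fin n × Fin n,
              (1 - ∑ l ∈ univ.filter (fun l => l < i), q l) ^ ((G x t).card - 1)
            ≤ q i * (17 * n ^ 2 * K) := mul_le_mul_of_nonneg_left h9 (hq0 i)
          _ = 17 * (q i * (n ^ 2 * K)) := by ring
          _ ≤ 17 * (2 * N) := mul_le_mul_of_nonneg_left hK2 (by norm_num)
          _ = 34 * N := by ring
    have h10 : ∑ i : Fin (r + 1), (if i = 0 then N else 34 * N) = N + r * (34 * N) := by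
      rw [Fin.sum_univ_succ]
      simp [Fin.succ_ne_zero]
    calc ∑ ω : Fin n × Fin n × Fin n → Fin (r + 1), (∏ s, q (ω s)) * ((F ω).cost x : ℝ)
        ≤ (n : ℝ) ^ 2 + ∑ i : Fin (r + 1), (if i = 0 then N else 34 * N) :=
          h6.trans (add_le_add le_rfl (Finset.sum_le_sum fun i _ => h7 i))
      _ ≤ N + (N + r * (34 * N)) := by rw [h10]; exact add_le_add hnN le_rfl
      _ ≤ 34 * (r + 1) * N := by nlinarith

end Pool.Agent.H72.TR
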